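import Pool.Agent.N110.Pair
import Pool.Agent.N110.Cls
import Mathlib.FieldTheory.Relrank

/-!
Degrees of the finite extensions of a function field in an algebraic extension `Ω`.
-/

set_option autoImplicit false
set_option linter.overlappingInstances false
set_option linter.unusedSectionVars false

open FF Module IntermediateField Pool.Agent.N110

namespace Pool.Agent.T2h12.OM

section

variable {Ω : Type} [Field Ω] [Algebra ℂ Ω]

/-- finitely generated fields over which `Ω` is algebraic -/
theorem fin_rel {A M : IntermediateField ℂ Ω} (h : A ≤ M) (hM : M.FG)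
    (hA : Algebra.IsAlgebraic A Ω) : 0 < relfinrank A M := by
  rw [relfinrank_eq_finrank_of_le h]
  obtain ⟨t, ht⟩ := hM
  have h1 : extendScalars h = IntermediateField.adjoin A (t : Set Ω) := by
    apply le_antisymm
    · intro z hz
      have h2 : z ∈ M := hz
      rw [← ht] at h2
      have h3 : IntermediateField.adjoin ℂ (t : Set Ω) ≤
          (IntermediateField.adjoin A (t : Set Ω)).restrictScalars ℂ := by
        rw [IntermediateField.adjoin_le_iff]
        exact IntermediateField.subset_adjoin A (t : Set Ω)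
      exact h3 h2
    · rw [IntermediateField.adjoin_le_iff]
      intro z hz
      have h2 : z ∈ M := by
        rw [← ht]
        exact IntermediateField.subset_adjoin ℂ (t : Set Ω) hz
      exact h2
  have h2 : FiniteDimensional A (IntermediateField.adjoin A (t : Set Ω)) :=
    IntermediateField.finiteDimensional_adjoin fun x _ => (hA.isAlgebraic x).isIntegral
  rw [h1]
  exact Module.finrank_pos

/-- the degree over the field generated by the image of a multiset of functions -/
theorem rel_dm {F : Type} [Field F] [Algebra ℂ F] (f : F →ₐ[ℂ] Ω) (W : Multiset F) :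
    relfinrank (gen ℂ (W.map f)) f.fieldRange = dm ℂ W := by
  have e1 : gen ℂ (W.map f) = (gen ℂ W).map f := by
    unfold gen
    rw [IntermediateField.adjoin_map]
    congr 1
    ext z
    simp only [Multiset.mem_map, Set.mem_ofPred_eq, Set.mem_image]
  rw [e1, AlgHom.fieldRange_eq_map, relfinrank_map_map, relfinrank_top_right]
  rfl

end

section

variable (K : Type) {Ω : Type} [Field K] [Field Ω] [Algebra ℂ K] [Algebra ℂ Ω] [Algebra K Ω]
  [IsScalarTower ℂ K Ω]

/-- the embedding of `K` in `Ω` -/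
noncomputable def ιO (Ω : Type) [Field Ω] [Algebra ℂ Ω] [Algebra K Ω] [IsScalarTower ℂ K Ω] :
    K →ₐ[ℂ] Ω := IsScalarTower.toAlgHom ℂ K Ω

/-- the image of `K` in `Ω` -/
noncomputable def KO (Ω : Type) [Field Ω] [Algebra ℂ Ω] [Algebra K Ω] [IsScalarTower ℂ K Ω] :
    IntermediateField ℂ Ω := (ιO K Ω).fieldRange

variable {K}

theorem KO_fg [Algebra.EssFiniteType ℂ K] : (KO K Ω).FG := by
  obtain ⟨s, hs⟩ := IntermediateField.fg_top ℂ K
  unfold KO
  rw [AlgHom.fieldRange_eq_map, ← hs, IntermediateField.adjoin_map]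
  exact fg_adjoin_of_finite (s.finite_toSet.image _)

theorem KO_alg [Algebra.IsAlgebraic K Ω] : Algebra.IsAlgebraic (KO K Ω) Ω := by
  constructor
  intro z
  obtain ⟨p, hp, hpz⟩ := Algebra.IsAlgebraic.isAlgebraic (R := K) z
  have hmem : ∀ a : K, algebraMap K Ω a ∈ KO K Ω := fun a => ⟨a, rfl⟩
  obtain ⟨f, hf⟩ : ∃ f : K →+* KO K Ω, ∀ a, ((f a : KO K Ω) : Ω) = algebraMap K Ω a :=
    ⟨(ιO K Ω).rangeRestrict.toRingHom, fun a => rfl⟩
  refine ⟨p.map f, ?_, ?_⟩
  · rwa [Ne, Polynomial.map_eq_zero]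
  · rw [Polynomial.aeval_def, Polynomial.eval₂_map]
    have : (algebraMap (KO K Ω) Ω).comp f = algebraMap K Ω := by
      ext a
      exact hf a
    rw [this]
    exact hpz

/-- algebraic over the image under an automorphism -/
theorem map_alg {A : IntermediateField ℂ Ω} (hA : Algebra.IsAlgebraic A Ω) (g : Ω ≃ₐ[ℂ] Ω) :
    Algebra.IsAlgebraic (A.map (g : Ω →ₐ[ℂ] Ω)) Ω := by
  constructor
  intro z
  obtain ⟨w, rfl⟩ := g.surjective z
  obtain ⟨p, hp, hpz⟩ := hA.isAlgebraic w
  obtain ⟨f, hf⟩ : ∃ f : A →+* (A.map (g : Ω →ₐ[ℂ] Ω)), ∀ a, ((f a : (A.map (g : Ω →ₐ[ℂ] Ω))) : Ω)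
      = g (a : Ω) :=
    ⟨(IntermediateField.equivMap A (g : Ω →ₐ[ℂ] Ω) : A →+* _), fun a => rfl⟩
  have hf1 : Function.Injective f := f.injective
  refine ⟨p.map f, ?_, ?_⟩
  · rwa [Ne, Polynomial.map_eq_zero]
  · rw [Polynomial.aeval_def, Polynomial.eval₂_map]
    have : (algebraMap (A.map (g : Ω →ₐ[ℂ] Ω)) Ω).comp f =
        (g : Ω →+* Ω).comp (algebraMap A Ω) := by
      ext a
      exact hf a
    have h2 : Polynomial.eval₂ (algebraMap A Ω) w p = 0 := hpz
    have h3 := Polynomial.hom_eval₂ p (algebraMap A Ω) (g : Ω →+* Ω) w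
    rw [h2, map_zero] at h3
    rw [this]
    exact h3.symm

theorem alg_up {A B : IntermediateField ℂ Ω} (h : A ≤ B) (hA : Algebra.IsAlgebraic A Ω) :
    Algebra.IsAlgebraic B Ω := alg_mono h hA

end

end Pool.Agent.T2h12.OM
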