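import Pool.Agent.T2h12.OM.RB
import Pool.Agent.T2H06.ASM.Adj

/-!
Adjoint divisors and correspondences.
-/

set_option autoImplicit false
set_option linter.overlappingInstances false
set_option linter.unusedSectionVars false

open Filter FF Module Pool.Agent.N110 Pool.Agent.R887 Pool.Agent.Y172
open Pool.Agent.W602.GT Pool.Agent.W603.LV Pool.Agent.Y191 Pool.Agent.W619.PQ
open Pool.Agent.T2H08.CM (IsCanonicalDivisor pow_pluri pow_ordEq can_ord)
open Pool.Agent.T2H06.DYL (IsDivisor IsSec NumLt LocalEquation Cartier)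
open Pool.Agent.T2H06.ASM (div_down)

namespace Pool.Agent.T2h12.OM

section

variable {K L : Type} [Field K] [Algebra ℂ K] [Field L] [Algebra ℂ L] {N n : ℕ}
  {y : Fin (N + 1) → K}

theorem div_up' [Algebra.EssFiniteType ℂ L] (hn : Algebra.trdeg ℂ K = n)
    (hn' : Algebra.trdeg ℂ L = n) {p : K →ₐ[ℂ] L} {Q : Place ℂ L} {P : Place ℂ K} {e : ℕ}
    (hQ : LiesOver p Q P e) (hP : Divisorial n P) : Divisorial n Q := by
  let _ : Algebra K L := p.toRingHom.toAlgebra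
  have hst : IsScalarTower ℂ K L :=
    IsScalarTower.of_algebraMap_eq fun c => (p.commutes c).symm
  have hfd : FiniteDimensional K L := finite_map hn hn'
  have hov : Over Q P e := hQ
  exact divisorial_up hov hP

/-- **The pull backs of the multiples of the canonical divisor** to a correspondence whose first
projection is unramified over the prime divisors. -/
theorem corr_can (hy : NormalModel y) (hess' : Algebra.EssFiniteType ℂ L)
    (hn : Algebra.trdeg ℂ K = n) (hn' : Algebra.trdeg ℂ L = n) (hcan : Canonical y n)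
    {C : Place ℂ K → ℚ} (hC : IsCanonicalDivisor y n C) (a : ℕ) {p q : K →ₐ[ℂ] L}
    (hp : Unram y p) : ∃ u : L, u ≠ 0 ∧ ∀ P, IsPrimeDivisor y P → ∀ (Q : Place ℂ L) (e : ℕ),
      LiesOver p Q P e → ∀ (Q' : Place ℂ K) (e' : ℕ), LiesOver q Q Q' e' → ∀ f : K,
        LocalEquation y (a • C) Q' f → ((Q.ord (q f) : ℤ) : ℚ) ≤ a * (e * C P) + Q.ord u := by
  obtain ⟨ω₀, hω₀, hωC₀⟩ := hC
  obtain ⟨ω, hωdef⟩ : ∃ ω : (Fin n → Derivation ℂ K K) → K, ω = fun D => ω₀ D ^ a := ⟨_, rfl⟩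
  have hω : IsPluri a ω := by rw [hωdef]; exact pow_pluri hω₀ a
  have hωC : ∀ P, IsPrimeDivisor y P → OrdEq P ω ((a • C) P) := by
    intro P hP
    have e : (a • C) P = a * C P := by rw [Pi.smul_apply, nsmul_eq_mul]
    rw [hωdef, e]
    exact pow_ordEq (hωC₀ P hP) a
  obtain ⟨x, E, hx, hE⟩ := exists_crd hn (k := ℂ) (K := K)
  have hfr : IsFrame E := fun F => ⟨fun j => F (x j),
    (Pool.Agent.W73.PG.PULL.expand x hx E hE F).symm⟩
  obtain ⟨x', E', hx', hE'⟩ := exists_crd hn' (k := ℂ) (K := L)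
  have hfr' : IsFrame E' := fun F => ⟨fun j => F (x' j),
    (Pool.Agent.W73.PG.PULL.expand x' hx' E' hE' F).symm⟩
  obtain ⟨c, -, hc⟩ := exists_ordc hy hn hx hE
  have hess := hy.ess
  have hjp : jac p x E' ≠ 0 := by
    let _ : Algebra K L := p.toRingHom.toAlgebra
    have hst : IsScalarTower ℂ K L :=
      IsScalarTower.of_algebraMap_eq fun c => (p.commutes c).symm
    have hfd : FiniteDimensional K L := finite_map hn hn'
    exact pull_ne hn hE hfr'
  have hjq : jac q x E' ≠ 0 := by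
    let _ : Algebra K L := q.toRingHom.toAlgebra
    have hst : IsScalarTower ℂ K L :=
      IsScalarTower.of_algebraMap_eq fun c => (q.commutes c).symm
    have hfd : FiniteDimensional K L := finite_map hn hn'
    exact pull_ne hn hE hfr'
  by_cases hωE : ω E = 0
  · refine ⟨1, one_ne_zero, fun P hP Q e hQ Q' e' hQ' f _ => ?_⟩
    exact absurd hωE (ordEq_val hfr hc hP hω (hωC P hP)).1
  have hqE : q (ω E) ≠ 0 := by rwa [Ne, map_eq_zero]
  have hpE : p (ω E) ≠ 0 := by rwa [Ne, map_eq_zero]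
  have hg0 : jac q x E' ^ a * q (ω E) ≠ 0 := mul_ne_zero (pow_ne_zero _ hjq) hqE
  refine ⟨jac q x E' ^ a * q (ω E) / jac p x E' ^ a / p (ω E),
    div_ne_zero (div_ne_zero hg0 (pow_ne_zero _ hjp)) hpE,
    fun P hP Q e hQ Q' e' hQ' f hf => ?_⟩
  have he := hp P hP Q e hQ
  have hQd := div_up' hn hn' hQ (hP.divisorial hy hn)
  have hQ'd := div_down hn hn' hQ' hQd
  have h1 := can_ord hy hn hcan hx hE hfr hω hωC hQ'd hf
  have h1' : OrdGe Q' (frm x a (ω E)) (Q'.ord f) := by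
    intro D hD
    have h2 : frm x a (ω E) D = ω D := by
      have h3 := pluri_coord hx hE hω D
      unfold frm
      rw [h3]
    rw [h2]
    exact h1 D hD
  have h3 := pull_ordge hy hess' hn hn' q hx hE hx' hE' hQ' hQ'd h1'
  have h4 := push_ord' hy hess' hn hn' p hE hfr hc hx' hE' hP hQ hg0 h3
  obtain ⟨-, h6⟩ := ordEq_val hfr hc hP hω (hωC P hP)
  have h7 : Q.ord (q f) = e' * Q'.ord f := hQ'.2 f
  have h8 : Q.ord (p (ω E)) = e * P.ord (ω E) := hQ.2 _
  rw [Q.ord_div (div_ne_zero hg0 (pow_ne_zero _ hjp)) hpE, h7, h8]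
  rw [Pi.smul_apply, nsmul_eq_mul] at h6
  rw [he] at h4 ⊢
  have he1 : (0 : ℚ) ≤ a * ((e' : ℚ) - 1) := by
    have : (1 : ℚ) ≤ e' := by exact_mod_cast hQ'.1
    exact mul_nonneg (Nat.cast_nonneg _) (by linarith)
  push_cast at h4 ⊢
  linarith

/-- **Adjoint divisors.** -/
theorem corr_adj (hy : NormalModel y) (hess' : Algebra.EssFiniteType ℂ L)
    (hn : Algebra.trdeg ℂ K = n) (hn' : Algebra.trdeg ℂ L = n) (hcan : Canonical y n)
    {C M : Place ℂ K → ℚ} (hC : IsCanonicalDivisor y n C) (hM : Cartier y n M) (a b : ℕ)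
    {p q : K →ₐ[ℂ] L} (hp : Unram y p) (hle : CorrPullLe y M p q 1) :
    CorrPullLe y (a • C + b • M) p q 1 := by
  intro i hi k hk
  have hess := hy.ess
  obtain ⟨u, hu, hup⟩ := corr_can (q := q) hy hess' hn hn' hcan hC a hp
  obtain ⟨a1, ha1, w1, hw1, h1⟩ : ∃ a1 : ℕ, 1 ≤ a1 ∧ ∃ w1 : L, w1 ≠ 0 ∧
      ∀ P, IsPrimeDivisor y P → ∀ (Q : Place ℂ L) (e : ℕ), LiesOver p Q P e →
      ∀ (Q' : Place ℂ K) (e' : ℕ), LiesOver q Q Q' e' → ∀ (l : Fin (N + 1)) (g : K),
        Centred y l P → LocalEquation y M Q' g →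
        (a1 : ℚ) * ((k * b : ℕ) * Q.ord (q g)) ≤
          a1 * ((k * b : ℕ) * (e * M P) + Q.ord (p (y i / y l))) + Q.ord w1 := by
    by_cases hb : b = 0
    · subst hb
      refine ⟨1, le_rfl, 1, one_ne_zero, fun P hP Q e hQ Q' e' hQ' l g hl _ => ?_⟩
      have h2 : 0 ≤ P.ord (y i / y l) := (P.reg_iff (div_ne_zero hi hl.1)).1 (hl.2 i)
      have h3 : Q.ord (p (y i / y l)) = e * P.ord (y i / y l) := hQ.2 _
      have h4 : (0 : ℚ) ≤ Q.ord (p (y i / y l)) := by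
        rw [h3]
        have : (0 : ℚ) ≤ P.ord (y i / y l) := by exact_mod_cast h2
        push_cast
        positivity
      rw [Q.ord_one]
      simpa using h4
    · obtain ⟨a1, ha1, w1, hw1, h2⟩ := hle i hi (k * b) (Nat.mul_pos hk (Nat.pos_of_ne_zero hb))
      refine ⟨a1, ha1, w1, hw1, fun P hP Q e hQ Q' e' hQ' l g hl hg => ?_⟩
      have h3 := h2 P hP Q e hQ Q' e' hQ' l g hl hg
      rw [one_mul] at h3
      exact h3
  refine ⟨a1, ha1, w1 * u ^ (a1 * k), mul_ne_zero hw1 (pow_ne_zero _ hu),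
    fun P hP Q e hQ Q' e' hQ' l f hl hf => ?_⟩
  have hQ'd := div_down hn hn' hQ' (div_up' hn hn' hQ (hP.divisorial hy hn))
  obtain ⟨eL, heL⟩ := hM _ hQ'd
  obtain ⟨eC, heC⟩ : ∃ eC, eC = f / eL ^ b := ⟨_, rfl⟩
  have heC0 : eC ≠ 0 := by
    rw [heC]
    exact div_ne_zero hf.1 (pow_ne_zero _ heL.1)
  have hCe : LocalEquation y (a • C) Q' eC := by
    refine ⟨heC0, fun P hP ht => ?_⟩
    have h2 := hf.2 P hP ht
    have h3 := heL.2 P hP ht
    rw [Pi.add_apply, Pi.smul_apply b, nsmul_eq_mul b (M P)] at h2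
    rw [heC, P.ord_div hf.1 (pow_ne_zero _ heL.1), P.ord_pow]
    push_cast
    rw [h3, h2]
    ring
  have h2 := hup P hP Q e hQ Q' e' hQ' eC hCe
  have h3 := h1 P hP Q e hQ Q' e' hQ' l eL hl heL
  have h4 : f = eC * eL ^ b := by
    rw [heC, div_mul_cancel₀ _ (pow_ne_zero _ heL.1)]
  have h5 : Q.ord (q f) = Q.ord (q eC) + b * Q.ord (q eL) := by
    rw [h4, map_mul, map_pow, Q.ord_mul ((map_ne_zero q).2 heC0)
      (pow_ne_zero _ ((map_ne_zero q).2 heL.1)), Q.ord_pow]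
  have h6 : Q.ord (w1 * u ^ (a1 * k)) = Q.ord w1 + (a1 * k : ℕ) * Q.ord u := by
    rw [Q.ord_mul hw1 (pow_ne_zero _ hu), Q.ord_pow]
  have h7 : (a • C + b • M) P = a * C P + b * M P := by
    rw [Pi.add_apply, Pi.smul_apply, Pi.smul_apply, nsmul_eq_mul, nsmul_eq_mul]
  rw [h5, h6, h7]
  push_cast at h2 h3 ⊢
  have h8 : (0 : ℚ) ≤ a1 * k := by positivity
  have h9 := mul_le_mul_of_nonneg_left h2 h8
  linarith

/-- from the multiples of a divisor to the divisor -/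
theorem corr_of_mul {M : Place ℂ K → ℚ} {r : ℕ} (hr : 1 ≤ r) {p q : K →ₐ[ℂ] L}
    (h : CorrPullLe y (r • M) p q 1) : CorrPullLe y M p q 1 := by
  intro i hi k hk
  obtain ⟨a, ha, w, hw, h1⟩ := h i hi k hk
  refine ⟨a * r, Nat.mul_pos ha hr, w, hw, fun P hP Q e hQ Q' e' hQ' l g hl hg => ?_⟩
  have h2 : LocalEquation y (r • M) Q' (g ^ r) := by
    refine ⟨pow_ne_zero _ hg.1, fun P hP ht => ?_⟩
    rw [P.ord_pow, Pi.smul_apply, nsmul_eq_mul]
    push_cast
    rw [hg.2 P hP ht]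
  have h3 := h1 P hP Q e hQ Q' e' hQ' l (g ^ r) hl h2
  have h4 : 0 ≤ P.ord (y i / y l) := (P.reg_iff (div_ne_zero hi hl.1)).1 (hl.2 i)
  have h4' : Q.ord (p (y i / y l)) = e * P.ord (y i / y l) := hQ.2 _
  have h5 : (0 : ℚ) ≤ Q.ord (p (y i / y l)) := by
    rw [h4']
    have : (0 : ℚ) ≤ P.ord (y i / y l) := by exact_mod_cast h4
    push_cast
    positivity
  rw [map_pow, Q.ord_pow, Pi.smul_apply, nsmul_eq_mul] at h3
  push_cast at h3 ⊢
  have hr' : (1 : ℚ) ≤ r := by exact_mod_cast hr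
  have h6 : (a : ℚ) * Q.ord (p (y i / y l)) ≤ a * r * Q.ord (p (y i / y l)) := by
    have h7 : (0 : ℚ) ≤ a * Q.ord (p (y i / y l)) := mul_nonneg (Nat.cast_nonneg _) h5
    nlinarith
  nlinarith

end

end Pool.Agent.T2h12.OM
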