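import Pool.Agent.T2h12.OM.A

/-!
The normalised degree over the field generated by a multiset of functions in `Ω`.
-/

set_option autoImplicit false
set_option linter.overlappingInstances false
set_option linter.unusedSectionVars false

open FF Module IntermediateField Pool.Agent.N110

namespace Pool.Agent.T2h12.OM

section

variable (K : Type) {Ω : Type} [Field K] [Field Ω] [Algebra ℂ K] [Algebra ℂ Ω] [Algebra K Ω]
  [IsScalarTower ℂ K Ω]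

/-- the normalised degree -/
noncomputable def dO (W : Multiset Ω) : ℝ :=
  (relfinrank (gen ℂ W) (KO K Ω ⊔ gen ℂ W) : ℝ) / relfinrank (KO K Ω) (KO K Ω ⊔ gen ℂ W)

/-- the multiplier of an automorphism -/
noncomputable def chi (g : Ω ≃ₐ[ℂ] Ω) : ℝ :=
  (relfinrank ((KO K Ω).map (g : Ω →ₐ[ℂ] Ω)) (KO K Ω ⊔ (KO K Ω).map (g : Ω →ₐ[ℂ] Ω)) : ℝ) /
    relfinrank (KO K Ω) (KO K Ω ⊔ (KO K Ω).map (g : Ω →ₐ[ℂ] Ω))

variable {K}

theorem gen_fg (W : Multiset Ω) : (gen ℂ W).FG := by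
  classical
  unfold gen
  refine fg_adjoin_of_finite ?_
  have : {x | x ∈ W} = (W.toFinset : Set Ω) := by ext z; simp
  rw [this]
  exact W.toFinset.finite_toSet

theorem fg_map {A : IntermediateField ℂ Ω} (hA : A.FG) (g : Ω ≃ₐ[ℂ] Ω) :
    (A.map (g : Ω →ₐ[ℂ] Ω)).FG := by
  obtain ⟨t, rfl⟩ := hA
  rw [IntermediateField.adjoin_map]
  exact fg_adjoin_of_finite (t.finite_toSet.image _)

variable [Algebra.EssFiniteType ℂ K] [Algebra.IsAlgebraic K Ω]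

/-- the degree of a finite extension of `K` is positive -/
theorem KO_rel {M : IntermediateField ℂ Ω} (h : KO K Ω ≤ M) (hM : M.FG) :
    0 < relfinrank (KO K Ω) M := fin_rel h hM KO_alg

theorem dO_eq (W : Multiset Ω) {M : IntermediateField ℂ Ω} (h : KO K Ω ≤ M) (hM : M.FG)
    (hW : gen ℂ W ≤ M) :
    dO K W = (relfinrank (gen ℂ W) M : ℝ) / relfinrank (KO K Ω) M := by
  have hE : KO K Ω ⊔ gen ℂ W ≤ M := sup_le h hW
  have h1 := relfinrank_mul_relfinrank (le_sup_right : gen ℂ W ≤ KO K Ω ⊔ gen ℂ W) hE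
  have h2 := relfinrank_mul_relfinrank (le_sup_left : KO K Ω ≤ KO K Ω ⊔ gen ℂ W) hE
  have h3 : 0 < relfinrank (KO K Ω ⊔ gen ℂ W) M := fin_rel hE hM (alg_up le_sup_left KO_alg)
  have h4 : 0 < relfinrank (KO K Ω) (KO K Ω ⊔ gen ℂ W) :=
    KO_rel le_sup_left (fg_sup KO_fg (gen_fg W))
  unfold dO
  rw [← h1, ← h2]
  have h5 : (relfinrank (KO K Ω ⊔ gen ℂ W) M : ℝ) ≠ 0 := by exact_mod_cast h3.ne'
  push_cast
  rw [mul_div_mul_right _ _ h5]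

theorem chi_pos (g : Ω ≃ₐ[ℂ] Ω) : 0 < chi K g := by
  have hfg : (KO K Ω ⊔ (KO K Ω).map (g : Ω →ₐ[ℂ] Ω)).FG := fg_sup KO_fg (fg_map KO_fg g)
  have h1 : 0 < relfinrank (KO K Ω) (KO K Ω ⊔ (KO K Ω).map (g : Ω →ₐ[ℂ] Ω)) :=
    KO_rel le_sup_left hfg
  have h2 : 0 < relfinrank ((KO K Ω).map (g : Ω →ₐ[ℂ] Ω))
      (KO K Ω ⊔ (KO K Ω).map (g : Ω →ₐ[ℂ] Ω)) := fin_rel le_sup_right hfg (map_alg KO_alg g)
  unfold chi
  positivity

theorem chi_eq (g : Ω ≃ₐ[ℂ] Ω) {M : IntermediateField ℂ Ω} (h : KO K Ω ≤ M)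
    (hg : (KO K Ω).map (g : Ω →ₐ[ℂ] Ω) ≤ M) (hM : M.FG) :
    chi K g = (relfinrank ((KO K Ω).map (g : Ω →ₐ[ℂ] Ω)) M : ℝ) / relfinrank (KO K Ω) M := by
  have hE := sup_le h hg
  have h1 := relfinrank_mul_relfinrank (le_sup_right : (KO K Ω).map (g : Ω →ₐ[ℂ] Ω) ≤
    KO K Ω ⊔ (KO K Ω).map (g : Ω →ₐ[ℂ] Ω)) hE
  have h2 := relfinrank_mul_relfinrank (le_sup_left : KO K Ω ≤
    KO K Ω ⊔ (KO K Ω).map (g : Ω →ₐ[ℂ] Ω)) hE
  have h3 : 0 < relfinrank (KO K Ω ⊔ (KO K Ω).map (g : Ω →ₐ[ℂ] Ω)) M :=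
    fin_rel hE hM (alg_up le_sup_left KO_alg)
  unfold chi
  rw [← h1, ← h2]
  have h5 : (relfinrank (KO K Ω ⊔ (KO K Ω).map (g : Ω →ₐ[ℂ] Ω)) M : ℝ) ≠ 0 := by
    exact_mod_cast h3.ne'
  push_cast
  rw [mul_div_mul_right _ _ h5]

theorem gen_map (g : Ω ≃ₐ[ℂ] Ω) (W : Multiset Ω) :
    gen ℂ (W.map g) = (gen ℂ W).map (g : Ω →ₐ[ℂ] Ω) := by
  unfold gen
  rw [IntermediateField.adjoin_map]
  congr 1
  ext z
  simp only [Multiset.mem_map, Set.mem_ofPred_eq, Set.mem_image]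
  rfl

/-- **The action of automorphisms on the degrees.** -/
theorem dO_map (g : Ω ≃ₐ[ℂ] Ω) (W : Multiset Ω) : dO K (W.map g) = chi K g * dO K W := by
  obtain ⟨E, hE⟩ : ∃ E, E = KO K Ω ⊔ gen ℂ W := ⟨_, rfl⟩
  have hE1 : KO K Ω ≤ E := by rw [hE]; exact le_sup_left
  have hE2 : gen ℂ W ≤ E := by rw [hE]; exact le_sup_right
  have hEf : E.FG := by rw [hE]; exact fg_sup KO_fg (gen_fg W)
  obtain ⟨M, hM⟩ : ∃ M, M = KO K Ω ⊔ E.map (g : Ω →ₐ[ℂ] Ω) := ⟨_, rfl⟩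
  have hM1 : KO K Ω ≤ M := by rw [hM]; exact le_sup_left
  have hM2 : E.map (g : Ω →ₐ[ℂ] Ω) ≤ M := by rw [hM]; exact le_sup_right
  have hMf : M.FG := by rw [hM]; exact fg_sup KO_fg (fg_map hEf g)
  have m1 : (gen ℂ W).map (g : Ω →ₐ[ℂ] Ω) ≤ E.map (g : Ω →ₐ[ℂ] Ω) :=
    IntermediateField.map_mono _ hE2
  have m2 : (KO K Ω).map (g : Ω →ₐ[ℂ] Ω) ≤ E.map (g : Ω →ₐ[ℂ] Ω) :=
    IntermediateField.map_mono _ hE1
  rw [dO_eq (W.map g) hM1 hMf (by rw [gen_map]; exact m1.trans hM2), dO_eq W hE1 hEf hE2,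
    chi_eq g hM1 (m2.trans hM2) hMf, gen_map]
  have h1 := relfinrank_mul_relfinrank m1 hM2
  have h2 := relfinrank_mul_relfinrank m2 hM2
  rw [relfinrank_map_map] at h1 h2
  rw [← h1, ← h2]
  have h3 : (relfinrank (KO K Ω) E : ℝ) ≠ 0 := by exact_mod_cast (KO_rel hE1 hEf).ne'
  have h4 : (relfinrank (KO K Ω) M : ℝ) ≠ 0 := by exact_mod_cast (KO_rel hM1 hMf).ne'
  push_cast
  field_simp

end

end Pool.Agent.T2h12.OM
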