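import Pool.Agent.T2h12.OM.B
import Pool.Agent.N110.Sec
import Pool.Agent.N110.QMap
import Pool.Agent.R887.Num

/-!
The finite extensions of the function field in `Ω`: the standing assumptions.
-/

set_option autoImplicit false
set_option linter.overlappingInstances false
set_option linter.unusedSectionVars false

open FF Module IntermediateField Pool.Agent.N110 Pool.Agent.R887 Pool.Agent.Y172
open Pool.Agent.W602.GT Pool.Agent.W603.LV Pool.Agent.Y191

namespace Pool.Agent.T2h12.OM

section

variable {K Ω : Type} [Field K] [Field Ω] [Algebra ℂ K] [Algebra ℂ Ω] [Algebra K Ω]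
  [IsScalarTower ℂ K Ω] {N n : ℕ} {y : Fin (N + 1) → K}

/-- a finite extension of `K` in `Ω` -/
structure Adm (K : Type) {Ω : Type} [Field K] [Field Ω] [Algebra ℂ K] [Algebra ℂ Ω] [Algebra K Ω]
    [IsScalarTower ℂ K Ω] (M : IntermediateField ℂ Ω) : Prop where
  le : KO K Ω ≤ M
  fg : M.FG

theorem Adm.sup [Algebra.EssFiniteType ℂ K] {A : IntermediateField ℂ Ω} (hA : A.FG) :
    Adm K (KO K Ω ⊔ A) := ⟨le_sup_left, fg_sup KO_fg hA⟩

/-- the embedding of `K` in a finite extension -/
noncomputable def emb {M : IntermediateField ℂ Ω} (h : KO K Ω ≤ M) : K →ₐ[ℂ] M :=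
  (IntermediateField.inclusion h).comp (ιO K Ω).rangeRestrict

theorem emb_val {M : IntermediateField ℂ Ω} (h : KO K Ω ≤ M) (a : K) :
    ((emb h a : M) : Ω) = ιO K Ω a := rfl

/-- the affine coordinates in `M` -/
def SM (y : Fin (N + 1) → K) (i : Fin (N + 1)) (M : IntermediateField ℂ Ω) : Set M :=
  {z | (z : Ω) ∈ ιO K Ω '' affS y i}

theorem SM_eq {M : IntermediateField ℂ Ω} (h : KO K Ω ≤ M) (i : Fin (N + 1)) :
    SM y i M = Set.range fun l => emb h (y l / y i) := by
  ext z
  constructor
  · rintro ⟨_, ⟨l, rfl⟩, hl⟩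
    exact ⟨l, Subtype.ext hl⟩
  · rintro ⟨l, rfl⟩
    exact ⟨y l / y i, ⟨l, rfl⟩, rfl⟩

variable [Algebra.IsAlgebraic K Ω]

theorem trdeg_M [Algebra.EssFiniteType ℂ K] (hn : Algebra.trdeg ℂ K = n)
    {M : IntermediateField ℂ Ω} (hM : Adm K M) : Algebra.trdeg ℂ M = n := by
  let _ : Algebra K M := (emb hM.le).toRingHom.toAlgebra
  have : IsScalarTower ℂ K M := IsScalarTower.of_algebraMap_eq fun c => ((emb hM.le).commutes c).symm
  have : IsScalarTower K M Ω := IsScalarTower.of_algebraMap_eq fun c => rfl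
  have h1 : Algebra.IsAlgebraic K M := Algebra.IsAlgebraic.tower_bot K M Ω
  have h2 := _root_.trdeg_add_eq ℂ K (A := M)
  rw [hn, _root_.trdeg_eq_zero (R := K) (A := M), add_zero] at h2
  exact h2.symm

theorem ess_M {M : IntermediateField ℂ Ω} (hM : Adm K M) : Algebra.EssFiniteType ℂ M :=
  IntermediateField.essFiniteType_iff.2 hM.fg

theorem fd_M [Algebra.EssFiniteType ℂ K] (hn : Algebra.trdeg ℂ K = n)
    {M : IntermediateField ℂ Ω} (hM : Adm K M) :
    letI : Algebra K M := (emb hM.le).toRingHom.toAlgebra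
    FiniteDimensional K M := by
  let : Algebra K M := (emb hM.le).toRingHom.toAlgebra
  have : IsScalarTower ℂ K M := IsScalarTower.of_algebraMap_eq fun c => ((emb hM.le).commutes c).symm
  have := ess_M hM
  exact finite_map hn (trdeg_M hn hM)

/-- algebraic over the field, hence over the algebra -/
theorem alg_of_field {F : Type} [Field F] [Algebra ℂ F] (U : Set F)
    (h : Algebra.IsAlgebraic (IntermediateField.adjoin ℂ U) F) :
    Algebra.IsAlgebraic (Algebra.adjoin ℂ U) F := by
  open scoped algebraAdjoinAdjoin in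
  exact Algebra.IsAlgebraic.trans _ (IntermediateField.adjoin ℂ U) F

/-- `M` is algebraic over the subalgebra generated by the affine coordinates -/
theorem alg_adj (hy : NormalModel y) {i : Fin (N + 1)} (hi : y i ≠ 0)
    {M : IntermediateField ℂ Ω} (hM : Adm K M) :
    Algebra.IsAlgebraic (Algebra.adjoin ℂ (Set.range fun l => emb hM.le (y l / y i))) M := by
  have hess := hy.ess
  refine alg_of_field _ ⟨fun z => ?_⟩
  let _ : Algebra K M := (emb hM.le).toRingHom.toAlgebra
  have : IsScalarTower K M Ω := IsScalarTower.of_algebraMap_eq fun c => rfl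
  have h1 : Algebra.IsAlgebraic K M := Algebra.IsAlgebraic.tower_bot K M Ω
  refine isAlg_trans (A := (emb hM.le).fieldRange) ?_ ?_
  · rintro _ ⟨x, rfl⟩
    have h3 : x ∈ IntermediateField.adjoin ℂ (Set.range fun l => y l / y i) := by
      rw [hy.field i hi]
      trivial
    have h4 : emb hM.le x ∈ IntermediateField.adjoin ℂ
        (Set.range fun l => emb hM.le (y l / y i)) := by
      have h5 : (IntermediateField.adjoin ℂ (Set.range fun l => y l / y i)).map (emb hM.le) =
          IntermediateField.adjoin ℂ (Set.range fun l => emb hM.le (y l / y i)) := by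
        rw [IntermediateField.adjoin_map, ← Set.range_comp]
        rfl
      rw [← h5]
      exact ⟨x, h3, rfl⟩
    exact isAlgebraic_algebraMap (⟨_, h4⟩ : IntermediateField.adjoin ℂ
      (Set.range fun l => emb hM.le (y l / y i)))
  · obtain ⟨p, hp, hpz⟩ := h1.isAlgebraic z
    obtain ⟨f, hf⟩ : ∃ f : K →+* (emb hM.le).fieldRange, ∀ a,
        ((f a : (emb hM.le).fieldRange) : M) = algebraMap K M a :=
      ⟨(emb hM.le).rangeRestrict.toRingHom, fun a => rfl⟩
    refine ⟨p.map f, by rwa [Ne, Polynomial.map_eq_zero], ?_⟩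
    rw [Polynomial.aeval_def, Polynomial.eval₂_map]
    have : (algebraMap (emb hM.le).fieldRange M).comp f = algebraMap K M := by
      ext a
      rw [← hf a]
      rfl
    rw [this]
    exact hpz

/-- functions in `M` are dominated by the affine coordinates -/
theorem dom_fin (hy : NormalModel y) {i : Fin (N + 1)} (hi : y i ≠ 0)
    {M : IntermediateField ℂ Ω} (hM : Adm K M) {μ : Place ℂ M → ℤ} (hμ : IsMin (SM y i M) μ)
    (t : Finset M) : ∃ (B : ℕ) (f : M), f ≠ 0 ∧ ∀ z ∈ t, ∀ P : Place ℂ M,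
      Ge P (B * μ P) (f * z) := by
  classical
  have h1 := alg_adj hy hi hM
  obtain ⟨f, hf, hint⟩ := Algebra.IsAlgebraic.exists_integral_multiples
    (Algebra.adjoin ℂ (Set.range fun l => emb hM.le (y l / y i))) t
  have h2 : insert (1 : M) (Set.range fun l => emb hM.le (y l / y i)) = SM y i M := by
    rw [SM_eq hM.le]
    refine Set.insert_eq_of_mem ⟨i, ?_⟩
    change emb hM.le (y i / y i) = 1
    rw [div_self hi, map_one]
  rw [← h2] at hμ
  have h3 : ∀ z : M, ∃ D : ℕ, z ∈ t → ∀ P : Place ℂ M, Ge P (D * μ P) ((f : M) * z) := by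
    intro z
    by_cases hz : z ∈ t
    · obtain ⟨D, hD⟩ := ge_int hμ (hint z hz)
      exact ⟨D, fun _ P => hD P⟩
    · exact ⟨0, fun h => absurd h hz⟩
  choose D hD using h3
  refine ⟨∑ z ∈ t, D z, (f : M), fun h => hf (Subtype.ext h), fun z hz P => ?_⟩
  refine (hD z hz P).mono ?_
  have h4 : (D z : ℤ) ≤ ((∑ z ∈ t, D z : ℕ) : ℤ) := by
    exact_mod_cast Finset.single_le_sum (f := D) (fun _ _ => Nat.zero_le _) hz
  exact mul_le_mul_of_nonpos_right h4 (hμ.nonpos (Set.mem_insert _ _) P)

end

end Pool.Agent.T2h12.OM
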