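import Pool.Agent.T2h12.OM.C

/-!
Spaces of functions in `Ω` and their intersection numbers.
-/

set_option autoImplicit false
set_option linter.overlappingInstances false
set_option linter.unusedSectionVars false

open FF Module IntermediateField Pool.Agent.N110 Pool.Agent.R887 Pool.Agent.Y172
open Pool.Agent.W602.GT Pool.Agent.W603.LV Pool.Agent.Y191

namespace Pool.Agent.T2h12.OM

section

variable {K Ω : Type} [Field K] [Field Ω] [Algebra ℂ K] [Algebra ℂ Ω] [Algebra K Ω]
  [IsScalarTower ℂ K Ω] {N n : ℕ} {y : Fin (N + 1) → K}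

/-- the degree in terms of `Ω` -/
theorem dm_M {M : IntermediateField ℂ Ω} (W : Multiset M) :
    dm ℂ W = relfinrank (gen ℂ (W.map M.val)) M := by
  have h := rel_dm M.val W
  rw [IntermediateField.fieldRange_val] at h
  exact h.symm

theorem mul_span {F : Type} [Field F] [Algebra ℂ F] (f : F →ₐ[ℂ] Ω) {S : Set F} {T : Set Ω}
    (hT : T ⊆ f '' S) : ∀ W : Multiset Ω, (∀ x ∈ W, x ∈ Submodule.span ℂ T) →
    ∃ W0 : Multiset F, W0.map f = W ∧ ∀ x ∈ W0, x ∈ Submodule.span ℂ S := by
  intro W
  induction W using Multiset.induction_on with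
  | empty => exact fun _ => ⟨0, rfl, by simp⟩
  | cons x W ih =>
    intro h
    obtain ⟨W0, h1, h2⟩ := ih fun z hz => h z (Multiset.mem_cons_of_mem hz)
    have h3 : x ∈ Submodule.span ℂ (f '' S) := Submodule.span_mono hT
      (h x (Multiset.mem_cons_self _ _))
    have h4 : x ∈ (Submodule.span ℂ S).map f.toLinearMap := by
      rw [Submodule.map_span]
      exact h3
    obtain ⟨z, hz, rfl⟩ := h4
    refine ⟨z ::ₘ W0, ?_, ?_⟩
    · rw [Multiset.map_cons, h1]
      rfl
    · intro w hw
      rcases Multiset.mem_cons.1 hw with rfl | hw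
      · exact hz
      · exact h2 w hw

variable [Algebra.IsAlgebraic K Ω]

theorem ctx_M (hy : NormalModel y) (hn : Algebra.trdeg ℂ K = n) {i : Fin (N + 1)}
    (hi : y i ≠ 0) {M : IntermediateField ℂ Ω} (hM : Adm K M) : Ctx n ℂ (SM y i M) where
  hn := by
    have := hy.ess
    exact trdeg_M hn hM
  ess := ess_M hM
  fin := by
    rw [SM_eq hM.le]
    exact Set.finite_range _
  one := by
    rw [SM_eq hM.le]
    refine ⟨i, ?_⟩
    change emb hM.le (y i / y i) = 1
    rw [div_self hi, map_one]
  bez := by
    have hess := hy.ess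
    obtain ⟨C, hC⟩ := bez hy hn hi
    refine ⟨C * relfinrank (KO K Ω) M, fun W hW hx => ?_⟩
    obtain ⟨W0, h1, h2⟩ := mul_span (ιO K Ω) (S := affS y i) (T := M.val '' SM y i M) (by
      rintro _ ⟨z, hz, rfl⟩
      exact hz) (W.map M.val) (by
      intro x hx'
      obtain ⟨z, hz, rfl⟩ := Multiset.mem_map.1 hx'
      have h3 := Submodule.mem_map_of_mem (f := M.val.toLinearMap) (hx z hz)
      rw [Submodule.map_span] at h3
      exact h3)
    rw [dm_M, ← h1]
    have hle : gen ℂ (W0.map (ιO K Ω)) ≤ KO K Ω := by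
      unfold gen
      rw [IntermediateField.adjoin_le_iff]
      intro z hz
      obtain ⟨a, -, rfl⟩ := Multiset.mem_map.1 hz
      exact ⟨a, rfl⟩
    rw [← relfinrank_mul_relfinrank hle hM.le]
    refine Nat.mul_le_mul_right _ ?_
    have h4 : relfinrank (gen ℂ (W0.map (ιO K Ω))) (KO K Ω) = dm ℂ W0 := rel_dm (ιO K Ω) W0
    rw [h4]
    refine hC W0 ?_ h2
    have h5 := congrArg Multiset.card h1
    rw [Multiset.card_map, Multiset.card_map] at h5
    rw [h5, hW]

/-- a finitely generated space of functions in `Ω`, containing `1` and sufficiently many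
algebraically independent functions -/
structure OCl (Ω : Type) [Field Ω] [Algebra ℂ Ω] where
  V : Submodule ℂ Ω
  fg : V.FG
  one : (1 : Ω) ∈ V
  big : Algebra.IsAlgebraic (IntermediateField.adjoin ℂ (V : Set Ω)) Ω

/-- the space lies in `M` -/
def InM (M : IntermediateField ℂ Ω) (V : OCl Ω) : Prop := ∀ v ∈ V.V, v ∈ M

/-- the space `V` as a space of functions in `M` -/
noncomputable def toM (hy : NormalModel y) {i : Fin (N + 1)} (hi : y i ≠ 0)
    {M : IntermediateField ℂ Ω} (hM : Adm K M) (V : OCl Ω) (h : InM M V) :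
    Cls ℂ (SM y i M) where
  V := V.V.comap M.val.toLinearMap
  one := V.one
  big := by
    constructor
    intro z
    have h1 : M.val '' ((V.V.comap M.val.toLinearMap : Submodule ℂ M) : Set M) =
        (V.V : Set Ω) := by
      ext w
      constructor
      · rintro ⟨x, hx, rfl⟩
        exact hx
      · intro hw
        exact ⟨⟨w, h w hw⟩, hw, rfl⟩
    have h2 : IntermediateField.adjoin ℂ (V.V : Set Ω) =
        (IntermediateField.adjoin ℂ ((V.V.comap M.val.toLinearMap : Submodule ℂ M) :
          Set M)).map M.val := by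
      rw [IntermediateField.adjoin_map, h1]
    have h3 := V.big.isAlgebraic (z : Ω)
    rw [h2] at h3
    exact (isAlgebraic_ringHom_iff_of_comp_eq ((IntermediateField.adjoin ℂ
      ((V.V.comap M.val.toLinearMap : Submodule ℂ M) : Set M)).equivMap M.val).toRingEquiv
      M.val.toRingHom M.val.injective (by ext x; rfl)).1 h3
  dom := by
    have hess := hy.ess
    obtain ⟨μ, hμ⟩ := exists_isMin (k := ℂ) (S := SM y i M) (by
      rw [SM_eq hM.le]
      exact Set.finite_range _) ⟨1, by
      rw [SM_eq hM.le]
      refine ⟨i, ?_⟩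
      change emb hM.le (y i / y i) = 1
      rw [div_self hi, map_one], one_ne_zero⟩
    have h1 : (1 : M) ∈ SM y i M := by
      rw [SM_eq hM.le]
      refine ⟨i, ?_⟩
      change emb hM.le (y i / y i) = 1
      rw [div_self hi, map_one]
    obtain ⟨t, ht⟩ := V.fg
    obtain ⟨t', ht'⟩ : ∃ t' : Finset M, ∀ z : M, z ∈ t' ↔ (z : Ω) ∈ t := by
      refine ⟨t.preimage M.val M.val.injective.injOn, fun z => ?_⟩
      rw [Finset.mem_preimage]
      rfl
    obtain ⟨B, f, hf, hB⟩ := dom_fin hy hi hM hμ t'
    refine ⟨B, f, hf, fun v hv => bnd_of_ge hμ h1 fun P => ?_⟩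
    have h2 : V.V.comap M.val.toLinearMap = Submodule.span ℂ (t' : Set M) := by
      have e1 : (Submodule.span ℂ (t' : Set M)).map M.val.toLinearMap = V.V := by
        rw [Submodule.map_span, ← ht]
        congr 1
        ext w
        constructor
        · rintro ⟨x, hx, rfl⟩
          exact (ht' x).1 hx
        · intro hw
          have hwM : w ∈ M := h w (by
            rw [← ht]
            exact Submodule.subset_span hw)
          exact ⟨⟨w, hwM⟩, (ht' _).2 hw, rfl⟩
      rw [← e1]
      exact Submodule.comap_map_eq_of_injective (f := M.val.toLinearMap) M.val.injective _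
    have hv' : v ∈ Submodule.span ℂ (t' : Set M) := by
      rw [← h2]
      exact hv
    induction hv' using Submodule.span_induction with
    | mem x hx => exact hB x hx P
    | zero => rw [mul_zero]; exact Or.inl rfl
    | add x y hx hy h3 h4 =>
      rw [mul_add]
      exact (h3 (by rw [h2]; exact hx)).add (h4 (by rw [h2]; exact hy))
    | smul a x hx h3 =>
      have h4 := (Ge.const (P := P) a).mul (h3 (by rw [h2]; exact hx))
      rw [zero_add] at h4
      have e1 : f * a • x = algebraMap ℂ M a * (f * x) := by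
        rw [Algebra.smul_def]
        ring
      rw [e1]
      exact h4

end

end Pool.Agent.T2h12.OM
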