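import Pool.Agent.T2h12.OM.A
import Pool.Agent.T2h12.RDefs

/-!
Definitions: self-correspondences of a variety, given by automorphisms of an algebraic extension of
its function field, and the dynamical degrees of random products of correspondences.

Let `X` be a projective variety with function field `K`, and `Ω` an algebraic extension of `K` (for
instance an algebraic closure). An automorphism `g` of `Ω` over `ℂ`, which need not preserve `K`,
is a branch of an algebraic (multi-valued) self-map of `X`: of the irreducible correspondence whose
function field is the compositum of `K` and `g K`, with the inclusion of `K` as the pull back by the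
first projection and with `g` as the pull back by the second projection. If `Ω` is algebraically
closed then all irreducible correspondences which are generically finite over both factors are
obtained. The restriction of the product `g_1 ... g_l` to `K` is the branch of the composition which
follows first the branch `g_1`, then the branch `g_2`, and so on.
-/

set_option autoImplicit false

open FF IntermediateField Pool.Agent.W602.GT Pool.Agent.Y172 Pool.Agent.R887 Pool.Agent.N110

namespace Pool.Agent.T2h12.OM

section

variable (K : Type) {Ω : Type} [Field K] [Field Ω] [Algebra ℂ K] [Algebra ℂ Ω] [Algebra K Ω]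
  [IsScalarTower ℂ K Ω]

/-- The function field of the correspondence: the compositum of `K` and `g K` in `Ω`. -/
noncomputable def corrField (g : Ω ≃ₐ[ℂ] Ω) : IntermediateField ℂ Ω :=
  KO K Ω ⊔ (KO K Ω).map (g : Ω →ₐ[ℂ] Ω)

/-- The pull back of functions by the first projection of the correspondence. -/
noncomputable def pr₁ (g : Ω ≃ₐ[ℂ] Ω) : K →ₐ[ℂ] corrField K g :=
  AlgHom.codRestrict (ιO K Ω) (corrField K g).toSubalgebra fun a =>
    (le_sup_left : KO K Ω ≤ corrField K g) ⟨a, rfl⟩

/-- The pull back of functions by the second projection of the correspondence. -/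
noncomputable def pr₂ (g : Ω ≃ₐ[ℂ] Ω) : K →ₐ[ℂ] corrField K g :=
  AlgHom.codRestrict ((g : Ω →ₐ[ℂ] Ω).comp (ιO K Ω)) (corrField K g).toSubalgebra fun a =>
    (le_sup_right : (KO K Ω).map (g : Ω →ₐ[ℂ] Ω) ≤ corrField K g) ⟨ιO K Ω a, ⟨a, rfl⟩, rfl⟩

variable {K} {N : ℕ}

open scoped ENNReal in
/-- The normalised intersection number `(q^* H) ^ p · (p^* H) ^ (n - p) / deg p` on the
correspondence with the projections `p`, `q`, outside of the base loci: the greatest of the numbers
of points in the fibres of the maps `(q^* u, p^* v)`, for pencils of hyperplane sections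
`u 1, ..., u p` and `v 1, ..., v (n - p)`, divided by the degree of the first projection. It is the
contribution of one branch; the sum over all the branches is the degree of the correspondence. -/
noncomputable def corrDegree (g : Ω ≃ₐ[ℂ] Ω) (y : Fin (N + 1) → K) (n p : ℕ) : ℝ≥0∞ :=
  ⨆ (u : Fin p → K) (_ : ∀ a, IsPencil y (u a)) (v : Fin (n - p) → K) (_ : ∀ b, IsPencil y (v b)),
    (relfinrank (IntermediateField.adjoin ℂ ((Set.range fun a => g (ιO K Ω (u a))) ∪
      Set.range fun b => ιO K Ω (v b))) (corrField K g) : ℝ≥0∞) /
        (relfinrank (KO K Ω) (corrField K g) : ℝ≥0∞)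

/-- The branch of the composition of the `l` branches with the indices `v 0, ..., v (l - 1)`. -/
noncomputable def corrWord {d : ℕ} (g : Fin d → (Ω ≃ₐ[ℂ] Ω)) {l : ℕ} (v : Fin l → Fin d) :
    Ω ≃ₐ[ℂ] Ω :=
  (List.ofFn fun i => g (v i)).prod

/-- The mean of exponent `s ≥ 0` (the geometric mean if `s = 0`, the arithmetic mean if `s = 1`) of
the normalised degree of the composition of `l` branches, which are chosen independently at random;
the `i`-th branch is chosen with probability `w i`. -/
noncomputable def corrMean {d : ℕ} (g : Fin d → (Ω ≃ₐ[ℂ] Ω)) (w : Fin d → ℝ)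
    (y : Fin (N + 1) → K) (n : ℕ) (s : ℝ) (p l : ℕ) : ℝ :=
  if s = 0 then ∏ v : Fin l → Fin d,
    (corrDegree (corrWord g v) y n p).toReal ^ (∏ i, w (v i))
  else (∑ v : Fin l → Fin d, (∏ i, w (v i)) *
    (corrDegree (corrWord g v) y n p).toReal ^ s) ^ (1 / s)

open scoped ENNReal in
/-- The `p`-th dynamical degree of exponent `s` of the random products of the branches `g i`: the
upper limit, for `l → ∞`, of the `l`-th root of the mean of exponent `s` of the normalised degrees
of the compositions of `l` branches. For `s = 0` it is the exponential of the Lyapunov exponent of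
the degrees. If `g 1, ..., g d` are the `d` branches of a correspondence `Γ` (of degree `d` over the
first factor), `s = 1` and `w i = 1 / d`, it is the `p`-th dynamical degree of `Γ`, divided by `d`. -/
noncomputable def corrRandom {d : ℕ} (g : Fin d → (Ω ≃ₐ[ℂ] Ω)) (w : Fin d → ℝ)
    (y : Fin (N + 1) → K) (n : ℕ) (s : ℝ) (p : ℕ) : ℝ≥0∞ :=
  Filter.limsup (fun l : ℕ => ENNReal.ofReal (corrMean g w y n s p l) ^ (1 / (l : ℝ)))
    Filter.atTop

end

section

variable {K L : Type} [Field K] [Algebra ℂ K] [Field L] [Algebra ℂ L] {N : ℕ}

/-- Let `p` and `q` be the pull backs of functions by the two projections of a correspondence with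
the function field `L`. The pull back of `K_X + Δ` by the second projection is at most its pull back
by the first projection, along the divisors which are mapped onto prime divisors of `X` by the first
projection: if `P` is a prime divisor of `X`, `Q` a divisor of `L` over `P` for the first projection,
with ramification index `e`, and `P'` the image of `Q` by the second projection, a divisor over `X`,
with ramification index `e'`, then `e'` times the log discrepancy of `(X, Δ)` along `P'` is at least
`e` times the log discrepancy `1 - Δ P` of `(X, Δ)` along `P`. -/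
def CorrLe (y : Fin (N + 1) → K) (n : ℕ) (Δ : Place ℂ K → ℚ) (p q : K →ₐ[ℂ] L) : Prop :=
  ∀ P : Place ℂ K, IsPrimeDivisor y P → ∀ (Q : Place ℂ L) (e : ℕ), LiesOver p Q P e →
    ∀ (P' : Place ℂ K) (e' : ℕ), LiesOver q Q P' e' →
      ∃ α : ℚ, LogDisc y n Δ P' α ∧ e * (1 - Δ P) ≤ e' * α

/-- The generically finite map with the pull back `p` of functions is not ramified over the prime
divisors of `X` (for a smooth variety `X` this means that the finite map from the normalisation of
`X` in `L` to `X` is étale). -/
def Unram (y : Fin (N + 1) → K) (p : K →ₐ[ℂ] L) : Prop :=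
  ∀ P : Place ℂ K, IsPrimeDivisor y P → ∀ (Q : Place ℂ L) (e : ℕ), LiesOver p Q P e → e = 1

end

end Pool.Agent.T2h12.OM
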