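import Pool.Agent.T2h12.OM.D
import Pool.Agent.N110.Conv

/-!
The intersection numbers of spaces of functions in `Ω`.
-/

set_option autoImplicit false
set_option linter.overlappingInstances false
set_option linter.unusedSectionVars false

open FF Module IntermediateField Pool.Agent.N110 Pool.Agent.R887 Pool.Agent.Y172
open Pool.Agent.W602.GT Pool.Agent.W603.LV Pool.Agent.Y191

namespace Pool.Agent.T2h12.OM

section

variable {K Ω : Type} [Field K] [Field Ω] [Algebra ℂ K] [Algebra ℂ Ω] [Algebra K Ω]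
  [IsScalarTower ℂ K Ω] {N n : ℕ} {y : Fin (N + 1) → K}

/-- the multiset `W` of functions is chosen in the multiset `s` of spaces -/
def SelO (W : Multiset Ω) (s : Multiset (OCl Ω)) : Prop :=
  Multiset.Rel (fun x (V : OCl Ω) => x ∈ V.V) W s

theorem selO_cons {x : Ω} {V : OCl Ω} (hx : x ∈ V.V) {W : Multiset Ω} {s : Multiset (OCl Ω)}
    (h : SelO W s) : SelO (x ::ₘ W) (V ::ₘ s) := Multiset.Rel.cons hx h

theorem selO_cons_right {W : Multiset Ω} {V : OCl Ω} {s : Multiset (OCl Ω)}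
    (h : SelO W (V ::ₘ s)) : ∃ x W', x ∈ V.V ∧ SelO W' s ∧ W = x ::ₘ W' := by
  unfold SelO at h
  rw [Multiset.rel_cons_right] at h
  exact h

/-- the intersection number -/
noncomputable def tO (K : Type) {Ω : Type} [Field K] [Field Ω] [Algebra ℂ K] [Algebra ℂ Ω]
    [Algebra K Ω] [IsScalarTower ℂ K Ω] (s : Multiset (OCl Ω)) : ℝ :=
  sSup {d | ∃ W, SelO W s ∧ d = dO K W}

variable [Algebra.IsAlgebraic K Ω]

theorem exists_adm [Algebra.EssFiniteType ℂ K] (s : Multiset (OCl Ω)) (t : Finset Ω) :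
    ∃ M : IntermediateField ℂ Ω, Adm K M ∧ (∀ V ∈ s, InM M V) ∧ ∀ z ∈ t, z ∈ M := by
  have h1 : ∃ A : IntermediateField ℂ Ω, A.FG ∧ ∀ V ∈ s, InM A V := by
    induction s using Multiset.induction_on with
    | empty => exact ⟨⊥, fg_bot, by simp⟩
    | cons V s ih =>
      obtain ⟨A, hA, h⟩ := ih
      obtain ⟨t, ht⟩ := V.fg
      refine ⟨A ⊔ IntermediateField.adjoin ℂ (t : Set Ω), fg_sup hA (fg_adjoin_finset t), ?_⟩
      intro V' hV'
      rcases Multiset.mem_cons.1 hV' with rfl | hV'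
      · intro v hv
        refine (le_sup_right : _ ≤ A ⊔ IntermediateField.adjoin ℂ (t : Set Ω)) ?_
        rw [← ht] at hv
        have h3 : Submodule.span ℂ (t : Set Ω) ≤
            (IntermediateField.adjoin ℂ (t : Set Ω)).toSubalgebra.toSubmodule := by
          rw [Submodule.span_le]
          exact IntermediateField.subset_adjoin ℂ (t : Set Ω)
        exact h3 hv
      · intro v hv
        exact (le_sup_left : A ≤ _) (h V' hV' v hv)
  obtain ⟨A, hA, h⟩ := h1
  refine ⟨KO K Ω ⊔ (A ⊔ IntermediateField.adjoin ℂ (t : Set Ω)),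
    Adm.sup (fg_sup hA (fg_adjoin_finset t)), fun V hV v hv => ?_, fun z hz => ?_⟩
  · exact (le_sup_right : _ ≤ KO K Ω ⊔ _) ((le_sup_left : A ≤ _) (h V hV v hv))
  · exact (le_sup_right : _ ≤ KO K Ω ⊔ _) ((le_sup_right :
      IntermediateField.adjoin ℂ (t : Set Ω) ≤ A ⊔ _)
        (IntermediateField.subset_adjoin ℂ (t : Set Ω) hz))

/-- an algebraic element over a subfield -/
theorem KO_top (hy : NormalModel y) {i : Fin (N + 1)} (hi : y i ≠ 0) :
    Algebra.IsAlgebraic (IntermediateField.adjoin ℂ (ιO K Ω '' affS y i)) Ω := by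
  have h1 : IntermediateField.adjoin ℂ (ιO K Ω '' affS y i) = KO K Ω := by
    rw [← IntermediateField.adjoin_map]
    have h2 : IntermediateField.adjoin ℂ (affS y i) = ⊤ := hy.field i hi
    rw [h2]
    exact (AlgHom.fieldRange_eq_map (ιO K Ω)).symm
  rw [h1]
  exact KO_alg

/-- the space of the hyperplane sections -/
noncomputable def HO (Ω : Type) [Field Ω] [Algebra ℂ Ω] [Algebra K Ω] [IsScalarTower ℂ K Ω]
    [Algebra.IsAlgebraic K Ω] (hy : NormalModel y) {i : Fin (N + 1)} (hi : y i ≠ 0) : OCl Ω where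
  V := Submodule.span ℂ (ιO K Ω '' affS y i)
  fg := Submodule.fg_span ((fin_affS i).image _)
  one := Submodule.subset_span ⟨1, one_affS hi, map_one _⟩
  big := alg_mono (IntermediateField.adjoin.mono _ _ _ Submodule.subset_span) (KO_top hy hi)

theorem HO_in (hy : NormalModel y) {i : Fin (N + 1)} (hi : y i ≠ 0)
    {M : IntermediateField ℂ Ω} (hM : KO K Ω ≤ M) : InM M (HO Ω hy hi) := by
  intro v hv
  have h3 : Submodule.span ℂ (ιO K Ω '' affS y i) ≤ M.toSubalgebra.toSubmodule := by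
    rw [Submodule.span_le]
    rintro _ ⟨a, -, rfl⟩
    exact hM ⟨a, rfl⟩
  exact h3 hv

open Classical in
/-- the space `V` as a space of functions in `M`, if it lies in `M` -/
noncomputable def clM (hy : NormalModel y) {i : Fin (N + 1)} (hi : y i ≠ 0)
    {M : IntermediateField ℂ Ω} (hM : Adm K M) (V : OCl Ω) : Cls ℂ (SM y i M) :=
  if h : InM M V then toM hy hi hM V h else toM hy hi hM (HO Ω hy hi) (HO_in hy hi hM.le)

theorem clM_mem (hy : NormalModel y) {i : Fin (N + 1)} (hi : y i ≠ 0)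
    {M : IntermediateField ℂ Ω} (hM : Adm K M) {V : OCl Ω} (h : InM M V) (v : M) :
    v ∈ (clM hy hi hM V).V ↔ (v : Ω) ∈ V.V := by
  unfold clM
  rw [dif_pos h]
  rfl

theorem sel_up (hy : NormalModel y) {i : Fin (N + 1)} (hi : y i ≠ 0)
    {M : IntermediateField ℂ Ω} (hM : Adm K M) {s : Multiset (OCl Ω)} (h : ∀ V ∈ s, InM M V)
    {W : Multiset M} (hW : Sel W (s.map (clM hy hi hM))) : SelO (W.map M.val) s := by
  induction s using Multiset.induction_on generalizing W with
  | empty =>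
    have e1 : W = 0 := Multiset.card_eq_zero.1 (by rw [hW.card]; rfl)
    subst e1
    exact Multiset.Rel.zero
  | cons V s ih =>
    rw [Multiset.map_cons] at hW
    obtain ⟨x, W', hx, hW', rfl⟩ := sel_cons_right hW
    rw [Multiset.map_cons]
    refine selO_cons ?_ (ih (fun V' hV' => h V' (Multiset.mem_cons_of_mem hV')) hW')
    exact (clM_mem hy hi hM (h V (Multiset.mem_cons_self _ _)) x).1 hx

theorem sel_down (hy : NormalModel y) {i : Fin (N + 1)} (hi : y i ≠ 0)
    {M : IntermediateField ℂ Ω} (hM : Adm K M) {s : Multiset (OCl Ω)} (h : ∀ V ∈ s, InM M V)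
    {W : Multiset Ω} (hW : SelO W s) : ∃ W' : Multiset M, W'.map M.val = W ∧
      Sel W' (s.map (clM hy hi hM)) := by
  induction s using Multiset.induction_on generalizing W with
  | empty =>
    have e1 : W = 0 := Multiset.card_eq_zero.1 (by
      rw [Multiset.card_eq_card_of_rel hW]
      rfl)
    subst e1
    exact ⟨0, rfl, Multiset.Rel.zero⟩
  | cons V s ih =>
    obtain ⟨x, W', hx, hW', rfl⟩ := selO_cons_right hW
    obtain ⟨W'', h1, h2⟩ := ih (fun V' hV' => h V' (Multiset.mem_cons_of_mem hV')) hW'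
    have hxM := h V (Multiset.mem_cons_self _ _) x hx
    refine ⟨⟨x, hxM⟩ ::ₘ W'', ?_, ?_⟩
    · rw [Multiset.map_cons, h1]
      rfl
    · rw [Multiset.map_cons]
      exact sel_cons ((clM_mem hy hi hM (h V (Multiset.mem_cons_self _ _)) _).2 hx) h2

theorem dO_M [Algebra.EssFiniteType ℂ K] {M : IntermediateField ℂ Ω} (hM : Adm K M)
    (W : Multiset M) : dO K (W.map M.val) = (dm ℂ W : ℝ) / relfinrank (KO K Ω) M := by
  rw [dO_eq (W.map M.val) hM.le hM.fg ?_, ← dm_M]
  unfold gen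
  rw [IntermediateField.adjoin_le_iff]
  intro z hz
  obtain ⟨a, -, rfl⟩ := Multiset.mem_map.1 hz
  exact a.2

/-- **The intersection numbers in terms of a finite extension.** -/
theorem tO_eq (hy : NormalModel y) (hn : Algebra.trdeg ℂ K = n) {i : Fin (N + 1)}
    (hi : y i ≠ 0) {M : IntermediateField ℂ Ω} (hM : Adm K M) {s : Multiset (OCl Ω)}
    (hs : s.card = n) (h : ∀ V ∈ s, InM M V) :
    tO K s = (I (s.map (clM hy hi hM)) : ℝ) / relfinrank (KO K Ω) M := by
  have hess := hy.ess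
  have cx := ctx_M hy hn hi hM
  have hs' : (s.map (clM hy hi hM)).card = n := by rw [Multiset.card_map, hs]
  have hpos : (0 : ℝ) < relfinrank (KO K Ω) M := by exact_mod_cast KO_rel hM.le hM.fg
  obtain ⟨W, hW, hWI⟩ := exists_max cx hs'
  refine IsGreatest.csSup_eq ⟨⟨W.map M.val, sel_up hy hi hM h hW, ?_⟩, ?_⟩
  · rw [dO_M hM, hWI]
  · rintro d ⟨W', hW', rfl⟩
    obtain ⟨W'', rfl, hW''⟩ := sel_down hy hi hM h hW'
    rw [dO_M hM]
    have h1 : (dm ℂ W'' : ℝ) ≤ I (s.map (clM hy hi hM)) := by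
      exact_mod_cast le_I cx hs' hW''
    exact div_le_div_of_nonneg_right h1 hpos.le

end

end Pool.Agent.T2h12.OM
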