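import Pool.Agent.T2h12.OM.E
import Pool.Agent.N110.QAdd

/-!
The inequalities between the intersection numbers of spaces of functions in `Ω`.
-/

set_option autoImplicit false
set_option linter.overlappingInstances false
set_option linter.unusedSectionVars false

open FF Module IntermediateField Pool.Agent.N110 Pool.Agent.R887 Pool.Agent.Y172
open Pool.Agent.W602.GT Pool.Agent.W603.LV Pool.Agent.Y191

namespace Pool.Agent.T2h12.OM

section

variable {K Ω : Type} [Field K] [Field Ω] [Algebra ℂ K] [Algebra ℂ Ω] [Algebra K Ω]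
  [IsScalarTower ℂ K Ω] {N n : ℕ} {y : Fin (N + 1) → K} [Algebra.IsAlgebraic K Ω]

theorem tO_pos (hy : NormalModel y) (hn : Algebra.trdeg ℂ K = n) {s : Multiset (OCl Ω)}
    (hs : s.card = n) : 0 < tO K s := by
  have hess := hy.ess
  obtain ⟨i, hi⟩ := hy.ne
  obtain ⟨M, hM, hMs, -⟩ := exists_adm (K := K) s ∅
  rw [tO_eq hy hn hi hM hs hMs]
  have h1 := I_pos (ctx_M hy hn hi hM) (s := s.map (clM hy hi hM))
    (by rw [Multiset.card_map, hs])
  have h2 : (0 : ℝ) < relfinrank (KO K Ω) M := by exact_mod_cast KO_rel hM.le hM.fg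
  positivity

/-- comparison in a finite extension -/
theorem tO_le_of (hy : NormalModel y) (hn : Algebra.trdeg ℂ K = n) {i : Fin (N + 1)}
    (hi : y i ≠ 0) {V V' : OCl Ω} {p q : ℕ} (t : Finset Ω)
    (h : ∀ (M : IntermediateField ℂ Ω) (hM : Adm K M), InM M V → InM M V' → (∀ z ∈ t, z ∈ M) →
      ∀ s : Multiset (Cls ℂ (SM y i M)), s.card + 1 = n →
        p * I (clM hy hi hM V ::ₘ s) ≤ q * I (clM hy hi hM V' ::ₘ s))
    {s : Multiset (OCl Ω)} (hs : s.card + 1 = n) :
    (p : ℝ) * tO K (V ::ₘ s) ≤ q * tO K (V' ::ₘ s) := by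
  have hess := hy.ess
  obtain ⟨M, hM, hMs, hMt⟩ := exists_adm (K := K) (V ::ₘ V' ::ₘ s) t
  have hV : InM M V := hMs V (by simp)
  have hV' : InM M V' := hMs V' (by simp)
  have hs' : ∀ U ∈ s, InM M U := fun U hU => hMs U (by simp [hU])
  rw [tO_eq hy hn hi hM (s := V ::ₘ s) (by rw [Multiset.card_cons]; exact hs) (fun U hU => by
    rcases Multiset.mem_cons.1 hU with rfl | hU
    · exact hV
    · exact hs' U hU), tO_eq hy hn hi hM (s := V' ::ₘ s) (by rw [Multiset.card_cons]; exact hs)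
    (fun U hU => by
    rcases Multiset.mem_cons.1 hU with rfl | hU
    · exact hV'
    · exact hs' U hU), Multiset.map_cons, Multiset.map_cons]
  have h1 := h M hM hV hV' hMt (s.map (clM hy hi hM)) (by rw [Multiset.card_map]; exact hs)
  have h2 : (0 : ℝ) < relfinrank (KO K Ω) M := by exact_mod_cast KO_rel hM.le hM.fg
  rw [← mul_div_assoc, ← mul_div_assoc]
  refine div_le_div_of_nonneg_right ?_ h2.le
  exact_mod_cast h1

/-- comparison of spaces, up to a factor -/
theorem tO_mono (hy : NormalModel y) (hn : Algebra.trdeg ℂ K = n) {V V' : OCl Ω} {g : Ω}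
    (hg : g ≠ 0) (h : ∀ v ∈ V.V, g * v ∈ V'.V) {s : Multiset (OCl Ω)} (hs : s.card + 1 = n) :
    tO K (V ::ₘ s) ≤ tO K (V' ::ₘ s) := by
  obtain ⟨i, hi⟩ := hy.ne
  have h1 := tO_le_of (K := K) (p := 1) (q := 1) hy hn hi (V := V) (V' := V') {g}
    (fun M hM hV hV' hgM s hs => by
      rw [one_mul, one_mul]
      have hgM' : g ∈ M := hgM g (Finset.mem_singleton_self g)
      refine I_mono (ctx_M hy hn hi hM) (g := (⟨g, hgM'⟩ : M)) (fun h0 => hg (by
        have := congrArg (fun x : M => (x : Ω)) h0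
        exact this)) (fun v hv => ?_) hs
      rw [clM_mem hy hi hM hV] at hv
      rw [clM_mem hy hi hM hV']
      exact h _ hv) hs
  rwa [Nat.cast_one, one_mul, one_mul] at h1

/-- **Comparison by the orders.** -/
theorem tO_rat (hy : NormalModel y) (hn : Algebra.trdeg ℂ K = n) {V B : OCl Ω} {p q : ℕ}
    (hp : 1 ≤ p) {h : Ω} (hh : h ≠ 0) (t : Finset Ω)
    (hdom : ∀ (M : IntermediateField ℂ Ω), Adm K M → (∀ z ∈ t, z ∈ M) → ∀ h' : M,
      (h' : Ω) = h → ∀ v : M,
      (v : Ω) ∈ V.V → ∀ P : Place ℂ M, ∃ u : M, (u : Ω) ∈ B.V ∧ u ≠ 0 ∧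
        (q : ℤ) * P.ord u ≤ P.ord (h' * v ^ p))
    {s : Multiset (OCl Ω)} (hs : s.card + 1 = n) :
    (p : ℝ) * tO K (V ::ₘ s) ≤ q * tO K (B ::ₘ s) := by
  classical
  obtain ⟨i, hi⟩ := hy.ne
  refine tO_le_of hy hn hi (insert h t) (fun M hM hV hB hhM s hs => ?_) hs
  have hhM' : h ∈ M := hhM h (Finset.mem_insert_self h t)
  refine I_rat (ctx_M hy hn hi hM) hp (h := (⟨h, hhM'⟩ : M)) (fun h0 => hh (by
    have := congrArg (fun x : M => (x : Ω)) h0
    exact this)) (fun v hv P _ => ?_) hs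
  rw [clM_mem hy hi hM hV] at hv
  obtain ⟨u, hu, hu0, hle⟩ := hdom M hM (fun z hz => hhM z (Finset.mem_insert_of_mem hz))
    ⟨h, hhM'⟩ rfl v hv P
  exact ⟨u, (clM_mem hy hi hM hB u).2 hu, hu0, hle⟩

/-- powers -/
theorem tO_pow (hy : NormalModel y) (hn : Algebra.trdeg ℂ K = n) {V D : OCl Ω} {q : ℕ}
    (hq : 1 ≤ q) (h : ∀ v ∈ V.V, v ^ q ∈ D.V) {s : Multiset (OCl Ω)} (hs : s.card + 1 = n) :
    (q : ℝ) * tO K (V ::ₘ s) ≤ tO K (D ::ₘ s) := by
  obtain ⟨i, hi⟩ := hy.ne
  have h1 := tO_le_of (K := K) (p := q) (q := 1) hy hn hi (V := V) (V' := D) ∅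
    (fun M hM hV hD _ s hs => by
      rw [one_mul]
      refine I_pow (ctx_M hy hn hi hM) hq (fun v hv => ?_) hs
      rw [clM_mem hy hi hM hV] at hv
      rw [clM_mem hy hi hM hD]
      exact h _ hv) hs
  rwa [Nat.cast_one, one_mul] at h1

/-- products -/
theorem tO_add (hy : NormalModel y) (hn : Algebra.trdeg ℂ K = n) {D V V' : OCl Ω}
    (h : D.V ≤ V.V * V'.V) {s : Multiset (OCl Ω)} (hs : s.card + 1 = n) :
    tO K (D ::ₘ s) ≤ tO K (V ::ₘ s) + tO K (V' ::ₘ s) := by
  have hess := hy.ess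
  obtain ⟨i, hi⟩ := hy.ne
  obtain ⟨M, hM, hMs, -⟩ := exists_adm (K := K) (D ::ₘ V ::ₘ V' ::ₘ s) ∅
  have hD : InM M D := hMs D (by simp)
  have hV : InM M V := hMs V (by simp)
  have hV' : InM M V' := hMs V' (by simp)
  have hs' : ∀ U ∈ s, InM M U := fun U hU => hMs U (by simp [hU])
  have key : ∀ U, InM M U → tO K (U ::ₘ s) = (I (clM hy hi hM U ::ₘ s.map (clM hy hi hM)) : ℝ) /
      relfinrank (KO K Ω) M := by
    intro U hU
    rw [tO_eq hy hn hi hM (s := U ::ₘ s) (by rw [Multiset.card_cons]; exact hs) (fun U' hU' => by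
      rcases Multiset.mem_cons.1 hU' with rfl | hU'
      · exact hU
      · exact hs' U' hU'), Multiset.map_cons]
  rw [key D hD, key V hV, key V' hV', ← add_div]
  have h2 : (0 : ℝ) < relfinrank (KO K Ω) M := by exact_mod_cast KO_rel hM.le hM.fg
  refine div_le_div_of_nonneg_right ?_ h2.le
  have h3 := I_add (ctx_M hy hn hi hM) (D := clM hy hi hM D) (V := clM hy hi hM V)
    (V' := clM hy hi hM V') (s := s.map (clM hy hi hM)) (fun v hv => by
      rw [clM_mem hy hi hM hD] at hv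
      have h4 := h hv
      have e1 : ∀ U, InM M U → ((clM hy hi hM U).V).map M.val.toLinearMap = U.V := by
        intro U hU
        apply le_antisymm
        · rintro _ ⟨x, hx, rfl⟩
          exact (clM_mem hy hi hM hU x).1 hx
        · intro x hx
          exact ⟨⟨x, hU x hx⟩, (clM_mem hy hi hM hU _).2 hx, rfl⟩
      rw [← e1 V hV, ← e1 V' hV', ← Submodule.map_mul] at h4
      obtain ⟨x, hx, hxv⟩ := h4
      have e2 : x = v := Subtype.ext hxv
      rwa [← e2]) (by rw [Multiset.card_map]; exact hs)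
  exact_mod_cast h3

/-- the exchange inequality -/
theorem tO_exch (hy : NormalModel y) (hn : Algebra.trdeg ℂ K = n) :
    Exch n (fun s : Multiset (OCl Ω) => tO K s) := by
  have hess := hy.ess
  obtain ⟨i, hi⟩ := hy.ne
  intro R hR a b d e
  obtain ⟨M, hM, hMs, -⟩ := exists_adm (K := K) (a ::ₘ b ::ₘ d ::ₘ e ::ₘ R) ∅
  have ha : InM M a := hMs a (by simp)
  have hb : InM M b := hMs b (by simp)
  have hd : InM M d := hMs d (by simp)
  have he : InM M e := hMs e (by simp)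
  have hs' : ∀ U ∈ R, InM M U := fun U hU => hMs U (by simp [hU])
  have key : ∀ U U', InM M U → InM M U' → tO K (U ::ₘ U' ::ₘ R) =
      (I (clM hy hi hM U ::ₘ clM hy hi hM U' ::ₘ R.map (clM hy hi hM)) : ℝ) /
      relfinrank (KO K Ω) M := by
    intro U U' hU hU'
    rw [tO_eq hy hn hi hM (s := U ::ₘ U' ::ₘ R) (by
      simp only [Multiset.card_cons]
      omega) (fun U1 hU1 => by
      rcases Multiset.mem_cons.1 hU1 with rfl | hU1
      · exact hU
      rcases Multiset.mem_cons.1 hU1 with rfl | hU1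
      · exact hU'
      · exact hs' U1 hU1), Multiset.map_cons, Multiset.map_cons]
  have h2 : (0 : ℝ) < relfinrank (KO K Ω) M := by exact_mod_cast KO_rel hM.le hM.fg
  have h3 := exch (ctx_M hy hn hi hM) (R.map (clM hy hi hM)) (by
    rw [Multiset.card_map]; exact hR) (clM hy hi hM a) (clM hy hi hM b) (clM hy hi hM d)
    (clM hy hi hM e)
  beta_reduce
  beta_reduce at h3
  rw [key a b ha hb, key d e hd he, key a d ha hd, key b e hb he, key a e ha he, key b d hb hd]
  obtain ⟨c, hc⟩ : ∃ c : ℝ, c = relfinrank (KO K Ω) M := ⟨_, rfl⟩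
  rw [← hc] at h2 ⊢
  rw [div_mul_div_comm, div_mul_div_comm, div_mul_div_comm, ← add_div, ← mul_div_assoc]
  exact div_le_div_of_nonneg_right h3 (by positivity)

end

end Pool.Agent.T2h12.OM
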