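import Pool.Agent.T2h12.OM.F
import Pool.Agent.N110.Grow
import Mathlib.Algebra.Order.Positive.Field

/-!
The action of automorphisms on the spaces of functions in `Ω`, and multiples of spaces.
-/

set_option autoImplicit false
set_option linter.overlappingInstances false
set_option linter.unusedSectionVars false

open FF Module IntermediateField Pool.Agent.N110 Pool.Agent.R887 Pool.Agent.Y172
open Pool.Agent.W602.GT Pool.Agent.W603.LV Pool.Agent.Y191
open scoped Pointwise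

namespace Pool.Agent.T2h12.OM

section

variable {K Ω : Type} [Field K] [Field Ω] [Algebra ℂ K] [Algebra ℂ Ω] [Algebra K Ω]
  [IsScalarTower ℂ K Ω] {N n : ℕ} {y : Fin (N + 1) → K}

theorem OCl.ext' {A B : OCl Ω} (h : A.V = B.V) : A = B := by
  cases A
  cases B
  cases h
  rfl

/-- the image under an automorphism -/
noncomputable def actO (g : Ω ≃ₐ[ℂ] Ω) (A : OCl Ω) : OCl Ω where
  V := A.V.map (g : Ω →ₐ[ℂ] Ω).toLinearMap
  fg := A.fg.map _
  one := ⟨1, A.one, map_one g⟩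
  big := by
    have h1 : ((A.V.map (g : Ω →ₐ[ℂ] Ω).toLinearMap : Submodule ℂ Ω) : Set Ω) =
        (g : Ω →ₐ[ℂ] Ω) '' (A.V : Set Ω) := by
      ext z
      constructor
      · rintro ⟨w, hw, rfl⟩
        exact ⟨w, hw, rfl⟩
      · rintro ⟨w, hw, rfl⟩
        exact ⟨w, hw, rfl⟩
    rw [h1, ← IntermediateField.adjoin_map]
    exact map_alg A.big g

theorem mem_actO {g : Ω ≃ₐ[ℂ] Ω} {A : OCl Ω} {z : Ω} :
    z ∈ (actO g A).V ↔ ∃ v ∈ A.V, g v = z := Iff.rfl

theorem actO_mul (g h : Ω ≃ₐ[ℂ] Ω) (A : OCl Ω) : actO (g * h) A = actO g (actO h A) := by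
  refine OCl.ext' ?_
  ext z
  rw [mem_actO, mem_actO]
  constructor
  · rintro ⟨v, hv, rfl⟩
    exact ⟨h v, ⟨v, hv, rfl⟩, rfl⟩
  · rintro ⟨_, ⟨v, hv, rfl⟩, rfl⟩
    exact ⟨v, hv, rfl⟩

theorem actO_one (A : OCl Ω) : actO (1 : Ω ≃ₐ[ℂ] Ω) A = A := by
  refine OCl.ext' ?_
  ext z
  rw [mem_actO]
  constructor
  · rintro ⟨v, hv, rfl⟩
    exact hv
  · intro hz
    exact ⟨z, hz, rfl⟩

theorem selO_map (g : Ω ≃ₐ[ℂ] Ω) {W : Multiset Ω} {s : Multiset (OCl Ω)} (h : SelO W s) :
    SelO (W.map g) (s.map (actO g)) := by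
  induction s using Multiset.induction_on generalizing W with
  | empty =>
    have e1 : W = 0 := Multiset.card_eq_zero.1 (by
      rw [Multiset.card_eq_card_of_rel h]
      rfl)
    subst e1
    exact Multiset.Rel.zero
  | cons V s ih =>
    obtain ⟨x, W', hx, hW', rfl⟩ := selO_cons_right h
    rw [Multiset.map_cons, Multiset.map_cons]
    exact selO_cons (mem_actO.2 ⟨x, hx, rfl⟩) (ih hW')

theorem selO_map' (g : Ω ≃ₐ[ℂ] Ω) {W : Multiset Ω} {s : Multiset (OCl Ω)}
    (h : SelO W (s.map (actO g))) : ∃ W', SelO W' s ∧ W'.map g = W := by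
  induction s using Multiset.induction_on generalizing W with
  | empty =>
    have e1 : W = 0 := Multiset.card_eq_zero.1 (by
      rw [Multiset.card_eq_card_of_rel h]
      rfl)
    subst e1
    exact ⟨0, Multiset.Rel.zero, rfl⟩
  | cons V s ih =>
    rw [Multiset.map_cons] at h
    obtain ⟨_, W', ⟨v, hv, rfl⟩, hW', rfl⟩ := selO_cons_right h
    obtain ⟨W'', h1, rfl⟩ := ih hW'
    refine ⟨v ::ₘ W'', selO_cons hv h1, ?_⟩
    rw [Multiset.map_cons]
    rfl

/-- the product of two spaces -/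
def mulO (A B : OCl Ω) : OCl Ω where
  V := A.V * B.V
  fg := A.fg.mul B.fg
  one := by
    have := Submodule.mul_mem_mul A.one B.one
    rwa [mul_one] at this
  big := by
    refine alg_mono (IntermediateField.adjoin.mono _ _ _ ?_) A.big
    intro v hv
    have := Submodule.mul_mem_mul hv B.one
    rwa [mul_one] at this

/-- the power with exponent `k + 1` -/
def pwO (A : OCl Ω) : ℕ → OCl Ω
  | 0 => A
  | k + 1 => mulO (pwO A k) A

theorem pwO_mem {A : OCl Ω} {v : Ω} (hv : v ∈ A.V) : ∀ k : ℕ, v ^ (k + 1) ∈ (pwO A k).V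
  | 0 => by
    rw [zero_add, pow_one]
    exact hv
  | k + 1 => by
    rw [pow_succ]
    exact Submodule.mul_mem_mul (pwO_mem hv k) hv

theorem actO_mulO (g : Ω ≃ₐ[ℂ] Ω) (A B : OCl Ω) :
    actO g (mulO A B) = mulO (actO g A) (actO g B) :=
  OCl.ext' (Submodule.map_mul A.V B.V (g : Ω →ₐ[ℂ] Ω))

theorem actO_pwO (g : Ω ≃ₐ[ℂ] Ω) (A : OCl Ω) : ∀ k, actO g (pwO A k) = pwO (actO g A) k
  | 0 => rfl
  | k + 1 => by
    change actO g (mulO (pwO A k) A) = mulO (pwO (actO g A) k) (actO g A)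
    rw [actO_mulO, actO_pwO g A k]

variable [Algebra.IsAlgebraic K Ω]

/-- **The action on the intersection numbers.** -/
theorem tO_map [Algebra.EssFiniteType ℂ K] (g : Ω ≃ₐ[ℂ] Ω) (s : Multiset (OCl Ω)) :
    tO K (s.map (actO g)) = chi K g * tO K s := by
  unfold tO
  have h1 : {d | ∃ W, SelO W (s.map (actO g)) ∧ d = dO K W} =
      chi K g • {d | ∃ W, SelO W s ∧ d = dO K W} := by
    ext d
    rw [Set.mem_smul_set]
    constructor
    · rintro ⟨W, hW, rfl⟩
      obtain ⟨W', h2, rfl⟩ := selO_map' g hW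
      exact ⟨_, ⟨W', h2, rfl⟩, (dO_map g W').symm⟩
    · rintro ⟨_, ⟨W, hW, rfl⟩, rfl⟩
      exact ⟨W.map g, selO_map g hW, (dO_map g W).symm⟩
  rw [h1, Real.sSup_smul_of_nonneg (chi_pos g).le, smul_eq_mul]

theorem tO_pw_le (hy : NormalModel y) (hn : Algebra.trdeg ℂ K = n) (A : OCl Ω) (k : ℕ)
    {s : Multiset (OCl Ω)} (hs : s.card + 1 = n) :
    tO K (pwO A k ::ₘ s) ≤ (k + 1 : ℕ) * tO K (A ::ₘ s) := by
  induction k with
  | zero => rw [zero_add, Nat.cast_one, one_mul]; exact le_rfl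
  | succ k ih =>
    have h1 := tO_add (K := K) hy hn (D := pwO A (k + 1)) (V := pwO A k) (V' := A) le_rfl hs
    push_cast at ih ⊢
    linarith

theorem tO_pw_ge (hy : NormalModel y) (hn : Algebra.trdeg ℂ K = n) (A : OCl Ω) (k : ℕ)
    {s : Multiset (OCl Ω)} (hs : s.card + 1 = n) :
    (k + 1 : ℕ) * tO K (A ::ₘ s) ≤ tO K (pwO A k ::ₘ s) :=
  tO_pow hy hn (by omega) (fun v hv => pwO_mem hv k) hs

/-- positive rational numbers -/
abbrev PQ := {ρ : ℚ // 0 < ρ}

/-- multiples of spaces of functions -/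
abbrev SC (Ω : Type) [Field Ω] [Algebra ℂ Ω] := OCl Ω × PQ

/-- the factor -/
noncomputable def wt (z : SC Ω) : ℝ := ((z.2 : ℚ) : ℝ)

theorem wt_pos (z : SC Ω) : 0 < wt z := by
  unfold wt
  exact_mod_cast z.2.2

/-- the intersection numbers of multiples of spaces -/
noncomputable def tS (K : Type) {Ω : Type} [Field K] [Field Ω] [Algebra ℂ K] [Algebra ℂ Ω]
    [Algebra K Ω] [IsScalarTower ℂ K Ω] (s : Multiset (SC Ω)) : ℝ :=
  tO K (s.map Prod.fst) * (s.map wt).prod

theorem wt_prod_pos (s : Multiset (SC Ω)) : 0 < (s.map wt).prod := by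
  induction s using Multiset.induction_on with
  | empty => simp
  | cons z s ih =>
    rw [Multiset.map_cons, Multiset.prod_cons]
    exact mul_pos (wt_pos z) ih

theorem tS_cons (z : SC Ω) (s : Multiset (SC Ω)) :
    tS K (z ::ₘ s) = wt z * tO K (z.1 ::ₘ s.map Prod.fst) * (s.map wt).prod := by
  unfold tS
  rw [Multiset.map_cons, Multiset.map_cons, Multiset.prod_cons]
  ring

theorem tS_pos (hy : NormalModel y) (hn : Algebra.trdeg ℂ K = n) {s : Multiset (SC Ω)}
    (hs : s.card = n) : 0 < tS K s :=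
  mul_pos (tO_pos hy hn (by rw [Multiset.card_map, hs])) (wt_prod_pos s)

theorem tS_exch (hy : NormalModel y) (hn : Algebra.trdeg ℂ K = n) :
    Exch n (fun s : Multiset (SC Ω) => tS K s) := by
  intro R hR a b c d
  have h1 := tO_exch (K := K) hy hn (R.map Prod.fst) (by rw [Multiset.card_map, hR]) a.1 b.1
    c.1 d.1
  beta_reduce at h1 ⊢
  unfold tS
  simp only [Multiset.map_cons, Multiset.prod_cons]
  obtain ⟨w, hw⟩ : ∃ w, w = (R.map wt).prod := ⟨_, rfl⟩
  have hw0 : 0 < w := by rw [hw]; exact wt_prod_pos R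
  rw [← hw]
  have ha := wt_pos a
  have hb := wt_pos b
  have hc := wt_pos c
  have hd := wt_pos d
  have h2 := mul_le_mul_of_nonneg_left h1
    (show 0 ≤ wt a * wt b * wt c * wt d * w ^ 2 by positivity)
  refine le_trans (le_of_eq ?_) (h2.trans (le_of_eq ?_)) <;> ring

/-- comparison of multiples -/
theorem tS_le {z z' : SC Ω} {c : ℝ}
    (h : ∀ s : Multiset (OCl Ω), s.card + 1 = n →
      wt z * tO K (z.1 ::ₘ s) ≤ c * (wt z' * tO K (z'.1 ::ₘ s))) :
    Le n (fun s : Multiset (SC Ω) => tS K s) c z z' := by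
  intro s hs
  beta_reduce
  rw [tS_cons, tS_cons, ← mul_assoc]
  refine mul_le_mul_of_nonneg_right ?_ (wt_prod_pos s).le
  exact h _ (by rw [Multiset.card_map]; exact hs)

/-- the group which acts -/
abbrev GG (Ω : Type) [Field Ω] [Algebra ℂ Ω] := (Ω ≃ₐ[ℂ] Ω) × PQ

/-- the action: the automorphism and the division by the factor -/
noncomputable def act (x : GG Ω) (z : SC Ω) : SC Ω := (actO x.1 z.1, z.2 * x.2⁻¹)

theorem act_one (z : SC Ω) : act 1 z = z := by
  unfold act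
  rw [Prod.fst_one, Prod.snd_one, actO_one, inv_one, mul_one]

theorem act_mul (x x' : GG Ω) (z : SC Ω) : act (x * x') z = act x (act x' z) := by
  unfold act
  rw [Prod.fst_mul, Prod.snd_mul, actO_mul]
  refine Prod.ext rfl ?_
  change z.2 * (x.2 * x'.2)⁻¹ = z.2 * x'.2⁻¹ * x.2⁻¹
  rw [mul_inv_rev, mul_assoc]

theorem wt_act (x : GG Ω) (z : SC Ω) : wt (act x z) = wt z * ((x.2 : ℚ) : ℝ)⁻¹ := by
  unfold wt act
  have h1 : ((z.2 * x.2⁻¹ : PQ) : ℚ) = (z.2 : ℚ) * (x.2 : ℚ)⁻¹ := rfl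
  rw [h1]
  push_cast
  rfl

/-- the multiplier -/
noncomputable def chiS (K : Type) {Ω : Type} [Field K] [Field Ω] [Algebra ℂ K] [Algebra ℂ Ω]
    [Algebra K Ω] [IsScalarTower ℂ K Ω] (n : ℕ) (x : GG Ω) : ℝ :=
  chi K x.1 * (((x.2 : ℚ) : ℝ)⁻¹) ^ n

theorem chiS_pos [Algebra.EssFiniteType ℂ K] (x : GG Ω) : 0 < chiS K n x := by
  have h1 : (0 : ℝ) < ((x.2 : ℚ) : ℝ) := by exact_mod_cast x.2.2
  have h2 := chi_pos (K := K) x.1
  unfold chiS
  positivity

theorem tS_map [Algebra.EssFiniteType ℂ K] (x : GG Ω) {s : Multiset (SC Ω)} (hs : s.card = n) :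
    tS K (s.map (act x)) = chiS K n x * tS K s := by
  have h1 : (s.map (act x)).map Prod.fst = (s.map Prod.fst).map (actO x.1) := by
    rw [Multiset.map_map, Multiset.map_map]
    rfl
  have h2 : ∀ s : Multiset (SC Ω), ((s.map (act x)).map wt).prod =
      (s.map wt).prod * (((x.2 : ℚ) : ℝ)⁻¹) ^ s.card := by
    intro s
    induction s using Multiset.induction_on with
    | empty => simp
    | cons z s ih =>
      simp only [Multiset.map_cons, Multiset.prod_cons, Multiset.card_cons] at ih ⊢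
      rw [ih, wt_act, pow_succ]
      ring
  unfold tS chiS
  rw [h1, tO_map, h2, hs]
  ring

theorem le_act [Algebra.EssFiniteType ℂ K] (x : GG Ω) {z z' : SC Ω} {c : ℝ} (hc : 0 ≤ c)
    (h : Le n (fun s : Multiset (SC Ω) => tS K s) c z z') :
    Le n (fun s : Multiset (SC Ω) => tS K s) c (act x z) (act x z') := by
  intro s hs
  obtain ⟨s', hs'⟩ : ∃ s', s' = s.map (act x⁻¹) := ⟨_, rfl⟩
  have e1 : s = s'.map (act x) := by
    rw [hs', Multiset.map_map]
    have e2 : act x ∘ act x⁻¹ = (id : SC Ω → SC Ω) := by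
      funext z
      change act x (act x⁻¹ z) = z
      rw [← act_mul, mul_inv_cancel, act_one]
    rw [e2, Multiset.map_id]
  have hc' : s'.card + 1 = n := by rw [hs', Multiset.card_map]; exact hs
  beta_reduce
  rw [e1, ← Multiset.map_cons, ← Multiset.map_cons,
    tS_map (n := n) x (by rw [Multiset.card_cons]; exact hc'),
    tS_map (n := n) x (by rw [Multiset.card_cons]; exact hc')]
  have h1 := h s' hc'
  beta_reduce at h1
  have h2 := mul_le_mul_of_nonneg_left h1 (chiS_pos (K := K) (n := n) x).le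
  linarith

end

end Pool.Agent.T2h12.OM
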