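import Pool.Agent.T2h12.OM.G
import Pool.Agent.T2h12.SysC

/-!
The system for the words in a set of automorphisms of `Ω`.
-/

set_option autoImplicit false
set_option linter.overlappingInstances false
set_option linter.unusedSectionVars false

open Filter FF Module IntermediateField Pool.Agent.N110 Pool.Agent.R887 Pool.Agent.Y172
open Pool.Agent.W602.GT Pool.Agent.W603.LV Pool.Agent.Y191

namespace Pool.Agent.T2h12.OM

section

variable {K Ω : Type} [Field K] [Field Ω] [Algebra ℂ K] [Algebra ℂ Ω] [Algebra K Ω]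
  [IsScalarTower ℂ K Ω] {N n : ℕ} {y : Fin (N + 1) → K} [Algebra.IsAlgebraic K Ω]

/-- the inverse of a natural number -/
def invN (k : ℕ) (hk : 0 < k) : PQ := ⟨1 / k, by positivity⟩

/-- the sum of a multiple of a space and of `v` hyperplane sections -/
noncomputable def DO (hy : NormalModel y) {i : Fin (N + 1)} (hi : y i ≠ 0) (z : SC Ω) (v : ℕ) :
    SC Ω :=
  (mulO (pwO z.1 ((z.2 : ℚ).num.toNat - 1)) (pwO (HO Ω hy hi) ((z.2 : ℚ).den * v - 1)),
    invN (z.2 : ℚ).den (z.2 : ℚ).den_pos)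

theorem wt_eq (z : SC Ω) : 0 < (z.2 : ℚ).num.toNat ∧
    wt z = ((z.2 : ℚ).num.toNat : ℝ) / ((z.2 : ℚ).den : ℝ) := by
  have h1 : 0 < (z.2 : ℚ).num := Rat.num_pos.2 z.2.2
  have h2 : (((z.2 : ℚ).num.toNat : ℕ) : ℤ) = (z.2 : ℚ).num := Int.toNat_of_nonneg h1.le
  refine ⟨by omega, ?_⟩
  unfold wt
  have h3 : ((z.2 : ℚ) : ℝ) = ((z.2 : ℚ).num : ℝ) / ((z.2 : ℚ).den : ℝ) := by
    rw [Rat.cast_def]
  rw [h3, ← h2]
  push_cast
  rfl

theorem wt_inv (V : OCl Ω) (k : ℕ) (hk : 0 < k) : wt ((V, invN k hk) : SC Ω) = 1 / k := by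
  unfold wt invN
  push_cast
  rfl

theorem wt_one' (V : OCl Ω) : wt ((V, (1 : PQ)) : SC Ω) = 1 := by
  unfold wt
  change (((1 : ℚ)) : ℝ) = 1
  norm_num

/-- the invariance of the intersection numbers -/
theorem tS_act (hy : NormalModel y) (x : GG Ω) (z : SC Ω) {s : Multiset (SC Ω)}
    (hs : s.card + 1 = n) :
    tS K (act x z ::ₘ s) = chiS K n x * tS K (z ::ₘ s.map (act x⁻¹)) := by
  have hess := hy.ess
  rw [← tS_map (n := n) x (by rw [Multiset.card_cons, Multiset.card_map]; exact hs),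
    Multiset.map_cons, Multiset.map_map]
  have e2 : act x ∘ act x⁻¹ = (id : SC Ω → SC Ω) := by
    funext z
    change act x (act x⁻¹ z) = z
    rw [← act_mul, mul_inv_cancel, act_one]
  rw [e2, Multiset.map_id]

/-- the data for a system -/
structure BSys (hy : NormalModel y) {i : Fin (N + 1)} (hi : y i ≠ 0) {𝒜 : Type}
    (S : Set (GG Ω)) (n : ℕ) (m : ℕ → ℝ) (M : 𝒜 → ℕ → SC Ω) (ν : ℕ) (c ε C₁ : ℝ) : Prop where
  hn0 : 0 < n
  hν : ν ≤ n
  hc : 0 < c
  hε : 0 < ε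
  m_pos : ∀ q, 0 < m q
  m_tend : Tendsto m atTop atTop
  M_le : ∀ a, ∀ᶠ q in atTop, Le n (fun s : Multiset (SC Ω) => tS K s) (c * m q) (M a q)
    ((HO Ω hy hi, 1) : SC Ω)
  dir : ∀ a a', ∃ a'', ∀ q, Le n (fun s : Multiset (SC Ω) => tS K s) 1 (M a q) (M a'' q) ∧
    Le n (fun s : Multiset (SC Ω) => tS K s) 1 (M a' q) (M a'' q)
  pull : ∀ x ∈ S, ∀ a, ∃ a', ∀ q,
    Le n (fun s : Multiset (SC Ω) => tS K s) 1 (act x (M a q)) (M a' q)
  push : ∀ x ∈ S, ∀ a, ∃ a', ∀ q,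
    Le n (fun s : Multiset (SC Ω) => tS K s) 1 (act x⁻¹ (M a q)) (M a' q)
  eps : ∃ a, ∀ᶠ q in atTop, ε * m q ^ ν ≤ tS K (Multiset.replicate ν (M a q) +
    Multiset.replicate (n - ν) ((HO Ω hy hi, 1) : SC Ω))
  zero : ν + 1 ≤ n → ∀ a, ∀ δ : ℝ, 0 < δ → ∀ᶠ q in atTop,
    tS K (Multiset.replicate (ν + 1) (M a q) +
      Multiset.replicate (n - (ν + 1)) ((HO Ω hy hi, 1) : SC Ω)) ≤ δ * m q ^ (ν + 1)
  deg : ∀ x ∈ S, tS K (act x ((HO Ω hy hi, 1) : SC Ω) ::ₘ
    Multiset.replicate (n - 1) ((HO Ω hy hi, 1) : SC Ω)) ≤ C₁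

/-- the words -/
def WS (S : Set (GG Ω)) (l : ℕ) : Set (SC Ω → SC Ω) :=
  {F | ∃ w : List (GG Ω), w.length = l ∧ (∀ x ∈ w, x ∈ S) ∧ F = act w.prod}

theorem le_trans1 {α : Type*} {t : Multiset α → ℝ} {a b d : α} (h : Le n t 1 a b)
    (h' : Le n t 1 b d) : Le n t 1 a d := by
  have := h.trans zero_le_one h'
  rwa [one_mul] at this

/-- **The system.** -/
theorem BSys.sysC (hy : NormalModel y) (hn : Algebra.trdeg ℂ K = n) {i : Fin (N + 1)}
    (hi : y i ≠ 0) {𝒜 : Type} {S : Set (GG Ω)} {m : ℕ → ℝ} {M : 𝒜 → ℕ → SC Ω} {ν : ℕ}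
    {c ε C₁ : ℝ} (h : BSys (K := K) hy hi S n m M ν c ε C₁) :
    SysC n (fun s : Multiset (SC Ω) => tS K s) (WS S) ((HO Ω hy hi, 1) : SC Ω) m M (DO hy hi) ν
      c ε C₁ := by
  classical
  have hess := hy.ess
  have hLeW : ∀ {z z' : SC Ω} {c : ℝ}, 0 ≤ c →
      Le n (fun s : Multiset (SC Ω) => tS K s) c z z' →
      LeW n (fun s : Multiset (SC Ω) => tS K s) (WS S) c z z' := by
    rintro z z' c hc hz l F ⟨w, -, -, rfl⟩
    exact le_act w.prod hc hz
  have hpull : ∀ w : List (GG Ω), (∀ x ∈ w, x ∈ S) → ∀ a, ∃ a', ∀ q,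
      Le n (fun s : Multiset (SC Ω) => tS K s) 1 (act w.prod (M a q)) (M a' q) := by
    intro w
    induction w with
    | nil =>
      intro _ a
      refine ⟨a, fun q => ?_⟩
      rw [List.prod_nil, act_one]
      exact Le.refl _
    | cons x w ih =>
      intro hw a
      obtain ⟨a1, h1⟩ := ih (fun z hz => hw z (List.mem_cons_of_mem _ hz)) a
      obtain ⟨a2, h2⟩ := h.pull x (hw x List.mem_cons_self) a1
      refine ⟨a2, fun q => ?_⟩
      rw [List.prod_cons, act_mul]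
      exact le_trans1 (le_act x zero_le_one (h1 q)) (h2 q)
  have hpush : ∀ w : List (GG Ω), (∀ x ∈ w, x ∈ S) → ∀ a, ∃ a', ∀ q,
      Le n (fun s : Multiset (SC Ω) => tS K s) 1 (act (w.prod)⁻¹ (M a q)) (M a' q) := by
    intro w
    induction w with
    | nil =>
      intro _ a
      refine ⟨a, fun q => ?_⟩
      rw [List.prod_nil, inv_one, act_one]
      exact Le.refl _
    | cons x w ih =>
      intro hw a
      obtain ⟨a1, h1⟩ := h.push x (hw x List.mem_cons_self) a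
      obtain ⟨a2, h2⟩ := ih (fun z hz => hw z (List.mem_cons_of_mem _ hz)) a1
      refine ⟨a2, fun q => ?_⟩
      rw [List.prod_cons, mul_inv_rev, act_mul]
      exact le_trans1 (le_act _ zero_le_one (h1 q)) (h2 q)
  refine ⟨fun s hs => tS_pos hy hn hs, tS_exch hy hn, h.hn0, h.hν, h.hc, h.hε, ?_, ?_, ?_, ?_,
    ?_, ?_, h.m_pos, h.m_tend, ?_, ?_, ?_, ?_, ?_, ?_, h.zero⟩
  · -- one
    refine ⟨[], rfl, by simp, ?_⟩
    funext z
    rw [List.prod_nil, act_one]
    rfl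
  · -- zero_id
    rintro F ⟨w, hw, -, rfl⟩
    rw [List.length_eq_zero_iff] at hw
    subst hw
    funext z
    rw [List.prod_nil, act_one]
    rfl
  · -- split
    rintro l k F ⟨w, hw, hwS, rfl⟩
    refine ⟨act (w.take l).prod, ⟨w.take l, by rw [List.length_take]; omega,
      fun φ hφ => hwS φ (List.mem_of_mem_take hφ), rfl⟩,
      act (w.drop l).prod, ⟨w.drop l, by rw [List.length_drop]; omega,
      fun φ hφ => hwS φ (List.mem_of_mem_drop hφ), rfl⟩, ?_⟩
    funext z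
    change _ = act _ (act _ z)
    rw [← act_mul, ← List.prod_append, List.take_append_drop]
  · -- comp
    rintro l k F ⟨w, hw, hwS, rfl⟩ G ⟨w', hw', hwS', rfl⟩
    refine ⟨w ++ w', by rw [List.length_append, hw, hw'], fun φ hφ => ?_, ?_⟩
    · rcases List.mem_append.1 hφ with h | h
      · exact hwS φ h
      · exact hwS' φ h
    · funext z
      rw [List.prod_append, act_mul]
      rfl
  · -- deg
    rintro l F ⟨w, -, -, rfl⟩
    exact ⟨chiS K n w.prod, chiS_pos _, fun s hs => tS_map w.prod hs⟩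
  · -- H_deg
    rintro F ⟨w, hw, hwS, rfl⟩
    obtain ⟨x, rfl⟩ := List.length_eq_one_iff.1 hw
    rw [List.prod_singleton]
    exact h.deg x (hwS x (by simp))
  · -- M_f
    rintro k G ⟨w, -, hwS, rfl⟩ a
    obtain ⟨a', ha'⟩ := hpull w hwS a
    exact ⟨a', fun q => hLeW zero_le_one (ha' q)⟩
  · -- M_le
    intro a
    filter_upwards [h.M_le a] with q hq
    exact hLeW (mul_pos h.hc (h.m_pos q)).le hq
  · -- D_add
    rintro z v hv l F ⟨w, -, -, rfl⟩ s hs
    beta_reduce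
    rw [tS_act hy _ _ hs, tS_act hy _ _ hs, tS_act hy _ _ hs]
    obtain ⟨s', hs'⟩ : ∃ s' : Multiset (SC Ω), s' = s.map (act (w.prod)⁻¹) := ⟨_, rfl⟩
    have hsc : s'.card + 1 = n := by rw [hs', Multiset.card_map]; exact hs
    rw [← hs']
    have hχ := chiS_pos (K := K) (n := n) w.prod
    have key : tS K (DO hy hi z v ::ₘ s') ≤ tS K (z ::ₘ s') +
        v * tS K (((HO Ω hy hi, 1) : SC Ω) ::ₘ s') := by
      rw [tS_cons, tS_cons, tS_cons]
      have hw := wt_prod_pos s'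
      obtain ⟨hnum, hwt⟩ := wt_eq z
      have hden : 0 < (z.2 : ℚ).den := (z.2 : ℚ).den_pos
      obtain ⟨a, ha⟩ : ∃ a, a = (z.2 : ℚ).num.toNat := ⟨_, rfl⟩
      obtain ⟨b, hb⟩ : ∃ b, b = (z.2 : ℚ).den := ⟨_, rfl⟩
      have hsc' : (s'.map Prod.fst).card + 1 = n := by rw [Multiset.card_map]; exact hsc
      have e1 : wt (DO hy hi z v) = 1 / b := by
        rw [hb]
        exact wt_inv _ _ _
      have e2 := wt_one' (HO Ω hy hi)
      have hbv : 0 < b * v := by rw [hb]; exact Nat.mul_pos hden hv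
      have i1 := tO_add (K := K) hy hn (D := (DO hy hi z v).1) (V := pwO z.1 (a - 1))
        (V' := pwO (HO Ω hy hi) (b * v - 1)) (by rw [ha, hb]; exact le_rfl) hsc'
      have i2 := tO_pw_le (K := K) hy hn z.1 (a - 1) hsc'
      have i3 := tO_pw_le (K := K) hy hn (HO Ω hy hi) (b * v - 1) hsc'
      rw [← ha] at hnum hwt
      rw [← hb] at hden hwt
      rw [show a - 1 + 1 = a by omega] at i2
      rw [show b * v - 1 + 1 = b * v by omega] at i3
      rw [e1, e2, hwt]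
      have hb0 : (0 : ℝ) < b := by exact_mod_cast hden
      have i4 : tO K ((DO hy hi z v).1 ::ₘ s'.map Prod.fst) ≤
          a * tO K (z.1 ::ₘ s'.map Prod.fst) +
            (b * v : ℕ) * tO K (HO Ω hy hi ::ₘ s'.map Prod.fst) := by linarith
      have i5 : 1 / (b : ℝ) * tO K ((DO hy hi z v).1 ::ₘ s'.map Prod.fst) ≤
          (a / b : ℝ) * tO K (z.1 ::ₘ s'.map Prod.fst) +
            v * (1 * tO K (HO Ω hy hi ::ₘ s'.map Prod.fst)) := by
        have i6 := mul_le_mul_of_nonneg_left i4 (show 0 ≤ 1 / (b : ℝ) by positivity)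
        refine i6.trans (le_of_eq ?_)
        push_cast
        field_simp
      have i7 := mul_le_mul_of_nonneg_right i5 hw.le
      refine i7.trans (le_of_eq ?_)
      ring
    have h2 := mul_le_mul_of_nonneg_left key hχ.le
    refine h2.trans (le_of_eq ?_)
    ring
  · -- D_M
    intro z v hv
    refine tS_le fun s hs => ?_
    obtain ⟨hnum, hwt⟩ := wt_eq z
    have e1 : wt (DO hy hi z v) = 1 / (z.2 : ℚ).den := wt_inv _ _ _
    have i1 := tO_pow (K := K) hy hn (V := z.1) (D := (DO hy hi z v).1)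
      (q := (z.2 : ℚ).num.toNat) hnum (fun w hw => by
        have j1 := pwO_mem hw ((z.2 : ℚ).num.toNat - 1)
        rw [show (z.2 : ℚ).num.toNat - 1 + 1 = (z.2 : ℚ).num.toNat by omega] at j1
        have j2 := Submodule.mul_mem_mul j1
          (pwO (HO Ω hy hi) ((z.2 : ℚ).den * v - 1)).one
        rwa [mul_one] at j2) hs
    rw [one_mul, e1, hwt, div_mul_eq_mul_div, div_mul_eq_mul_div, one_mul]
    exact div_le_div_of_nonneg_right i1 (Nat.cast_nonneg _)
  · -- D_H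
    intro z v hv s hs
    beta_reduce
    rw [tS_cons, tS_cons, ← mul_assoc]
    refine mul_le_mul_of_nonneg_right ?_ (wt_prod_pos s).le
    have hden : 0 < (z.2 : ℚ).den := (z.2 : ℚ).den_pos
    have e1 : wt (DO hy hi z v) = 1 / (z.2 : ℚ).den := wt_inv _ _ _
    have hbv : 0 < (z.2 : ℚ).den * v := Nat.mul_pos hden hv
    have i1 := tO_pow (K := K) hy hn (V := HO Ω hy hi) (D := (DO hy hi z v).1)
      (q := (z.2 : ℚ).den * v) hbv (fun w hw => by
        have j1 := pwO_mem hw ((z.2 : ℚ).den * v - 1)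
        rw [show (z.2 : ℚ).den * v - 1 + 1 = (z.2 : ℚ).den * v by omega] at j1
        have j2 := Submodule.mul_mem_mul (pwO z.1 ((z.2 : ℚ).num.toNat - 1)).one j1
        rwa [one_mul] at j2) (s := s.map Prod.fst) (by rw [Multiset.card_map]; exact hs)
    rw [wt_one', e1]
    have hb0 : (0 : ℝ) < (z.2 : ℚ).den := by exact_mod_cast hden
    have i2 := mul_le_mul_of_nonneg_left i1 (show 0 ≤ 1 / ((z.2 : ℚ).den : ℝ) by positivity)
    refine le_trans (le_of_eq ?_) i2
    push_cast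
    field_simp
  · -- eps
    rintro l F ⟨w, -, hwS, rfl⟩ a
    obtain ⟨a0, ha0⟩ := h.eps
    obtain ⟨a1, ha1⟩ := hpush w hwS a0
    obtain ⟨a', ha'⟩ := h.dir a a1
    refine ⟨a', fun q => hLeW zero_le_one (ha' q).1, ?_⟩
    filter_upwards [ha0] with q hq
    have h1 : Le n (fun s : Multiset (SC Ω) => tS K s) 1 (M a0 q) (act w.prod (M a' q)) := by
      have h2 := le_act (K := K) w.prod zero_le_one (le_trans1 (ha1 q) (ha' q).2)
      rwa [← act_mul, mul_inv_cancel, act_one] at h2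
    have h2 := h1.rep zero_le_one ν (Multiset.replicate (n - ν) ((HO Ω hy hi, 1) : SC Ω))
      (by have := h.hν; rw [Multiset.card_replicate]; omega)
    rw [one_pow, one_mul] at h2
    exact hq.trans h2

end

end Pool.Agent.T2h12.OM
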