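import Pool.Agent.T2h12.OM.H
import Pool.Agent.T2h12.BaseA
import Pool.Agent.T2h12.Fin
import Pool.Agent.T2h12.NefL

/-!
Spaces of sections of multiples of a divisor, as spaces of functions in `Ω`.
-/

set_option autoImplicit false
set_option linter.overlappingInstances false
set_option linter.unusedSectionVars false

open Filter FF Module IntermediateField Pool.Agent.N110 Pool.Agent.R887 Pool.Agent.Y172
open Pool.Agent.W602.GT Pool.Agent.W603.LV Pool.Agent.Y191
open Pool.Agent.T2H06.DYL (IsDivisor IsSec NumLt)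

namespace Pool.Agent.T2h12.OM

section

variable {K Ω : Type} [Field K] [Field Ω] [Algebra ℂ K] [Algebra ℂ Ω] [Algebra K Ω]
  [IsScalarTower ℂ K Ω] {N n : ℕ} {y : Fin (N + 1) → K} [Algebra.IsAlgebraic K Ω]

theorem selO_card {W : Multiset Ω} {s : Multiset (OCl Ω)} (h : SelO W s) : W.card = s.card :=
  Multiset.card_eq_card_of_rel h

theorem selO_add {W W' : Multiset Ω} {s s' : Multiset (OCl Ω)} (h : SelO W s) (h' : SelO W' s') :
    SelO (W + W') (s + s') := Multiset.Rel.add h h'

theorem selO_rep {k : ℕ} {V : OCl Ω} {W : Multiset Ω} :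
    SelO W (Multiset.replicate k V) ↔ W.card = k ∧ ∀ x ∈ W, x ∈ V.V := by
  constructor
  · intro h
    refine ⟨by rw [selO_card h, Multiset.card_replicate], ?_⟩
    induction k generalizing W with
    | zero =>
      have e1 : W = 0 := Multiset.card_eq_zero.1 (by rw [selO_card h, Multiset.card_replicate])
      subst e1
      simp
    | succ k ih =>
      rw [Multiset.replicate_succ] at h
      obtain ⟨x, W', hx, hW', rfl⟩ := selO_cons_right h
      intro z hz
      rcases Multiset.mem_cons.1 hz with rfl | hz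
      · exact hx
      · exact ih hW' z hz
  · rintro ⟨h1, h2⟩
    induction k generalizing W with
    | zero =>
      have e1 : W = 0 := Multiset.card_eq_zero.1 h1
      subst e1
      exact Multiset.Rel.zero
    | succ k ih =>
      obtain ⟨x, hx⟩ := Multiset.card_pos_iff_exists_mem.1 (by omega : 0 < W.card)
      obtain ⟨W', rfl⟩ := Multiset.exists_cons_of_mem hx
      rw [Multiset.card_cons] at h1
      rw [Multiset.replicate_succ]
      exact selO_cons (h2 x hx) (ih (by omega) fun z hz => h2 z (Multiset.mem_cons_of_mem hz))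

/-- the degrees are bounded by the intersection numbers -/
theorem le_tO (hy : NormalModel y) (hn : Algebra.trdeg ℂ K = n) {s : Multiset (OCl Ω)}
    (hs : s.card = n) {W : Multiset Ω} (hW : SelO W s) : dO K W ≤ tO K s := by
  have hess := hy.ess
  obtain ⟨i, hi⟩ := hy.ne
  obtain ⟨M, hM, hMs, -⟩ := exists_adm (K := K) s ∅
  rw [tO_eq hy hn hi hM hs hMs]
  obtain ⟨W', rfl, hW'⟩ := sel_down hy hi hM hMs hW
  rw [dO_M hM]
  have h1 : (dm ℂ W' : ℝ) ≤ I (s.map (clM hy hi hM)) := by
    exact_mod_cast le_I (ctx_M hy hn hi hM) (by rw [Multiset.card_map, hs]) hW'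
  exact div_le_div_of_nonneg_right h1 (Nat.cast_nonneg _)

theorem tO_le (s : Multiset (OCl Ω)) {C : ℝ} (h : ∀ W, SelO W s → dO K W ≤ C) : tO K s ≤ C := by
  have h1 : ∃ W, SelO W s := by
    induction s using Multiset.induction_on with
    | empty => exact ⟨0, Multiset.Rel.zero⟩
    | cons V s ih =>
      have h2 : ∀ s : Multiset (OCl Ω), ∃ W, SelO W s := by
        intro s
        induction s using Multiset.induction_on with
        | empty => exact ⟨0, Multiset.Rel.zero⟩
        | cons V s ih =>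
          obtain ⟨W, hW⟩ := ih
          exact ⟨1 ::ₘ W, selO_cons V.one hW⟩
      exact h2 _
  obtain ⟨W, hW⟩ := h1
  refine csSup_le ⟨_, W, hW, rfl⟩ ?_
  rintro d ⟨W', hW', rfl⟩
  exact h W' hW'

/-- the degree over a field generated by functions in `K` -/
theorem dO_K [Algebra.EssFiniteType ℂ K] (W : Multiset K) :
    dO K (W.map (ιO K Ω)) = (dm ℂ W : ℝ) := by
  have hle : gen ℂ (W.map (ιO K Ω)) ≤ KO K Ω := by
    unfold gen
    rw [IntermediateField.adjoin_le_iff]
    intro z hz
    obtain ⟨a, -, rfl⟩ := Multiset.mem_map.1 hz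
    exact ⟨a, rfl⟩
  have h4 : relfinrank (gen ℂ (W.map (ιO K Ω))) (KO K Ω) = dm ℂ W := rel_dm (ιO K Ω) W
  rw [dO_eq _ le_rfl KO_fg hle, h4, relfinrank_self, Nat.cast_one, div_one]

/-- a space of functions in `K` -/
noncomputable def inclO (hy : NormalModel y) {i : Fin (N + 1)} (hi : y i ≠ 0)
    (V : Submodule ℂ K) (hV : V.FG) (h : ∀ l, y l / y i ∈ V) : OCl Ω where
  V := V.map (ιO K Ω).toLinearMap
  fg := hV.map _
  one := ⟨1, by have := h i; rwa [div_self hi] at this, map_one (ιO K Ω)⟩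
  big := by
    refine alg_mono (IntermediateField.adjoin.mono _ _ _ ?_) (KO_top hy hi)
    rintro _ ⟨_, ⟨l, rfl⟩, rfl⟩
    exact ⟨_, h l, rfl⟩

theorem mem_inclO {hy : NormalModel y} {i : Fin (N + 1)} {hi : y i ≠ 0}
    {V : Submodule ℂ K} {hV : V.FG} {h : ∀ l, y l / y i ∈ V} {z : Ω} :
    z ∈ (inclO (Ω := Ω) hy hi V hV h).V ↔ ∃ v ∈ V, ιO K Ω v = z := Iff.rfl

/-- the quotients of the elements of `L` by `g` -/
def quo (g : K) (L : Submodule ℂ K) : Submodule ℂ K := L.comap (LinearMap.mulLeft ℂ g)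

theorem mem_quo {g : K} {L : Submodule ℂ K} {v : K} : v ∈ quo g L ↔ g * v ∈ L := Iff.rfl

theorem fg_quo {g : K} (hg : g ≠ 0) {L : Submodule ℂ K} (hL : Module.Finite ℂ L) :
    (quo g L).FG := by
  have h1 : Function.Injective (LinearMap.mulLeft ℂ g) := fun a b hab => by
    exact mul_left_cancel₀ hg hab
  have h2 : Module.Finite ℂ ((quo g L).map (LinearMap.mulLeft ℂ g)) := by
    have h3 : (quo g L).map (LinearMap.mulLeft ℂ g) ≤ L := Submodule.map_comap_le _ _
    exact Module.Finite.of_injective (Submodule.inclusion h3) (Submodule.inclusion_injective h3)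
  have h3 : Module.Finite ℂ (quo g L) :=
    Module.Finite.of_injective ((Submodule.equivMapOfInjective _ h1 (quo g L)).toLinearMap)
      (Submodule.equivMapOfInjective _ h1 (quo g L)).injective
  exact Module.Finite.iff_fg.1 h3

theorem fin_L0 (hy : NormalModel y) (hn : Algebra.trdeg ℂ K = n) {D : Place ℂ K → ℚ}
    (hD : IsDivisor y D) (k : ℕ) : Module.Finite ℂ (Lsp y 0 k D) := by
  have hess := hy.ess
  obtain ⟨x, E, hx, hE⟩ := exists_crd hn (k := ℂ) (K := K)
  obtain ⟨c, hcfin, hc⟩ := exists_ordc hy hn hx hE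
  have hΔ : Effective y (fun P => |D P| + |(c P : ℚ)|) := by
    refine ⟨fun P _ => by positivity, (hcfin.union hD).subset ?_⟩
    rintro P ⟨hP, h0⟩
    by_cases h1 : c P = 0
    · right
      refine ⟨hP, fun h2 => h0 ?_⟩
      simp only []
      rw [h1, h2, Int.cast_zero, abs_zero, add_zero]
    · exact Or.inl ⟨hP, h1⟩
  have h1 := fin_Lsp hy hn hΔ hE hc (m := 1) le_rfl
  have h2 : Lsp y 0 k D ≤ Lsp y c 1 (1 • fun P => |D P| + |(c P : ℚ)|) := by
    intro g hg P hP
    refine (hg P hP).imp_right fun h3 => ?_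
    rw [Pi.zero_apply, Int.cast_zero, mul_zero, zero_add] at h3
    rw [one_smul]
    have h4 := le_abs_self (D P)
    have h5 := neg_abs_le (c P : ℚ)
    push_cast
    linarith
  exact Module.Finite.of_injective (Submodule.inclusion h2) (Submodule.inclusion_injective h2)

theorem fg_of_quo (hy : NormalModel y) (hn : Algebra.trdeg ℂ K = n) {D : Place ℂ K → ℚ}
    (hD : IsDivisor y D) {k : ℕ} {g : K} (hg : g ≠ 0) : (quo g (Lsp y 0 k D)).FG :=
  fg_quo hg (fin_L0 hy hn hD k)

theorem isDivisor_comb {D A : Place ℂ K → ℚ} (hD : IsDivisor y D) (hA : Effective y A)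
    (m b : ℕ) : IsDivisor y (m • D + b • A) := by
  refine (hD.union hA.2).subset ?_
  rintro P ⟨hP, h0⟩
  by_cases h1 : D P = 0
  · right
    refine ⟨hP, fun h2 => h0 ?_⟩
    rw [Pi.add_apply, Pi.smul_apply, Pi.smul_apply, h1, h2]
    simp
  · exact Or.inl ⟨hP, h1⟩

/-- bounds in a finite extension -/
theorem bnd_up [Algebra.EssFiniteType ℂ K] (hn : Algebra.trdeg ℂ K = n) {S : Set K} {B : ℕ}
    {f : K} (h : Bnd ℂ S B f)
    {M : IntermediateField ℂ Ω} (hM : Adm K M) (P : Place ℂ M) :
    ∃ s ∈ S, s ≠ 0 ∧ (B : ℤ) * P.ord (emb hM.le s) ≤ P.ord (emb hM.le f) := by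
  let _ : Algebra K M := (emb hM.le).toRingHom.toAlgebra
  have : IsScalarTower ℂ K M :=
    IsScalarTower.of_algebraMap_eq fun c => ((emb hM.le).commutes c).symm
  have := ess_M hM
  have hfd : FiniteDimensional K M := finite_map hn (trdeg_M hn hM)
  have hov := over_bel K P
  obtain ⟨s, hs, hs0, hle⟩ := h (bel K P)
  refine ⟨s, hs, hs0, ?_⟩
  have e1 : ∀ f : K, P.ord (emb hM.le f) = ram K P * (bel K P).ord f := hov.2
  rw [e1, e1]
  have h1 := mul_le_mul_of_nonneg_left hle (Int.natCast_nonneg (ram K P))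
  linarith

end

end Pool.Agent.T2h12.OM
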