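import Pool.Agent.T2h12.OM.I

/-!
The system of spaces of sections of multiples of a divisor which is preserved by a set of
automorphisms of `Ω`.
-/

set_option autoImplicit false
set_option linter.overlappingInstances false
set_option linter.unusedSectionVars false

open Filter FF Module IntermediateField Pool.Agent.N110 Pool.Agent.R887 Pool.Agent.Y172
open Pool.Agent.W602.GT Pool.Agent.W603.LV Pool.Agent.Y191
open Pool.Agent.T2H06.DYL (IsDivisor IsSec NumLt)

namespace Pool.Agent.T2h12.OM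

section

variable {K Ω : Type} [Field K] [Field Ω] [Algebra ℂ K] [Algebra ℂ Ω] [Algebra K Ω]
  [IsScalarTower ℂ K Ω] {N n : ℕ} {y : Fin (N + 1) → K} [Algebra.IsAlgebraic K Ω]

/-- the comparison of the sections of `m D` with their images under the automorphism `x.1`,
divided by the factor `x.2` -/
def OPull (y : Fin (N + 1) → K) (D : Place ℂ K → ℚ) (x : GG Ω) : Prop :=
  ∀ A, Effective y A → ∃ A', Effective y A' ∧ ∀ k : ℕ, 1 ≤ k → ∃ (R : ℕ) (t : Finset Ω), 1 ≤ R ∧
    ∀ m b : ℕ, 1 ≤ m → m ≤ k * b → ∃ h : Ω, h ≠ 0 ∧ ∀ v ∈ Lsp y 0 m (m • D + b • A), v ≠ 0 →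
      ∀ (M : IntermediateField ℂ Ω) (hM : Adm K M), (∀ z ∈ t, z ∈ M) → ∀ h' : M,
        (h' : Ω) = h → ∀ z : M, (z : Ω) = x.1 (ιO K Ω v) → ∀ P : Place ℂ M,
          ∃ u : K, u ≠ 0 ∧ u ∈ Lsp y 0 (R * (x.2 : ℚ).num.toNat * m)
            ((R * (x.2 : ℚ).num.toNat * m) • D + (R * b) • A') ∧
            P.ord (emb hM.le u) ≤ P.ord (h' * z ^ (R * (x.2 : ℚ).den))

/-- the index set -/
abbrev Ix (y : Fin (N + 1) → K) := {A : Place ℂ K → ℚ // Effective y A} × (ℕ → ℕ)

theorem mem_pow_sec {g0 : K} {m b r : ℕ} (hr : 1 ≤ r) {D A : Place ℂ K → ℚ}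
    {i : Fin (N + 1)} (hi : y i ≠ 0)
    (h : ∀ l, g0 * (y l / y i) ∈ Lsp y 0 m (m • D + b • A)) (l : Fin (N + 1)) :
    g0 ^ r * (y l / y i) ∈ Lsp y 0 (m * r) ((m * r) • D + (b * r) • A) := by
  obtain ⟨k, rfl⟩ : ∃ k, r = k + 1 := ⟨r - 1, by omega⟩
  have h0 : g0 ∈ Lsp y 0 m (m • D + b • A) := by
    have := h i
    rwa [div_self hi, mul_one] at this
  intro P hP
  by_cases hl : y l / y i = 0
  · left
    rw [hl, mul_zero]
  by_cases hg : g0 = 0
  · left
    rw [hg, zero_pow (by omega), zero_mul]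
  right
  have h1 := (h0 P hP).resolve_left hg
  have h2 := (h l P hP).resolve_left (mul_ne_zero hg hl)
  rw [Pi.add_apply, Pi.smul_apply, Pi.smul_apply, nsmul_eq_mul, nsmul_eq_mul, Pi.zero_apply,
    Int.cast_zero, mul_zero, zero_add] at h1 h2 ⊢
  rw [P.ord_mul hg hl] at h2
  rw [P.ord_mul (pow_ne_zero _ hg) hl, P.ord_pow]
  push_cast at h2 ⊢
  have h3 := mul_le_mul_of_nonneg_left h1 (show (0 : ℚ) ≤ k from Nat.cast_nonneg k)
  linarith

/-- **The system.** -/
theorem exists_bsys (hy : NormalModel y) (hn : Algebra.trdeg ℂ K = n) (hn0 : 0 < n)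
    {i : Fin (N + 1)} (hi : y i ≠ 0) {D : Place ℂ K → ℚ} (hD : IsDivisor y D)
    {S : Set (GG Ω)} (hS : ∀ x ∈ S, OPull y D x ∧ OPull y D x⁻¹) {C₁ : ℝ}
    (hC₁ : ∀ x ∈ S, tS K (act x ((HO Ω hy hi, 1) : SC Ω) ::ₘ
      Multiset.replicate (n - 1) ((HO Ω hy hi, 1) : SC Ω)) ≤ C₁) {ν : ℕ} (hν : ν ≤ n)
    (hnum : ¬ NumLt y n D ν) (hnum' : ν + 1 ≤ n → NumLt y n D (ν + 1)) :
    ∃ (𝒜 : Type) (_ : Nonempty 𝒜) (m : ℕ → ℝ) (M : 𝒜 → ℕ → SC Ω) (c ε : ℝ),
      BSys (K := K) hy hi S n m M ν c ε C₁ := by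
  classical
  have hess := hy.ess
  obtain ⟨Hy, hHy, hHP⟩ := exists_hyp hy hi
  have hc0 : {P : Place ℂ K | IsPrimeDivisor y P ∧ (0 : Place ℂ K → ℤ) P ≠ 0}.Finite :=
    Set.finite_empty.subset (by rintro P ⟨-, h⟩; exact h rfl)
  unfold NumLt at hnum
  push Not at hnum
  obtain ⟨A0, hA0, ε, hε, hseq⟩ := hnum
  -- the sequence
  have hseq' : ∀ q : ℕ, ∃ m b : ℕ, q + 1 ≤ m ∧ (b : ℝ) ≤ 1 / (q + 1) * m ∧
      ∃ u : Fin (n - ν) → K, (∀ a, IsPencil y (u a)) ∧
      ∃ s : Fin (ν + 1) → K, (∀ i, IsSec y (m • D + b • A0) (s i)) ∧ s 0 ≠ 0 ∧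
      ε * (m : ℝ) ^ ν < degreeOver u (fun i : Fin ν => s i.succ / s 0) := by
    intro q
    obtain ⟨m, b, h1, h2, u, h3, s, h4, h5, h6⟩ := hseq (1 / (q + 1)) (by positivity) (q + 1)
    exact ⟨m, b, h1, h2, u, h3, s, h4, h5, h6⟩
  choose m b0 hm hb0 u hu s hs hs0 hdeg using hseq'
  obtain ⟨b, hb⟩ : ∃ b : ℕ → ℕ, ∀ q, b q = b0 q + 1 := ⟨_, fun _ => rfl⟩
  obtain ⟨g0, hg0d⟩ : ∃ g0 : ℕ → K, ∀ q, g0 q = s q 0 := ⟨_, fun _ => rfl⟩
  have hg0 : ∀ q, g0 q ≠ 0 := fun q => by rw [hg0d]; exact hs0 q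
  have hm1 : ∀ q, 1 ≤ m q := fun q => by have := hm q; omega
  have hb1 : ∀ q, 1 ≤ b q := fun q => by rw [hb]; omega
  have hbm : ∀ q, (b q : ℝ) ≤ 2 * (m q / (q + 1)) := by
    intro q
    have h1 := hb0 q
    have h2 : (1 : ℝ) ≤ m q / (q + 1) := by
      rw [le_div_iff₀ (by positivity), one_mul]
      exact_mod_cast hm q
    rw [hb]
    push_cast
    have h3 : 1 / ((q : ℝ) + 1) * m q = m q / (q + 1) := by ring
    rw [h3] at h1
    linarith
  -- the base sections
  have hBA : Effective y (Hy + A0) := Effective.add' hHy hA0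
  have hmem0 : ∀ q l, g0 q * (y l / y i) ∈ Lsp y 0 (m q) (m q • D + b q • (Hy + A0)) := by
    intro q l P hP
    by_cases hl : y l = 0
    · left
      rw [hl, zero_div, mul_zero]
    right
    have h1 := (hs q 0 P hP).resolve_left (hs0 q)
    rw [← hg0d] at h1
    have h2 := (ord_coord hy hi hHP hP hl).1
    have h3 := hA0.1 P hP
    have h4 := hHy.1 P hP
    rw [P.ord_mul (hg0 q) (div_ne_zero hl hi)]
    rw [Pi.add_apply, Pi.smul_apply, Pi.smul_apply, nsmul_eq_mul, nsmul_eq_mul] at h1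
    rw [Pi.add_apply, Pi.smul_apply, Pi.smul_apply, nsmul_eq_mul, nsmul_eq_mul, Pi.add_apply,
      Pi.zero_apply, Int.cast_zero, mul_zero, zero_add, hb]
    push_cast at h1 h2 ⊢
    have h5 : (0 : ℚ) ≤ b0 q * Hy P := mul_nonneg (Nat.cast_nonneg _) h4
    linarith
  have hmemA : ∀ (A : {A : Place ℂ K → ℚ // Effective y A}) q l, g0 q * (y l / y i) ∈
      Lsp y 0 (m q) (m q • D + b q • (Hy + A0 + A.1)) := by
    intro A q l
    refine Lsp_mono le_rfl hBA.1 (fun P hP => ?_) (hmem0 q l)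
    have := A.2.1 P hP
    rw [Pi.add_apply (Hy + A0)]
    linarith
  -- the exponents
  obtain ⟨r, hr⟩ : ∃ r : Ix y → ℕ → ℕ, ∀ a q, r a q = a.2 q + 1 := ⟨_, fun _ _ => rfl⟩
  have hr1 : ∀ a q, 1 ≤ r a q := fun a q => by rw [hr]; omega
  have hmemr : ∀ (a : Ix y) q l, g0 q ^ r a q * (y l / y i) ∈ Lsp y 0 (m q * r a q)
      ((m q * r a q) • D + (b q * r a q) • (Hy + A0 + a.1.1)) := fun a q l =>
    mem_pow_sec (hr1 a q) hi (hmemA a.1 q) l
  have hAeff : ∀ a : Ix y, Effective y (Hy + A0 + a.1.1) := fun a => Effective.add' hBA a.1.2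
  have hfg : ∀ (a : Ix y) q, (quo (g0 q ^ r a q) (Lsp y 0 (m q * r a q)
      ((m q * r a q) • D + (b q * r a q) • (Hy + A0 + a.1.1)))).FG := fun a q =>
    fg_of_quo hy hn (isDivisor_comb hD (hAeff a) _ _) (pow_ne_zero _ (hg0 q))
  obtain ⟨V, hV⟩ : ∃ V : Ix y → ℕ → OCl Ω, ∀ a q, V a q = inclO hy hi _ (hfg a q)
    (hmemr a q) := ⟨_, fun _ _ => rfl⟩
  have hVmem : ∀ a q z, z ∈ (V a q).V ↔ ∃ v : K, g0 q ^ r a q * v ∈ Lsp y 0 (m q * r a q)
      ((m q * r a q) • D + (b q * r a q) • (Hy + A0 + a.1.1)) ∧ ιO K Ω v = z := by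
    intro a q z
    rw [hV]
    exact Iff.rfl
  obtain ⟨M, hM⟩ : ∃ M : Ix y → ℕ → SC Ω, ∀ a q, M a q = (V a q, invN (r a q) (hr1 a q)) :=
    ⟨_, fun _ _ => rfl⟩
  have hM1 : ∀ a q, (M a q).1 = V a q := fun a q => by rw [hM]
  have hMw : ∀ a q, wt (M a q) = 1 / r a q := fun a q => by rw [hM]; exact wt_inv _ _ _
  have hι : Function.Injective (ιO K Ω) := (ιO K Ω).injective
  have hι0 : ∀ {v : K}, v ≠ 0 → ιO K Ω v ≠ 0 := fun hv => by rwa [Ne, map_eq_zero]
  -- comparison
  have hcomp : ∀ (a a' : Ix y) (q e : ℕ), 1 ≤ e → r a' q = r a q * e →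
      (∀ P, IsPrimeDivisor y P → a.1.1 P ≤ a'.1.1 P) →
      Le n (fun s : Multiset (SC Ω) => tS K s) 1 (M a q) (M a' q) := by
    intro a a' q e he hre haa
    refine tS_le fun s hs => ?_
    have h1 := tO_pow (K := K) hy hn (V := V a q) (D := V a' q) he (fun z hz => by
      rw [hVmem] at hz ⊢
      obtain ⟨v, hv, rfl⟩ := hz
      refine ⟨v ^ e, ?_, map_pow _ _ _⟩
      have h2 := pow_Lsp hv he
      rw [mul_pow, ← pow_mul, ← hre, mul_assoc, ← hre, mul_assoc, ← hre] at h2
      refine Lsp_mono le_rfl (hAeff a).1 (fun P hP => ?_) h2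
      have := haa P hP
      rw [Pi.add_apply (Hy + A0), Pi.add_apply (Hy + A0)]
      linarith) hs
    rw [hM1, hM1, hMw, hMw, one_mul, hre]
    have hr0 : (0 : ℝ) < r a q := by exact_mod_cast hr1 a q
    have he0 : (0 : ℝ) < e := by exact_mod_cast he
    have h2 := mul_le_mul_of_nonneg_left h1 (show 0 ≤ 1 / ((r a q : ℝ) * e) by positivity)
    push_cast
    refine le_trans (le_of_eq ?_) h2
    field_simp
  -- the pull back
  have hpull : ∀ x : GG Ω, OPull y D x → ∀ a, ∃ a', ∀ q,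
      Le n (fun s : Multiset (SC Ω) => tS K s) 1 (act x (M a q)) (M a' q) := by
    intro x hx a
    obtain ⟨A', hA', hk⟩ := hx (Hy + A0 + a.1.1) (hAeff a)
    choose R t hR hR1 using fun k : ℕ => hk (k + 1) (by omega)
    obtain ⟨num, hnum⟩ : ∃ num, num = (x.2 : ℚ).num.toNat := ⟨_, rfl⟩
    obtain ⟨den, hden⟩ : ∃ den, den = (x.2 : ℚ).den := ⟨_, rfl⟩
    have hden0 : 0 < den := by rw [hden]; exact (x.2 : ℚ).den_pos
    have hnum0 : 0 < num := by
      have := Rat.num_pos.2 x.2.2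
      rw [hnum]
      omega
    obtain ⟨a', ha'⟩ : ∃ a' : Ix y, a' = (⟨A', hA'⟩, fun q => R (m q) * num * r a q - 1) :=
      ⟨_, rfl⟩
    have hra' : ∀ q, r a' q = R (m q) * num * r a q := by
      intro q
      rw [hr, ha']
      have : 0 < R (m q) * num * r a q :=
        Nat.mul_pos (Nat.mul_pos (hR (m q)) hnum0) (hr1 a q)
      simp only []
      omega
    refine ⟨a', fun q => tS_le fun s hs => ?_⟩
    have hmb : m q * r a q ≤ (m q + 1) * (b q * r a q) := by
      have h1 := hb1 q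
      calc m q * r a q ≤ (m q + 1) * r a q := Nat.mul_le_mul_right _ (by omega)
        _ ≤ (m q + 1) * (b q * r a q) := Nat.mul_le_mul_left _ (Nat.le_mul_of_pos_left _ h1)
    obtain ⟨h, hh, hdom⟩ := hR1 (m q) (m q * r a q) (b q * r a q)
      (Nat.mul_pos (hm1 q) (hr1 a q)) hmb
    rw [← hnum, ← hden] at hdom
    obtain ⟨p, hp⟩ : ∃ p, p = R (m q) * den := ⟨_, rfl⟩
    have hp1 : 1 ≤ p := by rw [hp]; exact Nat.mul_pos (hR (m q)) hden0
    rw [← hp] at hdom
    obtain ⟨G, hG⟩ : ∃ G, G = ιO K Ω (g0 q) := ⟨_, rfl⟩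
    have hG0 : G ≠ 0 := by rw [hG]; exact hι0 (hg0 q)
    obtain ⟨H, hH⟩ : ∃ H, H = h * (x.1 G) ^ (r a q * p) / G ^ r a' q := ⟨_, rfl⟩
    have hxG : x.1 G ≠ 0 := by rwa [Ne, map_eq_zero]
    have hH0 : H ≠ 0 := by
      rw [hH]
      exact div_ne_zero (mul_ne_zero hh (pow_ne_zero _ hxG)) (pow_ne_zero _ hG0)
    have h1 := tO_rat (K := K) hy hn (V := actO x.1 (V a q)) (B := V a' q) (p := p) (q := 1) hp1
      hH0 (insert h (insert (x.1 G) (t (m q)))) (fun M hM htM h' hh' z hz P => by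
        have hhM : h ∈ M := htM h (Finset.mem_insert_self _ _)
        have hxGM : x.1 G ∈ M := htM _ (Finset.mem_insert_of_mem (Finset.mem_insert_self _ _))
        have htM' : ∀ z ∈ t (m q), z ∈ M := fun z hz =>
          htM z (Finset.mem_insert_of_mem (Finset.mem_insert_of_mem hz))
        rw [mem_actO] at hz
        obtain ⟨_, hv', hvz⟩ := hz
        obtain ⟨v, hv, rfl⟩ := (hVmem a q _).1 hv'
        by_cases hv0 : v = 0
        · refine ⟨1, (V a' q).one, one_ne_zero, ?_⟩
          have hz0 : z = 0 := by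
            apply Subtype.ext
            rw [← hvz, hv0, map_zero, map_zero]
            rfl
          rw [hz0, zero_pow (by omega), mul_zero, P.ord_one, P.ord_zero, mul_zero]
        have hv1 : g0 q ^ r a q * v ≠ 0 := mul_ne_zero (pow_ne_zero _ (hg0 q)) hv0
        obtain ⟨u, hu0, hu, hle⟩ := hdom _ hv hv1 M hM htM' ⟨h, hhM⟩ rfl
          (⟨x.1 G, hxGM⟩ ^ r a q * z) (by
            rw [map_mul, map_mul, map_pow, map_pow, ← hG]
            change x.1 G ^ r a q * (z : Ω) = _
            rw [← hvz]) P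
        refine ⟨emb hM.le (u / g0 q ^ r a' q), ?_, ?_, ?_⟩
        · rw [hVmem]
          refine ⟨u / g0 q ^ r a' q, ?_, rfl⟩
          rw [mul_div_cancel₀ _ (pow_ne_zero _ (hg0 q))]
          have e1 : R (m q) * num * (m q * r a q) = m q * r a' q := by rw [hra']; ring
          rw [e1] at hu
          refine fun P hP => (hu P hP).imp_right fun h3 => ?_
          rw [Pi.add_apply, Pi.smul_apply, Pi.smul_apply, nsmul_eq_mul, nsmul_eq_mul,
            Pi.zero_apply, Int.cast_zero, mul_zero, zero_add] at h3 ⊢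
          refine le_trans ?_ h3
          have i1 := hA'.1 P hP
          have i2 := hBA.1 P hP
          have i3 : ((b q * r a' q : ℕ) : ℚ) * (Hy + A0 + a'.1.1) P ≥
              ((R (m q) * (b q * r a q) : ℕ) : ℚ) * A' P := by
            have e2 : (Hy + A0 + a'.1.1) P = (Hy + A0) P + A' P := by
              rw [ha']
              rfl
            rw [e2, hra']
            have i4 : ((R (m q) * (b q * r a q) : ℕ) : ℚ) ≤
                ((b q * (R (m q) * num * r a q) : ℕ) : ℚ) := by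
              have : R (m q) * (b q * r a q) ≤ b q * (R (m q) * num * r a q) := by
                calc R (m q) * (b q * r a q) = b q * (R (m q) * 1 * r a q) := by ring
                  _ ≤ _ := Nat.mul_le_mul_left _ (Nat.mul_le_mul_right _
                    (Nat.mul_le_mul_left _ hnum0))
              exact_mod_cast this
            have i5 := mul_le_mul_of_nonneg_right i4 i1
            have i6 : (0 : ℚ) ≤ ((b q * (R (m q) * num * r a q) : ℕ) : ℚ) * (Hy + A0) P :=
              mul_nonneg (Nat.cast_nonneg _) i2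
            linarith
          linarith
        · rw [Ne, map_eq_zero]
          exact div_ne_zero hu0 (pow_ne_zero _ (hg0 q))
        · have hz0 : z ≠ 0 := by
            intro h0
            have h3 : x.1 (ιO K Ω v) = 0 := by
              rw [hvz, h0]
              rfl
            rw [map_eq_zero] at h3
            exact hι0 hv0 h3
          have hu' : emb hM.le u ≠ 0 := by rwa [Ne, map_eq_zero]
          have hg' : emb hM.le (g0 q) ≠ 0 := by rw [Ne, map_eq_zero]; exact hg0 q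
          have hh0' : (⟨h, hhM⟩ : M) ≠ 0 := fun h0 => hh (congrArg Subtype.val h0)
          have hxG' : (⟨x.1 G, hxGM⟩ : M) ≠ 0 := fun h0 => hxG (congrArg Subtype.val h0)
          have e1 : h' = (⟨h, hhM⟩ : M) * ⟨x.1 G, hxGM⟩ ^ (r a q * p) /
              emb hM.le (g0 q) ^ r a' q := by
            have e0 : ((emb hM.le (g0 q) : M) : Ω) = G := by rw [hG]; rfl
            apply Subtype.ext
            push_cast
            rw [hh', hH, e0]
          rw [map_div₀, map_pow, P.ord_div hu' (pow_ne_zero _ hg'), Nat.cast_one, one_mul, e1,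
            div_mul_eq_mul_div, P.ord_div (mul_ne_zero (mul_ne_zero hh0' (pow_ne_zero _ hxG'))
              (pow_ne_zero _ hz0)) (pow_ne_zero _ hg')]
          have e2 : (⟨h, hhM⟩ : M) * ⟨x.1 G, hxGM⟩ ^ (r a q * p) * z ^ p =
              ⟨h, hhM⟩ * (⟨x.1 G, hxGM⟩ ^ r a q * z) ^ p := by
            rw [mul_pow, pow_mul]
            ring
          rw [e2]
          linarith) hs
    change wt (act x (M a q)) * tO K (actO x.1 (M a q).1 ::ₘ s) ≤ _
    rw [wt_act, hM1, hM1, hMw, hMw, one_mul, hra']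
    have hx2 : ((x.2 : ℚ) : ℝ) = num / den := by
      have h3 := (wt_eq ((HO Ω hy hi, x.2) : SC Ω)).2
      rw [hnum, hden]
      exact h3
    rw [hx2]
    have hr0 : (0 : ℝ) < r a q := by exact_mod_cast hr1 a q
    have hR0 : (0 : ℝ) < R (m q) := by exact_mod_cast hR (m q)
    have hn0' : (0 : ℝ) < num := by exact_mod_cast hnum0
    have hd0' : (0 : ℝ) < den := by exact_mod_cast hden0
    have h2 := mul_le_mul_of_nonneg_left h1
      (show 0 ≤ 1 / ((R (m q) : ℝ) * num * r a q) by positivity)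
    rw [hp, Nat.cast_one, one_mul] at h2
    push_cast at h2 ⊢
    refine le_trans (le_of_eq ?_) h2
    field_simp
  -- the domination
  obtain ⟨β, f, hf, hdomS⟩ := dom_sections hy hi hc0 hD
  obtain ⟨t, ht⟩ : ∃ t : Multiset (SC Ω) → ℝ, t = fun s => tS K s := ⟨_, rfl⟩
  have hmcast : Tendsto (fun q => (m q : ℝ)) atTop atTop := by
    refine Filter.tendsto_atTop_mono (fun q => ?_) tendsto_natCast_atTop_atTop
    have := hm q
    exact_mod_cast (by omega : q ≤ m q)
  refine ⟨Ix y, ⟨(⟨Hy, hHy⟩, fun _ => 0)⟩, fun q => (m q : ℝ), M, β + 1, ε, hn0, hν,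
    by positivity, hε, fun q => by exact_mod_cast hm1 q, hmcast, fun a => ?_, fun a a' => ?_,
    fun x hx => hpull x (hS x hx).1, fun x hx => hpull x⁻¹ (hS x hx).2, ?_, fun hν1 a δ hδ => ?_,
    hC₁⟩
  · -- M_le
    obtain ⟨βA, gA, hgA, hdomA⟩ := hdomS (Hy + A0 + a.1.1) (hAeff a)
    filter_upwards [Filter.eventually_ge_atTop (2 * βA)] with q hq
    refine tS_le fun s hs => ?_
    obtain ⟨F, hF⟩ : ∃ F, F = f ^ (m q * r a q) * gA ^ (b q * r a q) * g0 q ^ r a q := ⟨_, rfl⟩
    have hF0 : F ≠ 0 := by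
      rw [hF]
      exact mul_ne_zero (mul_ne_zero (pow_ne_zero _ hf) (pow_ne_zero _ hgA))
        (pow_ne_zero _ (hg0 q))
    have h1 := tO_rat (K := K) hy hn (V := V a q) (B := HO Ω hy hi) (p := 1)
      (q := m q * r a q * β + b q * r a q * βA) le_rfl (h := ιO K Ω F) (hι0 hF0) ∅
      (fun M hM _ h' hh' z hz P => by
        obtain ⟨v, hv, hvz⟩ := (hVmem a q _).1 hz
        obtain ⟨s', hs', hs0', hle⟩ := bnd_up hn (hdomA _ _ _ hv) hM P
        refine ⟨emb hM.le s', ?_, by rwa [Ne, map_eq_zero], ?_⟩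
        · exact Submodule.subset_span ⟨s', hs', rfl⟩
        · have e1 : h' * z ^ 1 = emb hM.le (f ^ (m q * r a q) * gA ^ (b q * r a q) *
              (g0 q ^ r a q * v)) := by
            apply Subtype.ext
            rw [emb_val, pow_one]
            change (h' : Ω) * (z : Ω) = _
            rw [hh', ← hvz, hF, ← map_mul, mul_assoc _ (g0 q ^ r a q) v]
          rw [e1]
          exact hle) hs
    rw [Nat.cast_one, one_mul] at h1
    change wt (M a q) * tO K ((M a q).1 ::ₘ s) ≤ (β + 1) * (m q : ℝ) *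
      (wt ((HO Ω hy hi, 1) : SC Ω) * tO K (HO Ω hy hi ::ₘ s))
    rw [hM1, hMw, wt_one', one_mul]
    have hr0 : (0 : ℝ) < r a q := by exact_mod_cast hr1 a q
    have htp : 0 ≤ tO K (HO Ω hy hi ::ₘ s) := (tO_pos hy hn (by
      rw [Multiset.card_cons]
      exact hs)).le
    have h2 : 1 / (r a q : ℝ) * tO K (V a q ::ₘ s) ≤
        (m q * β + b q * βA) * tO K (HO Ω hy hi ::ₘ s) := by
      have h3 := mul_le_mul_of_nonneg_left h1 (show 0 ≤ 1 / (r a q : ℝ) by positivity)
      refine h3.trans (le_of_eq ?_)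
      push_cast
      field_simp
    refine h2.trans (mul_le_mul_of_nonneg_right ?_ htp)
    have h4 : (b q : ℝ) * βA ≤ m q := by
      have h5 := hbm q
      have h6 : (2 : ℝ) * βA ≤ q + 1 := by
        have : (2 * βA : ℕ) ≤ q := hq
        have h7 : ((2 * βA : ℕ) : ℝ) ≤ q := by exact_mod_cast this
        push_cast at h7
        linarith
      have h7 : (0 : ℝ) ≤ m q := Nat.cast_nonneg _
      calc (b q : ℝ) * βA ≤ 2 * (m q / (q + 1)) * βA :=
            mul_le_mul_of_nonneg_right h5 (Nat.cast_nonneg _)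
        _ = (2 * βA) * (m q / (q + 1)) := by ring
        _ ≤ (q + 1) * (m q / (q + 1)) := mul_le_mul_of_nonneg_right h6 (by positivity)
        _ = m q := by field_simp
    nlinarith
  · -- dir
    obtain ⟨a'', ha''⟩ : ∃ a'' : Ix y, a'' = (⟨a.1.1 + a'.1.1, Effective.add' a.1.2 a'.1.2⟩,
      fun q => r a q * r a' q - 1) := ⟨_, rfl⟩
    have hra'' : ∀ q, r a'' q = r a q * r a' q := by
      intro q
      rw [hr a'', ha'']
      have : 0 < r a q * r a' q := Nat.mul_pos (hr1 a q) (hr1 a' q)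
      simp only []
      omega
    refine ⟨a'', fun q => ⟨hcomp a a'' q (r a' q) (hr1 a' q) (hra'' q) fun P hP => ?_,
      hcomp a' a'' q (r a q) (hr1 a q) (by rw [hra'', mul_comm]) fun P hP => ?_⟩⟩
    · have := a'.1.2.1 P hP
      rw [ha'']
      change a.1.1 P ≤ a.1.1 P + a'.1.1 P
      linarith
    · have := a.1.2.1 P hP
      rw [ha'']
      change a'.1.1 P ≤ a.1.1 P + a'.1.1 P
      linarith
  · -- eps
    obtain ⟨Z, hZ⟩ : ∃ Z : {A : Place ℂ K → ℚ // Effective y A}, Z = ⟨0, fun _ _ => le_rfl, by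
      refine Set.finite_empty.subset ?_
      rintro P ⟨-, h⟩
      exact h rfl⟩ := ⟨_, rfl⟩
    obtain ⟨a, ha⟩ : ∃ a : Ix y, a = (Z, fun _ => 0) := ⟨_, rfl⟩
    refine ⟨a, Filter.Eventually.of_forall fun q => ?_⟩
    have hra : r a q = 1 := by rw [hr, ha]
    have hw1 : wt (M a q) = 1 := by rw [hMw, hra, Nat.cast_one, div_one]
    unfold tS
    rw [Multiset.map_add, Multiset.map_add, Multiset.map_replicate, Multiset.map_replicate,
      Multiset.map_replicate, Multiset.map_replicate, Multiset.prod_add,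
      Multiset.prod_replicate, Multiset.prod_replicate, hw1, wt_one', one_pow, one_pow, mul_one,
      mul_one, hM1]
    have hcard : (Multiset.replicate ν (V a q) +
        Multiset.replicate (n - ν) (HO Ω hy hi)).card = n := by
      rw [Multiset.card_add, Multiset.card_replicate, Multiset.card_replicate]
      omega
    obtain ⟨Q', hQ', hle'⟩ := replace_pencils' hy hn hi (Pool.Agent.N110.toM (u q))
      (Pool.Agent.N110.toM fun j : Fin ν => s q j.succ / s q 0)
      (by rw [Multiset.card_add, toM_card, toM_card]; omega) (fun z hz => by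
        obtain ⟨j, rfl⟩ := mem_toM.1 hz
        exact hu q j)
    rw [toM_card, sel_rep] at hQ'
    have h1 := le_tO (K := K) hy hn hcard (W := (Pool.Agent.N110.toM fun j : Fin ν => s q j.succ / s q 0).map
      (ιO K Ω) + Q'.map (ιO K Ω)) (selO_add (selO_rep.2 ⟨by
        rw [Multiset.card_map, toM_card], fun z hz => by
        obtain ⟨v, hv, rfl⟩ := Multiset.mem_map.1 hz
        obtain ⟨j, rfl⟩ := mem_toM.1 hv
        rw [hVmem]
        refine ⟨s q j.succ / s q 0, ?_, rfl⟩
        rw [hra, pow_one, mul_one, mul_one, hg0d, mul_div_cancel₀ _ (hs0 q)]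
        intro P hP
        refine (hs q j.succ P hP).imp_right fun h3 => ?_
        have h4 := hHy.1 P hP
        have h5 := hA0.1 P hP
        rw [Pi.add_apply, Pi.smul_apply, Pi.smul_apply, nsmul_eq_mul, nsmul_eq_mul] at h3
        rw [Pi.add_apply, Pi.smul_apply, Pi.smul_apply, nsmul_eq_mul, nsmul_eq_mul,
          Pi.zero_apply, Int.cast_zero, mul_zero, zero_add]
        have e2 : (Hy + A0 + a.1.1) P = Hy P + A0 P := by
          rw [ha, hZ]
          change Hy P + A0 P + 0 = _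
          rw [add_zero]
        rw [e2, hb]
        push_cast
        have h6 : (0 : ℚ) ≤ b0 q * Hy P := mul_nonneg (Nat.cast_nonneg _) h4
        linarith⟩) (selO_rep.2 ⟨by rw [Multiset.card_map, hQ'.1], fun z hz => by
        obtain ⟨v, hv, rfl⟩ := Multiset.mem_map.1 hz
        have h3 := Submodule.mem_map_of_mem (f := (ιO K Ω).toLinearMap) (hQ'.2 v hv)
        have h4 : (hcls hy hi).V = Submodule.span ℂ (affS y i) := rfl
        rw [h4, Submodule.map_span] at h3
        exact h3⟩))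
    rw [← Multiset.map_add, dO_K] at h1
    have e3 : degreeOver (u q) (fun j : Fin ν => s q j.succ / s q 0) =
        dm ℂ (Pool.Agent.N110.toM (u q) + Pool.Agent.N110.toM fun j : Fin ν => s q j.succ / s q 0) :=
      deg_dm (toM_set _) (toM_set _)
    have h2 := hdeg q
    rw [e3] at h2
    rw [add_comm Q'] at hle'
    have h3 : ((dm ℂ (Pool.Agent.N110.toM (u q) + Pool.Agent.N110.toM fun j : Fin ν => s q j.succ / s q 0) : ℕ) : ℝ) ≤
        dm ℂ ((Pool.Agent.N110.toM fun j : Fin ν => s q j.succ / s q 0) + Q') := by exact_mod_cast hle'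
    linarith
  · -- zero
    obtain ⟨tt, htt, m0, hnd⟩ := hnum' hν1 (Hy + A0 + a.1.1) (hAeff a) δ hδ
    obtain ⟨q0, hq0⟩ := exists_nat_gt (2 / tt)
    filter_upwards [Filter.eventually_ge_atTop (max m0 q0)] with q hq
    have hq1 : m0 ≤ q := (le_max_left _ _).trans hq
    have hq2 : q0 ≤ q := (le_max_right _ _).trans hq
    have hr0 : (0 : ℝ) < r a q := by exact_mod_cast hr1 a q
    unfold tS
    rw [Multiset.map_add, Multiset.map_add, Multiset.map_replicate, Multiset.map_replicate,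
      Multiset.map_replicate, Multiset.map_replicate, Multiset.prod_add,
      Multiset.prod_replicate, Multiset.prod_replicate, wt_one', one_pow, mul_one, hM1, hMw]
    have hbt : ((b q * r a q : ℕ) : ℝ) ≤ tt * (m q * r a q : ℕ) := by
      have e1 : (b q : ℝ) ≤ tt * m q := by
        have e2 := hbm q
        have e3 : (2 : ℝ) ≤ tt * (q + 1) := by
          have e4 : (2 : ℝ) / tt < q + 1 := by
            have : (q0 : ℝ) ≤ q := by exact_mod_cast hq2
            linarith
          rw [div_lt_iff₀ htt] at e4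
          linarith
        have e5 : (0 : ℝ) ≤ (m q : ℝ) / (q + 1) := by positivity
        calc (b q : ℝ) ≤ 2 * (m q / (q + 1)) := e2
          _ ≤ tt * (q + 1) * (m q / (q + 1)) := mul_le_mul_of_nonneg_right e3 e5
          _ = tt * m q := by field_simp
      push_cast
      have := mul_le_mul_of_nonneg_right e1 hr0.le
      linarith
    have hmm : m0 ≤ m q * r a q := by
      have h1 := hm q
      have h2 : m q ≤ m q * r a q := Nat.le_mul_of_pos_right _ (hr1 a q)
      omega
    have key : tO K (Multiset.replicate (ν + 1) (V a q) +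
        Multiset.replicate (n - (ν + 1)) (HO Ω hy hi)) ≤ δ * ((m q * r a q : ℕ) : ℝ) ^ (ν + 1) := by
      refine tO_le _ fun W hW => ?_
      -- the functions lie in `K`
      have hW1 : ∃ W1 W2 : Multiset K, W1.card = ν + 1 ∧ W2.card = n - (ν + 1) ∧
          (∀ v ∈ W1, g0 q ^ r a q * v ∈ Lsp y 0 (m q * r a q)
            ((m q * r a q) • D + (b q * r a q) • (Hy + A0 + a.1.1))) ∧
          (∀ v ∈ W2, v ∈ Submodule.span ℂ (affS y i)) ∧
          W = (W2 + W1).map (ιO K Ω) := by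
        unfold SelO at hW
        rw [Multiset.rel_add_right] at hW
        obtain ⟨Wa, Wb, hWa, hWb, rfl⟩ := hW
        have hWa' := selO_rep.1 hWa
        have hWb' := selO_rep.1 hWb
        have hlift : ∀ (W : Multiset Ω) (L : Submodule ℂ K),
            (∀ x ∈ W, ∃ v ∈ L, ιO K Ω v = x) → ∃ W1 : Multiset K, W1.map (ιO K Ω) = W ∧
              ∀ v ∈ W1, v ∈ L := by
          intro W L
          induction W using Multiset.induction_on with
          | empty => exact fun _ => ⟨0, rfl, by simp⟩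
          | cons x W ih =>
            intro h
            obtain ⟨W1, h1, h2⟩ := ih fun z hz => h z (Multiset.mem_cons_of_mem hz)
            obtain ⟨v, hv, rfl⟩ := h x (Multiset.mem_cons_self _ _)
            refine ⟨v ::ₘ W1, by rw [Multiset.map_cons, h1], fun w hw => ?_⟩
            rcases Multiset.mem_cons.1 hw with rfl | hw
            · exact hv
            · exact h2 w hw
        obtain ⟨W1, h1, h2⟩ := hlift Wa (quo (g0 q ^ r a q) (Lsp y 0 (m q * r a q)
          ((m q * r a q) • D + (b q * r a q) • (Hy + A0 + a.1.1)))) fun x hx => by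
            obtain ⟨v, hv, hvx⟩ := (hVmem a q x).1 (hWa'.2 x hx)
            exact ⟨v, hv, hvx⟩
        obtain ⟨W2, h3, h4⟩ := hlift Wb (Submodule.span ℂ (affS y i)) fun x hx => by
          have h5 : x ∈ Submodule.span ℂ (ιO K Ω '' affS y i) := hWb'.2 x hx
          have h6 : x ∈ (Submodule.span ℂ (affS y i)).map (ιO K Ω).toLinearMap := by
            rw [Submodule.map_span]
            exact h5
          obtain ⟨v, hv, hvx⟩ := h6
          exact ⟨v, hv, hvx⟩
        refine ⟨W1, W2, ?_, ?_, h2, h4, ?_⟩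
        · rw [← hWa'.1, ← h1, Multiset.card_map]
        · rw [← hWb'.1, ← h3, Multiset.card_map]
        · rw [Multiset.map_add, h1, h3, add_comm]
      obtain ⟨W1, W2, c1, c2, h1, h2, rfl⟩ := hW1
      rw [dO_K]
      obtain ⟨w1, hw1⟩ := exists_fin W1 c1
      obtain ⟨w2, hw2⟩ := exists_fin W2 c2
      have hw1m : ∀ j, g0 q ^ r a q * w1 j ∈ Lsp y 0 (m q * r a q)
            ((m q * r a q) • D + (b q * r a q) • (Hy + A0 + a.1.1)) := by
        intro j
        have h3 : w1 j ∈ {x | x ∈ W1} := by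
          rw [hw1]
          exact ⟨j, rfl⟩
        exact h1 _ h3
      have hw2m : ∀ j, w2 j ∈ Submodule.span ℂ (affS y i) := by
        intro j
        have h3 : w2 j ∈ {x | x ∈ W2} := by
          rw [hw2]
          exact ⟨j, rfl⟩
        exact h2 _ h3
      have hbd := hnd (m q * r a q) (b q * r a q) hmm hbt w2
        (fun a => pencil_span hi (hw2m a))
        (Fin.cons (g0 q ^ r a q) fun j => g0 q ^ r a q * w1 j) (fun j => by
          refine Fin.cases ?_ (fun j => ?_) j
          · rw [Fin.cons_zero]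
            have := hmemr a q i
            rw [div_self hi, mul_one] at this
            exact mem_Lsp0.1 this
          · rw [Fin.cons_succ]
            exact mem_Lsp0.1 (hw1m j)) (by
          rw [Fin.cons_zero]
          exact pow_ne_zero _ (hg0 q))
      have e1 : (fun j : Fin (ν + 1) => (Fin.cons (g0 q ^ r a q)
          (fun j => g0 q ^ r a q * w1 j) : Fin (ν + 1 + 1) → K) j.succ /
          (Fin.cons (g0 q ^ r a q) (fun j => g0 q ^ r a q * w1 j) : Fin (ν + 1 + 1) → K) 0) =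
            w1 := by
        funext j
        rw [Fin.cons_succ, Fin.cons_zero]
        exact mul_div_cancel_left₀ _ (pow_ne_zero _ (hg0 q))
      rw [e1, deg_dm hw2 hw1] at hbd
      exact hbd
    have h3 := mul_le_mul_of_nonneg_right key
      (show 0 ≤ (1 / (r a q : ℝ)) ^ (ν + 1) by positivity)
    change tO K (Multiset.replicate (ν + 1) (V a q) +
        Multiset.replicate (n - (ν + 1)) (HO Ω hy hi)) * (1 / (r a q : ℝ)) ^ (ν + 1) ≤ _
    refine h3.trans (le_of_eq ?_)
    push_cast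
    rw [one_div, inv_pow, mul_pow]
    have : (r a q : ℝ) ^ (ν + 1) ≠ 0 := by positivity
    field_simp

end

end Pool.Agent.T2h12.OM
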