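import Pool.Agent.T2h12.OM.J
import Pool.Agent.T2h12.Coef
import Pool.Agent.T2h12.Push

/-!
The comparison of sections for a correspondence given by a field `L` with two embeddings of `K`.
-/

set_option autoImplicit false
set_option linter.overlappingInstances false
set_option linter.unusedSectionVars false

open Filter FF Module IntermediateField Pool.Agent.N110 Pool.Agent.R887 Pool.Agent.Y172
open Pool.Agent.W602.GT Pool.Agent.W603.LV Pool.Agent.Y191 Pool.Agent.W619.PQ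
open Pool.Agent.T2H06.DYL (IsDivisor IsSec NumLt)

namespace Pool.Agent.T2h12.OM

section

variable {K Ω : Type} [Field K] [Field Ω] [Algebra ℂ K] [Algebra ℂ Ω] [Algebra K Ω]
  [IsScalarTower ℂ K Ω] {N n : ℕ} {y : Fin (N + 1) → K} [Algebra.IsAlgebraic K Ω]
  {L : Type} [Field L] [Algebra ℂ L]

/-- the comparison of the sections of `m D` on the correspondence with the projections `p`, `q` -/
def CPull (y : Fin (N + 1) → K) (D : Place ℂ K → ℚ) (p q : K →ₐ[ℂ] L) (num den : ℕ) : Prop :=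
  ∀ A, Effective y A → ∃ A', Effective y A' ∧ (∀ P, ∃ z : ℤ, A' P = z) ∧ ∀ k : ℕ, 1 ≤ k →
    ∃ (α : ℕ) (w w' : L), 1 ≤ α ∧ w ≠ 0 ∧ w' ≠ 0 ∧ ∀ m b : ℕ, 1 ≤ m → m ≤ k * b →
      ∀ v ∈ Lsp y 0 m (m • D + b • A), v ≠ 0 → ∀ P, IsPrimeDivisor y P →
        ∀ (Q : Place ℂ L) (e : ℕ), LiesOver p Q P e →
          -(e * (α * (num * m * D P + b * A' P)) : ℚ) ≤
            α * den * Q.ord (q v) + m * Q.ord w + b * Q.ord w'

theorem exists_denom {D : Place ℂ K → ℚ} (hD : IsDivisor y D) :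
    ∃ n0 : ℕ, 1 ≤ n0 ∧ ∀ P, IsPrimeDivisor y P → ∃ z : ℤ, n0 * D P = z := by
  classical
  have hD' : {P | IsPrimeDivisor y P ∧ D P ≠ 0}.Finite := hD
  refine ⟨∏ P ∈ hD'.toFinset, (D P).den, Finset.prod_pos fun P _ => (D P).den_pos,
    fun P hP => ?_⟩
  by_cases h0 : D P = 0
  · exact ⟨0, by rw [h0]; simp⟩
  · have h1 : P ∈ hD'.toFinset := by
      rw [Set.Finite.mem_toFinset]
      exact ⟨hP, h0⟩
    rw [← Finset.mul_prod_erase _ _ h1]
    refine ⟨(D P).num * ∏ P ∈ hD'.toFinset.erase P, ((D P).den : ℤ), ?_⟩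
    push_cast
    have h2 : ((D P).den : ℚ) * D P = (D P).num := Rat.den_mul_eq_num (D P)
    rw [mul_right_comm, h2]

theorem opull_of_cpull (hy : NormalModel y) (hn : Algebra.trdeg ℂ K = n)
    {D : Place ℂ K → ℚ} (hD : IsDivisor y D) (hess' : Algebra.EssFiniteType ℂ L)
    (hn' : Algebra.trdeg ℂ L = n) (p q : K →ₐ[ℂ] L) (j : L →ₐ[ℂ] Ω)
    (hp : ∀ a, j (p a) = ιO K Ω a) (x : GG Ω) (hq : ∀ a, j (q a) = x.1 (ιO K Ω a))
    (h : CPull y D p q (x.2 : ℚ).num.toNat (x.2 : ℚ).den) : OPull y D x := by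
  classical
  have hess := hy.ess
  obtain ⟨n0, hn0, hint⟩ := exists_denom hD
  obtain ⟨num, hnum⟩ : ∃ num, num = (x.2 : ℚ).num.toNat := ⟨_, rfl⟩
  obtain ⟨den, hden⟩ : ∃ den, den = (x.2 : ℚ).den := ⟨_, rfl⟩
  rw [← hnum, ← hden] at h
  unfold OPull
  rw [← hnum, ← hden]
  have hden0 : 0 < den := by rw [hden]; exact (x.2 : ℚ).den_pos
  let iL : Algebra K L := p.toRingHom.toAlgebra
  have hstL : IsScalarTower ℂ K L := IsScalarTower.of_algebraMap_eq fun c => (p.commutes c).symm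
  have hfdL : FiniteDimensional K L := finite_map hn hn'
  obtain ⟨d, hd⟩ : ∃ d, d = (Module.finrank K L).factorial := ⟨_, rfl⟩
  have hd1 : 1 ≤ d := by rw [hd]; exact Nat.factorial_pos _
  intro A hA
  obtain ⟨A', hA', hA'n, hk⟩ := h A hA
  refine ⟨A', hA', fun k hk1 => ?_⟩
  obtain ⟨α, w, w', hα, hw, hw', hmain⟩ := hk k hk1
  refine ⟨α * n0 * d, {j w, j w'}, Nat.mul_pos (Nat.mul_pos hα hn0) hd1, fun m b hm hmb => ?_⟩
  have hjw : j w ≠ 0 := by rwa [Ne, map_eq_zero]
  have hjw' : j w' ≠ 0 := by rwa [Ne, map_eq_zero]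
  refine ⟨j w ^ (m * n0 * d) * j w' ^ (b * n0 * d), mul_ne_zero (pow_ne_zero _ hjw)
    (pow_ne_zero _ hjw'), fun v hv hv0 M hM htM h' hh' z hz P => ?_⟩
  have hwM : j w ∈ M := htM _ (by simp)
  have hw'M : j w' ∈ M := htM _ (by simp)
  let iM : Algebra K M := (emb hM.le).toRingHom.toAlgebra
  have hstM : IsScalarTower ℂ K M :=
    IsScalarTower.of_algebraMap_eq fun c => ((emb hM.le).commutes c).symm
  have hstO : IsScalarTower K M Ω := IsScalarTower.of_algebraMap_eq fun c => rfl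
  have := ess_M hM
  have hfdM : FiniteDimensional K M := finite_map hn (trdeg_M hn hM)
  have hqv0 : q v ≠ 0 := by rwa [Ne, map_eq_zero]
  obtain ⟨zL, hzL⟩ : ∃ zL : L, zL = q v ^ (α * den * n0) * w ^ (m * n0) * w' ^ (b * n0) :=
    ⟨_, rfl⟩
  obtain ⟨zM, hzM⟩ : ∃ zM : M, zM = z ^ (α * den * n0) * (⟨j w, hwM⟩ : M) ^ (m * n0) *
    (⟨j w', hw'M⟩ : M) ^ (b * n0) := ⟨_, rfl⟩
  have hzL0 : zL ≠ 0 := by
    rw [hzL]
    exact mul_ne_zero (mul_ne_zero (pow_ne_zero _ hqv0) (pow_ne_zero _ hw)) (pow_ne_zero _ hw')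
  have hzLM : j zL = (zM : Ω) := by
    rw [hzL, hzM]
    push_cast
    rw [map_mul, map_mul, map_pow, map_pow, map_pow, hq, hz]
  -- the minimal polynomials
  have hmin : minpoly K zL = minpoly K zM := by
    have jK : L →ₐ[K] Ω := ⟨j.toRingHom, fun a => hp a⟩
    have h1 : minpoly K ((⟨j.toRingHom, fun a => hp a⟩ : L →ₐ[K] Ω) zL) = minpoly K zL :=
      minpoly.algHom_eq (⟨j.toRingHom, fun a => hp a⟩ : L →ₐ[K] Ω) j.injective zL
    have h2 : minpoly K ((⟨M.val.toRingHom, fun a => rfl⟩ : M →ₐ[K] Ω) zM) = minpoly K zM :=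
      minpoly.algHom_eq (⟨M.val.toRingHom, fun a => rfl⟩ : M →ₐ[K] Ω) M.val.injective zM
    rw [← h1, ← h2]
    congr 1
  have hzM0 : zM ≠ 0 := by
    intro h0
    rw [h0] at hzLM
    have : j zL = 0 := hzLM
    rw [map_eq_zero] at this
    exact hzL0 this
  -- the coefficients
  have hcoef : ∀ P, IsPrimeDivisor y P → ∀ i, i ≤ (minpoly K zL).natDegree →
      (minpoly K zL).coeff ((minpoly K zL).natDegree - i) = 0 ∨
      -(((i * (α * n0 * num * m) : ℕ) : ℚ) * D P + ((i * (α * n0 * b) : ℕ) : ℚ) * A' P) ≤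
        P.ord ((minpoly K zL).coeff ((minpoly K zL).natDegree - i)) := by
    intro P hP i hi
    obtain ⟨z1, hz1⟩ := hint P hP
    obtain ⟨z2, hz2⟩ := hA'n P
    have h1 := ord_coeff P (z := zL) (s := -(α * (num * m * z1 + n0 * b * z2)))
      (fun Q e hQ => by
        right
        have h2 := hmain m b hm hmb v hv hv0 P hP Q e hQ
        rw [hzL, Q.ord_mul (mul_ne_zero (pow_ne_zero _ hqv0) (pow_ne_zero _ hw))
          (pow_ne_zero _ hw'), Q.ord_mul (pow_ne_zero _ hqv0) (pow_ne_zero _ hw), Q.ord_pow,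
          Q.ord_pow, Q.ord_pow]
        have h3 := mul_le_mul_of_nonneg_left h2 (show (0 : ℚ) ≤ n0 from Nat.cast_nonneg _)
        have h4 : (e : ℚ) * -(α * (num * m * z1 + n0 * b * z2)) ≤
            α * den * n0 * Q.ord (q v) + m * n0 * Q.ord w + b * n0 * Q.ord w' := by
          rw [← hz1, ← hz2]
          linarith
        have h5 : ((e : ℤ) * -(α * (num * m * z1 + n0 * b * z2)) : ℤ) ≤
            α * den * n0 * Q.ord (q v) + m * n0 * Q.ord w + b * n0 * Q.ord w' := by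
          exact_mod_cast h4
        push_cast
        exact h5) ((minpoly K zL).natDegree - i)
    refine h1.imp_right fun h2 => ?_
    rw [show (minpoly K zL).natDegree - ((minpoly K zL).natDegree - i) = i by omega] at h2
    have h3 : ((i * (-(α * (num * m * z1 + n0 * b * z2))) : ℤ) : ℚ) ≤
        P.ord ((minpoly K zL).coeff ((minpoly K zL).natDegree - i)) := by exact_mod_cast h2
    push_cast at h3 ⊢
    rw [← hz1, ← hz2] at h3
    linarith
  obtain ⟨i, hi1, hi2, hne, hle⟩ := ord_root (K := K) P hzM0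
  rw [← hmin] at hi2 hne hle
  have hid : i ∣ d := by
    rw [hd]
    exact Nat.dvd_factorial hi1 (hi2.trans (minpoly.natDegree_le zL))
  obtain ⟨r, hr⟩ := hid
  have hr1 : 1 ≤ r := by
    rcases Nat.eq_zero_or_pos r with h0 | h0
    · rw [h0, mul_zero] at hr
      omega
    · exact h0
  refine ⟨(minpoly K zL).coeff ((minpoly K zL).natDegree - i) ^ r, pow_ne_zero _ hne, ?_, ?_⟩
  · have h1 : (minpoly K zL).coeff ((minpoly K zL).natDegree - i) ∈
        Lsp y 0 (i * (α * n0 * num * m)) ((i * (α * n0 * num * m)) • D +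
          (i * (α * n0 * b)) • A') := by
      intro P hP
      refine (hcoef P hP i hi2).imp_right fun h2 => ?_
      rw [Pi.add_apply, Pi.smul_apply, Pi.smul_apply, nsmul_eq_mul, nsmul_eq_mul,
        Pi.zero_apply, Int.cast_zero, mul_zero, zero_add]
      exact h2
    have h2 := pow_Lsp h1 hr1
    rwa [show i * (α * n0 * num * m) * r = α * n0 * d * num * m by rw [hr]; ring,
      show i * (α * n0 * b) * r = α * n0 * d * b by rw [hr]; ring] at h2
  · have h1 : P.ord (emb hM.le ((minpoly K zL).coeff ((minpoly K zL).natDegree - i))) ≤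
      i * P.ord zM := hle
    have e1 : h' * z ^ (α * n0 * d * den) = zM ^ d := by
      apply Subtype.ext
      rw [hzM]
      push_cast
      rw [hh']
      ring
    rw [map_pow, P.ord_pow, e1, P.ord_pow, hr]
    have hr0 : (0 : ℤ) ≤ r := Nat.cast_nonneg _
    have h2 := mul_le_mul_of_nonneg_left h1 hr0
    push_cast
    linarith

end

end Pool.Agent.T2h12.OM
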