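import Pool.Agent.T2h12.OM.L
import Pool.Agent.T2h12.OM.Defs
import Pool.Agent.N110.QPull

/-!
The comparison of the pluricanonical sections for a correspondence.
-/

set_option autoImplicit false
set_option linter.overlappingInstances false
set_option linter.unusedSectionVars false

open Filter FF Module Pool.Agent.N110 Pool.Agent.R887 Pool.Agent.Y172
open Pool.Agent.W602.GT Pool.Agent.W603.LV Pool.Agent.Y191 Pool.Agent.W619.PQ
open Pool.Agent.T2H06.DYL (IsDivisor IsSec NumLt)

namespace Pool.Agent.T2h12.OM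

section

variable {K K' : Type} [Field K] [Algebra ℂ K] [Field K'] [Algebra ℂ K'] {N n : ℕ}
  {y : Fin (N + 1) → K}

/-- **The order of a form in comparison with a pulled back frame.** -/
theorem push_ord' (hy : NormalModel y) (hess' : Algebra.EssFiniteType ℂ K') (hn : Algebra.trdeg ℂ K = n)
    (hn' : Algebra.trdeg ℂ K' = n) (φ : K →ₐ[ℂ] K') {x : Fin n → K}
    {E : Fin n → Derivation ℂ K K} (hE : ∀ i j, E i (x j) = if i = j then 1 else 0)
    (hfr : IsFrame E) {c : Place ℂ K → ℤ} (hc : IsDisc y E c) {x' : Fin n → K'}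
    {E' : Fin n → Derivation ℂ K' K'} (hx' : IsTranscendenceBasis ℂ x')
    (hE' : ∀ i j, E' i (x' j) = if i = j then 1 else 0) {P : Place ℂ K}
    (hP : IsPrimeDivisor y P) {Q : Place ℂ K'} {e : ℕ} (hQ : LiesOver φ Q P e) {m : ℕ} {g : K'}
    (hg : g ≠ 0) {k : ℚ} (hk : OrdGe Q (frm x' m g) k) :
    k + m - e * m - e * m * c P ≤ Q.ord (g / jac φ x E' ^ m) := by
  classical
  have hess := hy.ess
  let _ : Algebra K K' := φ.toRingHom.toAlgebra
  have hst : IsScalarTower ℂ K K' :=
    IsScalarTower.of_algebraMap_eq fun c => (φ.commutes c).symm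
  have hfd : FiniteDimensional K K' := finite_map hn hn'
  have hov : Over Q P e := hQ
  have hPd : Divisorial n P := hP.divisorial hy hn
  have hQd : Divisorial n Q := divisorial_up hov hPd
  obtain ⟨xP, EP, i0, hl⟩ := exists_loc hn hPd
  choose EL hEL using fun i => exists_lift (L := K') hn (EP i)
  have h1 := down_ge hn' hov hQd hl hEL (frm_pluri x' m g) (c := (k : ℝ)) (fun G hG =>
    (hk G hG).imp_right fun h => by exact_mod_cast h)
  obtain ⟨δ, hδ⟩ : ∃ δ : K, δ = (Matrix.of fun i j => EP i (x j)).det := ⟨_, rfl⟩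
  have hδ0 : δ ≠ 0 := by
    have hfl : IsFrame EP := fun F => ⟨fun j => F (xP j),
      (Pool.Agent.W73.PG.PULL.expand xP hl.bas EP hl.dual F).symm⟩
    rw [hδ]
    choose a ha using fun i => hfl (E i)
    have h2 : Matrix.of a * (Matrix.of fun i j => EP i (x j)) = 1 := by
      ext i j
      rw [Matrix.mul_apply, Matrix.one_apply]
      have h3 := hE i j
      rw [ha i, sum_smul_apply] at h3
      exact h3
    intro h0
    have h3 := congrArg Matrix.det h2
    rw [Matrix.det_mul, h0, mul_zero, Matrix.det_one] at h3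
    exact zero_ne_one h3
  have hdet : (Matrix.of fun i j => EL i (φ (x j))).det = φ δ := by
    rw [hδ]
    have h2 : (Matrix.of fun i j => EL i (φ (x j))) =
        φ.toRingHom.mapMatrix (Matrix.of fun i j => EP i (x j)) := by
      ext i j
      exact hEL i (x j)
    rw [h2]
    exact (RingHom.map_det φ.toRingHom _).symm
  have hchain : (Matrix.of fun i j => EL i (φ (x j))) =
      (Matrix.of fun i j => EL i (x' j)) * (Matrix.of fun i j => E' i (φ (x j))) := by
    ext i j
    rw [Matrix.mul_apply]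
    have h2 := (Pool.Agent.W73.PG.PULL.expand x' hx' E' hE' (EL i))
    have h3 : EL i (φ (x j)) = (∑ l, EL i (x' l) • E' l) (φ (x j)) := by rw [h2]
    rw [sum_smul_apply] at h3
    exact h3
  rw [hchain, Matrix.det_mul] at hdet
  change (Matrix.of fun i j => EL i (x' j)).det * jac φ x E' = φ δ at hdet
  have hφδ : φ δ ≠ 0 := by rwa [Ne, map_eq_zero]
  have hj0 : jac φ x E' ≠ 0 := by
    intro h0
    rw [h0, mul_zero] at hdet
    exact hφδ hdet.symm
  obtain ⟨z, hz⟩ : ∃ z : K', z = g / jac φ x E' ^ m := ⟨_, rfl⟩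
  have hz0 : z ≠ 0 := by rw [hz]; exact div_ne_zero hg (pow_ne_zero _ hj0)
  have hW : frm x' m g EL = φ δ ^ m * z := by
    unfold frm
    rw [hz, ← hdet, mul_pow]
    field_simp
  rw [← hz]
  rw [hW] at h1
  have h2 := h1.resolve_left (mul_ne_zero (pow_ne_zero _ hφδ) hz0)
  rw [Q.ord_mul (pow_ne_zero _ hφδ) hz0, Q.ord_pow, hQ.2] at h2
  -- the order of `δ`
  have h3 : P.ord δ ≤ c P := by
    have h4 : OrdGe P (frm x 1 (1 : K)) (P.ord δ) := by
      intro D hD
      have h5 := pluri_coord hl.bas hl.dual (frm_pluri x 1 (1 : K)) D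
      have h6 : frm x 1 (1 : K) EP = δ := by
        unfold frm
        rw [pow_one, mul_one, hδ]
      rw [h6, pow_one] at h5
      have h7 : Ge P 0 (Matrix.of fun i j => D i (xP j)).det := by
        refine ge_det P _ fun i j => ?_
        exact hD i _ (hl.reg j)
      rcases h7 with h7 | h7
      · left
        rw [h5, h7, zero_mul]
      · by_cases h8 : (Matrix.of fun i j => D i (xP j)).det = 0
        · left
          rw [h5, h8, zero_mul]
        right
        rw [h5, P.ord_mul h8 hδ0]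
        push_cast
        have h9 : (0 : ℚ) ≤ P.ord (Matrix.of fun i j => D i (xP j)).det := by exact_mod_cast h7
        linarith
    have h5 := (hc P hP 1 _ (frm_pluri x 1 (1 : K)) _).1 h4
    rw [frm_self hE] at h5
    have h6 := h5.resolve_left one_ne_zero
    rw [P.ord_one] at h6
    push_cast at h6
    rw [one_mul, add_zero] at h6
    exact_mod_cast h6
  have h4 : (k : ℝ) + m - e * m ≤ m * (e * P.ord δ) + Q.ord z := by
    push_cast at h2
    linarith
  have h5 : k + m - e * m ≤ m * (e * P.ord δ) + Q.ord z := by exact_mod_cast h4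
  have h6 : (P.ord δ : ℚ) ≤ c P := by exact_mod_cast h3
  have h7 : (m : ℚ) * (e * P.ord δ) ≤ e * m * c P := by
    have h8 := mul_le_mul_of_nonneg_left h6 (show (0 : ℚ) ≤ m * e by positivity)
    linarith
  linarith


/-- the form which is pulled back, in terms of a frame -/
theorem pull_frm (hn' : Algebra.trdeg ℂ K' = n) [Algebra K K'] [IsScalarTower ℂ K K']
    {x : Fin n → K} {E : Fin n → Derivation ℂ K K} {x' : Fin n → K'}
    {E' : Fin n → Derivation ℂ K' K'} (hx' : IsTranscendenceBasis ℂ x')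
    (hE' : ∀ i j, E' i (x' j) = if i = j then 1 else 0) (m : ℕ)
    (ω : (Fin n → Derivation ℂ K K) → K) (D : Fin n → Derivation ℂ K' K') :
    pull K' x E m ω D = frm x' m
      ((Matrix.of fun i j => E' i (algebraMap K K' (x j))).det ^ m * algebraMap K K' (ω E)) D := by
  have hchain : (Matrix.of fun i j => D i (algebraMap K K' (x j))) =
      (Matrix.of fun i j => D i (x' j)) *
        (Matrix.of fun i j => E' i (algebraMap K K' (x j))) := by
    ext i j
    rw [Matrix.mul_apply]
    have h2 := (Pool.Agent.W73.PG.PULL.expand x' hx' E' hE' (D i))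
    have h3 : D i (algebraMap K K' (x j)) = (∑ l, D i (x' l) • E' l) (algebraMap K K' (x j)) := by
      rw [h2]
    rw [sum_smul_apply] at h3
    exact h3
  unfold pull frm
  rw [hchain, Matrix.det_mul, mul_pow]
  ring

/-- **The order of the pull back of a section.** -/
theorem pull_ordge (hy : NormalModel y) (hess' : Algebra.EssFiniteType ℂ K')
    (hn : Algebra.trdeg ℂ K = n) (hn' : Algebra.trdeg ℂ K' = n) (ψ : K →ₐ[ℂ] K') {x : Fin n → K}
    {E : Fin n → Derivation ℂ K K} (hx : IsTranscendenceBasis ℂ x)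
    (hE : ∀ i j, E i (x j) = if i = j then 1 else 0) {x' : Fin n → K'}
    {E' : Fin n → Derivation ℂ K' K'} (hx' : IsTranscendenceBasis ℂ x')
    (hE' : ∀ i j, E' i (x' j) = if i = j then 1 else 0) {Q : Place ℂ K'} {P : Place ℂ K}
    {e : ℕ} (hQ : LiesOver ψ Q P e) (hPd : Divisorial n P) {m : ℕ} {v : K} {k : ℚ}
    (hk : OrdGe P (frm x m v) k) :
    OrdGe Q (frm x' m (jac ψ x E' ^ m * ψ v)) (m * (e - 1) + e * k) := by
  classical
  have hess := hy.ess
  let _ : Algebra K K' := ψ.toRingHom.toAlgebra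
  have hst : IsScalarTower ℂ K K' :=
    IsScalarTower.of_algebraMap_eq fun c => (ψ.commutes c).symm
  have hfd : FiniteDimensional K K' := finite_map hn hn'
  have hov : Over Q P e := hQ
  have h3 : OrdGe P (frm x m v) (⌈k⌉ : ℤ) := by
    intro E'' hE''
    refine (hk E'' hE'').imp_right fun h => ?_
    have h4 := Int.ceil_le.2 h
    exact_mod_cast h4
  intro D hD
  have h4 := pull_ord (K' := K') hn hx hE hov hPd (frm_pluri x m v) h3 hD
  rw [pull_frm hn' hx' hE'] at h4
  rw [frm_self hE m v] at h4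
  have h5 : jac ψ x E' = (Matrix.of fun i j => E' i (algebraMap K K' (x j))).det := rfl
  rw [h5]
  refine h4.imp_right fun h6 => ?_
  have h7 : ((m * (e - 1) + e * ⌈k⌉ : ℤ) : ℚ) ≤ Q.ord (frm x' m
      ((Matrix.of fun i j => E' i (algebraMap K K' (x j))).det ^ m * algebraMap K K' v) D) := by
    exact_mod_cast h6
  refine le_trans ?_ h7
  have h8 := Int.le_ceil k
  have h9 := mul_le_mul_of_nonneg_left h8 (show (0 : ℚ) ≤ e from Nat.cast_nonneg _)
  push_cast
  linarith

/-- the orders of functions on the correspondence are bounded by a divisor on the source -/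
theorem pole_eff (hy : NormalModel y) (hess' : Algebra.EssFiniteType ℂ K')
    (hn : Algebra.trdeg ℂ K = n) (hn' : Algebra.trdeg ℂ K' = n) (p : K →ₐ[ℂ] K') {ι : Type}
    [Fintype ι] (z : ι → K') (hz : ∀ j, z j ≠ 0) : ∃ A' : Place ℂ K → ℚ, Effective y A' ∧
      (∀ P, ∃ z : ℤ, A' P = z) ∧ ∀ P, IsPrimeDivisor y P → ∀ (Q : Place ℂ K') (e : ℕ),
        LiesOver p Q P e → ∀ j, (Q.ord (z j) : ℚ) ≤ e * A' P := by
  classical
  have hess := hy.ess
  let _ : Algebra K K' := p.toRingHom.toAlgebra
  have hst : IsScalarTower ℂ K K' :=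
    IsScalarTower.of_algebraMap_eq fun c => (p.commutes c).symm
  have hfd : FiniteDimensional K K' := finite_map hn hn'
  obtain ⟨A', hA'⟩ : ∃ A' : Place ℂ K → ℚ, A' = fun P => ∑ j,
      ∑ i ∈ Finset.range ((minpoly K (z j)⁻¹).natDegree + 1),
        |(P.ord ((minpoly K (z j)⁻¹).coeff i) : ℚ)| := ⟨_, rfl⟩
  have hA'e : Effective y A' := by
    refine ⟨fun P _ => ?_, ?_⟩
    · rw [hA']
      exact Finset.sum_nonneg fun _ _ => Finset.sum_nonneg fun _ _ => abs_nonneg _
    · have hfin : ∀ (j : ι) (i : ℕ),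
          {P | IsPrimeDivisor y P ∧ P.ord ((minpoly K (z j)⁻¹).coeff i) ≠ 0}.Finite := by
        intro j i
        by_cases h0 : (minpoly K (z j)⁻¹).coeff i = 0
        · refine Set.finite_empty.subset ?_
          rintro P ⟨-, h⟩
          rw [h0, P.ord_zero] at h
          exact h rfl
        · exact finite_ord hy h0
      refine (Set.finite_iUnion fun j => ((Finset.range
        ((minpoly K (z j)⁻¹).natDegree + 1)).finite_toSet.biUnion fun i _ =>
          hfin j i)).subset ?_
      rintro P ⟨hP, h0⟩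
      by_contra hcon
      simp only [Set.mem_iUnion, not_exists] at hcon
      apply h0
      rw [hA']
      refine Finset.sum_eq_zero fun j _ => Finset.sum_eq_zero fun i hi => ?_
      have h1 : P.ord ((minpoly K (z j)⁻¹).coeff i) = 0 := by
        by_contra h2
        exact hcon j i (by exact_mod_cast hi) ⟨hP, h2⟩
      rw [h1]
      simp
  refine ⟨A', hA'e, fun P => ?_, fun P hP Q e hQ j => ?_⟩
  · rw [hA']
    refine ⟨∑ j, ∑ i ∈ Finset.range ((minpoly K (z j)⁻¹).natDegree + 1),
        |P.ord ((minpoly K (z j)⁻¹).coeff i)|, ?_⟩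
    push_cast
    rfl
  · have hov : Over Q P e := hQ
    obtain ⟨i', hi'1, hi'2, hne, hle⟩ := ord_root (K := K) Q (inv_ne_zero (hz j))
    have h5 : (|(P.ord ((minpoly K (z j)⁻¹).coeff
        ((minpoly K (z j)⁻¹).natDegree - i')) : ℚ)|) ≤ A' P := by
      rw [hA']
      refine (Finset.single_le_sum (f := fun i =>
        |(P.ord ((minpoly K (z j)⁻¹).coeff i) : ℚ)|) (fun _ _ => abs_nonneg _)
        (Finset.mem_range.2 (by omega : (minpoly K (z j)⁻¹).natDegree - i' <
          (minpoly K (z j)⁻¹).natDegree + 1))).trans ?_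
      exact Finset.single_le_sum (f := fun j => ∑ i ∈ Finset.range
        ((minpoly K (z j)⁻¹).natDegree + 1), |(P.ord ((minpoly K (z j)⁻¹).coeff i) : ℚ)|)
        (fun _ _ => Finset.sum_nonneg fun _ _ => abs_nonneg _) (Finset.mem_univ j)
    rw [hov.2, Q.ord_inv] at hle
    have h6 : ((e * P.ord ((minpoly K (z j)⁻¹).coeff
        ((minpoly K (z j)⁻¹).natDegree - i')) : ℤ) : ℚ) ≤
        ((i' * -Q.ord (z j) : ℤ) : ℚ) := by exact_mod_cast hle
    push_cast at h6
    have he0 : (0 : ℚ) ≤ e := Nat.cast_nonneg _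
    have h7 := mul_le_mul_of_nonneg_left h5 he0
    have h8 := mul_le_mul_of_nonneg_left (neg_abs_le (P.ord ((minpoly K (z j)⁻¹).coeff
        ((minpoly K (z j)⁻¹).natDegree - i')) : ℚ)) he0
    have hi'r : (1 : ℚ) ≤ i' := by exact_mod_cast hi'1
    have h9 : (0 : ℚ) ≤ e * A' P := mul_nonneg he0 (hA'e.1 P hP)
    by_cases h10 : (Q.ord (z j) : ℚ) ≤ 0
    · linarith
    · push Not at h10
      nlinarith

/-- **The comparison of the sections of `m (K + Δ)`.** -/
theorem cpull_can (hy : NormalModel y) (hess' : Algebra.EssFiniteType ℂ K')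
    (hn : Algebra.trdeg ℂ K = n) (hn' : Algebra.trdeg ℂ K' = n) {Δ : Place ℂ K → ℚ}
    {p q : K →ₐ[ℂ] K'} (hpq : CorrLe y n Δ p q) {x : Fin n → K}
    {E : Fin n → Derivation ℂ K K} (hx : IsTranscendenceBasis ℂ x)
    (hE : ∀ i j, E i (x j) = if i = j then 1 else 0) (hfr : IsFrame E) {c : Place ℂ K → ℤ}
    (hc : IsDisc y E c) : CPull y (fun P => c P + Δ P) p q 1 1 := by
  classical
  have hess := hy.ess
  intro A hA
  obtain ⟨x', E', hx', hE'⟩ := exists_crd hn' (k := ℂ) (K := K')
  have hfr' : IsFrame E' := fun F => ⟨fun j => F (x' j),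
    (Pool.Agent.W73.PG.PULL.expand x' hx' E' hE' F).symm⟩
  choose s hsc hs0 hs using fun j => disc_bound2 (Δ := Δ) (n := n) hy hA hfr j
  obtain ⟨A', hA', hA'n, hA'b⟩ := pole_eff hy hess' hn hn' p (fun j => q (s j))
    (fun j => by rw [Ne, map_eq_zero]; exact hs0 j)
  have hjp : jac p x E' ≠ 0 := by
    let _ : Algebra K K' := p.toRingHom.toAlgebra
    have hst : IsScalarTower ℂ K K' :=
      IsScalarTower.of_algebraMap_eq fun c => (p.commutes c).symm
    have hfd : FiniteDimensional K K' := finite_map hn hn'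
    exact pull_ne hn hE hfr'
  have hjq : jac q x E' ≠ 0 := by
    let _ : Algebra K K' := q.toRingHom.toAlgebra
    have hst : IsScalarTower ℂ K K' :=
      IsScalarTower.of_algebraMap_eq fun c => (q.commutes c).symm
    have hfd : FiniteDimensional K K' := finite_map hn hn'
    exact pull_ne hn hE hfr'
  refine ⟨A', hA', hA'n, fun k _ => ⟨1, jac q x E' / jac p x E', 1, le_rfl,
    div_ne_zero hjq hjp, one_ne_zero, fun m b hm _ v hv hv0 P hP Q e hQ => ?_⟩⟩
  have hPd : Divisorial n P := hP.divisorial hy hn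
  have hQd : Divisorial n Q := by
    let _ : Algebra K K' := p.toRingHom.toAlgebra
    have hst : IsScalarTower ℂ K K' :=
      IsScalarTower.of_algebraMap_eq fun c => (p.commutes c).symm
    have hfd : FiniteDimensional K K' := finite_map hn hn'
    have hov : Over Q P e := hQ
    exact divisorial_up hov hPd
  obtain ⟨P', e', hQ', hP'd⟩ : ∃ (P' : Place ℂ K) (e' : ℕ), LiesOver q Q P' e' ∧
      Divisorial n P' := by
    let _ : Algebra K K' := q.toRingHom.toAlgebra
    have hst : IsScalarTower ℂ K K' :=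
      IsScalarTower.of_algebraMap_eq fun c => (q.commutes c).symm
    have hfd : FiniteDimensional K K' := finite_map hn hn'
    exact ⟨bel K Q, ram K Q, over_bel K Q, divisorial_down (over_bel K Q) hQd⟩
  obtain ⟨α, hα, hα1⟩ := hpq P hP Q e hQ P' e' hQ'
  obtain ⟨j, hj⟩ := exists_centred hy P'
  have hsec : IsSection y n m (m • Δ + b • A) (frm x m v) := by
    rw [isSection_iff hc (frm_pluri x m v), frm_self hE]
    intro P1 hP1
    refine (hv P1 hP1).imp_right fun h => ?_
    rw [Pi.add_apply, Pi.smul_apply, Pi.smul_apply, nsmul_eq_mul, nsmul_eq_mul, Pi.zero_apply,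
      Int.cast_zero, mul_zero, zero_add] at h
    rw [Pi.add_apply, Pi.smul_apply, Pi.smul_apply, nsmul_eq_mul, nsmul_eq_mul]
    linarith
  have h2 := hs j P' hj α hα m b hm _ hsec
  have h3 := pull_ordge hy hess' hn hn' q hx hE hx' hE' hQ' hP'd h2
  have hg0 : jac q x E' ^ m * q v ≠ 0 := mul_ne_zero (pow_ne_zero _ hjq)
    (by rwa [Ne, map_eq_zero])
  have h4 := push_ord' hy hess' hn hn' p hE hfr hc hx' hE' hP hQ hg0 h3
  have hqv : q v ≠ 0 := by rwa [Ne, map_eq_zero]
  rw [Q.ord_div hg0 (pow_ne_zero _ hjp), Q.ord_mul (pow_ne_zero _ hjq) hqv, Q.ord_pow,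
    Q.ord_pow] at h4
  rw [Q.ord_div hjq hjp, Q.ord_one]
  have h5 := hA'b P hP Q e hQ j
  have h6 : Q.ord (q (s j)) = e' * P'.ord (s j) := hQ'.2 _
  rw [h6] at h5
  have hm0 : (0 : ℚ) ≤ m := Nat.cast_nonneg _
  have hb0 : (0 : ℚ) ≤ b := Nat.cast_nonneg _
  have h7 := mul_le_mul_of_nonneg_left hα1 hm0
  have h8 := mul_le_mul_of_nonneg_left h5 hb0
  push_cast at h4 h8 ⊢
  linarith

end

end Pool.Agent.T2h12.OM
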