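import Pool.Agent.T2h12.Rnd

/-!
The plateau theorem for the means over the words, for abstract systems.
-/

set_option autoImplicit false
set_option linter.overlappingInstances false
set_option linter.unusedSectionVars false

open Multiset Filter Topology Pool.Agent.N110
open scoped ENNReal

namespace Pool.Agent.T2h12

variable {α 𝒜 : Type*}

/-- **The plateau theorem.** -/
theorem SysC.plateau {n : ℕ} {t : Multiset α → ℝ} {W : ℕ → Set (α → α)} {H : α} {m : ℕ → ℝ}
    {M : 𝒜 → ℕ → α} {D : α → ℕ → α} {ν ν' : ℕ} {c ε C₁ : ℝ} (data : SysC n t W H m M D ν' c ε C₁)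
    (h𝒜 : Nonempty 𝒜) (hνν' : ν ≤ ν') {d : ℕ} {w : Fin d → ℝ}
    (hw : ∀ i, 0 ≤ w i) (hw1 : ∑ i, w i = 1) {s : ℝ} (hs : 0 ≤ s)
    {Fw : ∀ l, (Fin l → Fin d) → α → α} (hFW : ∀ l v, Fw l v ∈ W l)
    (hFap : ∀ l k (u : Fin l → Fin d) (v : Fin k → Fin d), Fw (l + k) (Fin.append u v) =
      Fw l u ∘ Fw k v) {md : ℕ → ℕ → ℝ} {rd : ℕ → ℝ≥0∞}
    (hmd : ∀ p, p ≤ n → ∀ l, md p l = if s = 0 then ∏ v : Fin l → Fin d,
        (t (replicate p (Fw l v H) + replicate (n - p) H)) ^ (∏ i, w (v i))
      else (∑ v : Fin l → Fin d, (∏ i, w (v i)) *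
        (t (replicate p (Fw l v H) + replicate (n - p) H)) ^ s) ^ (1 / s))
    (hrd : ∀ p, p ≤ n → rd p = Filter.limsup (fun l : ℕ => ENNReal.ofReal (md p l) ^ (1 / (l : ℝ)))
      Filter.atTop) :
    ∃ j, j + ν ≤ n ∧ ∀ a ≤ ν, ∀ p ≤ n, rd p ≤ rd (j + a) := by
  classical
  by_contra hcon
  push Not at hcon
  obtain ⟨p0, hp0, hmax⟩ := Finset.exists_max_image (Finset.range (n + 1))
    (fun p => rd p) ⟨0, by simp⟩
  rw [Finset.mem_range] at hp0
  have hcon' : ∀ j, j + ν ≤ n → ∃ a ≤ ν, rd (j + a) < rd p0 := by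
    intro j hj
    obtain ⟨a, ha, p, hp, hlt⟩ := hcon j hj
    exact ⟨a, ha, hlt.trans_le (hmax p (Finset.mem_range.2 (by omega)))⟩
  have hν'n := data.hν
  choose a ha halt using hcon'
  obtain ⟨B, hB⟩ : ∃ B : ℝ≥0∞, B = (Finset.range (n + 1)).sup fun j =>
      if hj : j + ν ≤ n then rd (j + a j hj) else 0 := ⟨_, rfl⟩
  have hBlt : B < rd p0 := by
    rw [hB, Finset.sup_lt_iff]
    · intro j _
      split_ifs with hj
      · exact halt j hj
      · exact zero_le.trans_lt (halt 0 (by omega))
    · exact zero_le.trans_lt (halt 0 (by omega))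
  obtain ⟨L, hL1, hL2⟩ := ENNReal.lt_iff_exists_nnreal_btwn.1 hBlt
  obtain ⟨L', hL3, hL4⟩ := ENNReal.lt_iff_exists_nnreal_btwn.1 hL2
  have hL0 : (0 : ℝ) < L := by
    have : (0 : ℝ≥0∞) < L := zero_le.trans_lt hL1
    exact_mod_cast this
  have hLL' : (L : ℝ) < L' := by exact_mod_cast hL3
  have hL'0 : (0 : ℝ) < L' := hL0.trans hLL'
  have hdpos : ∀ p, p ≤ n → ∀ l (v : Fin l → Fin d),
      0 < t (replicate p (Fw l v H) + replicate (n - p) H) := fun p hp l v =>
    data.pos _ (by rw [Multiset.card_add, Multiset.card_replicate, Multiset.card_replicate]; omega)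
  -- the bounds for the long words
  have hlong : ∀ j (hj : j + ν' ≤ n), ∃ l0 : ℕ, ∀ l, l0 ≤ l →
      md (j + a j (by omega)) l ≤ (L : ℝ) ^ l := by
    intro j hj
    have hj' : j + ν ≤ n := by omega
    have hja : j + a j hj' ≤ n := by
      have := ha j hj'
      omega
    have h3 : rd (j + a j hj') < ENNReal.ofReal L := by
      rw [ENNReal.ofReal_coe_nnreal]
      refine lt_of_le_of_lt ?_ hL1
      rw [hB]
      have h4 := Finset.le_sup (s := Finset.range (n + 1))
        (f := fun j => if hj : j + ν ≤ n then rd (j + a j hj) else 0)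
        (Finset.mem_range.2 (by omega : j < n + 1))
      simp only [dif_pos hj'] at h4
      exact h4
    rw [hrd _ hja] at h3
    obtain ⟨l0, hl0⟩ := ev_of_limsup hL0 h3
    refine ⟨l0, fun l hl => ?_⟩
    exact (ENNReal.ofReal_le_ofReal_iff (by positivity)).1 (hl0 l hl)
  have hfin : ∃ A : ℝ, ∀ l, md p0 l ≤ A * (L' : ℝ) ^ l := by
    have hp0n : p0 ≤ n := by omega
    rcases hs.eq_or_lt with hs0 | hs0
    · -- the geometric mean
      subst hs0
      have hmean : ∀ p, p ≤ n → ∀ l, 0 < md p l ∧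
          Real.log (md p l) = ∑ v : Fin l → Fin d, wt w v *
          Real.log (t (replicate p (Fw l v H) + replicate (n - p) H)) := by
        intro p hp l
        have e1 : md p l = ∏ v : Fin l → Fin d,
            (t (replicate p (Fw l v H) + replicate (n - p) H)) ^ (wt w v) := by
          rw [hmd p hp l, if_pos rfl]
          rfl
        have e2 : ∀ v : Fin l → Fin d,
            0 < (t (replicate p (Fw l v H) + replicate (n - p) H)) ^ (wt w v) := fun v =>
          Real.rpow_pos_of_pos (hdpos p hp l v) _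
        rw [e1]
        refine ⟨Finset.prod_pos fun v _ => e2 v, ?_⟩
        rw [Real.log_prod fun v _ => (e2 v).ne']
        refine Finset.sum_congr rfl fun v _ => ?_
        rw [Real.log_rpow (hdpos p hp l v)]
      obtain ⟨B', hB'⟩ := data.weighted_log h𝒜 hw hw1 hFW hFap hL0 hLL' (by
        intro j hj
        obtain ⟨l0, hl0⟩ := hlong j hj
        refine ⟨a j (by omega), (ha j (by omega)).trans hνν', l0, fun l hl => ?_⟩
        have hja : j + a j (by omega) ≤ n := by
          have := ha j (by omega)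
          omega
        have h5 := hmean _ hja l
        rw [← h5.2]
        have h6 := Real.log_le_log h5.1 (hl0 l hl)
        rwa [Real.log_pow] at h6)
      refine ⟨Real.exp B', fun l => ?_⟩
      have h5 := hmean p0 hp0n l
      have h6 := hB' l p0 hp0n
      beta_reduce at h6
      rw [← h5.2] at h6
      rw [← Real.exp_log h5.1]
      have h7 : Real.exp B' * (L' : ℝ) ^ l = Real.exp (B' + l * Real.log L') := by
        rw [Real.exp_add, Real.exp_nat_mul, Real.exp_log hL'0]
      rw [h7]
      exact Real.exp_le_exp.2 h6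
    · -- the other means
      have hmean : ∀ p, p ≤ n → ∀ l, md p l =
          (∑ v : Fin l → Fin d, wt w v *
            (t (replicate p (Fw l v H) + replicate (n - p) H)) ^ s) ^ (1 / s) := by
        intro p hp l
        rw [hmd p hp l, if_neg hs0.ne']
        rfl
      have hsum0 : ∀ p, p ≤ n → ∀ l, 0 ≤ ∑ v : Fin l → Fin d, wt w v *
          (t (replicate p (Fw l v H) + replicate (n - p) H)) ^ s := fun p hp l =>
        Finset.sum_nonneg fun v _ => mul_nonneg (wt_nonneg hw v)
          (Real.rpow_nonneg (hdpos p hp l v).le s)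
      obtain ⟨A, hA⟩ := data.weighted h𝒜 hw hFW hFap hs0 (L := (L : ℝ) ^ s) (L' := (L' : ℝ) ^ s)
        (Real.rpow_pos_of_pos hL0 s) (Real.rpow_lt_rpow hL0.le hLL' hs0) (by
        intro j hj
        obtain ⟨l0, hl0⟩ := hlong j hj
        refine ⟨a j (by omega), (ha j (by omega)).trans hνν', 1, l0, fun l hl => ?_⟩
        have hja : j + a j (by omega) ≤ n := by
          have := ha j (by omega)
          omega
        have h5 := hl0 l hl
        rw [hmean _ hja l] at h5
        have h6 := Real.rpow_le_rpow (Real.rpow_nonneg (hsum0 _ hja l) _) h5 hs0.le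
        rw [← Real.rpow_mul (hsum0 _ hja l), one_div, inv_mul_cancel₀ hs0.ne',
          Real.rpow_one] at h6
        rw [one_mul]
        refine h6.trans (le_of_eq ?_)
        rw [← Real.rpow_natCast, ← Real.rpow_natCast, ← Real.rpow_mul hL0.le,
          ← Real.rpow_mul hL0.le, mul_comm])
      refine ⟨|A| ^ (1 / s), fun l => ?_⟩
      rw [hmean p0 hp0n l]
      have h5 := hA l p0 hp0n
      beta_reduce at h5
      have h6 : A * ((L' : ℝ) ^ s) ^ l ≤ |A| * ((L' : ℝ) ^ l) ^ s := by
        have e1 : ((L' : ℝ) ^ s) ^ l = ((L' : ℝ) ^ l) ^ s := by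
          rw [← Real.rpow_natCast, ← Real.rpow_natCast, ← Real.rpow_mul hL'0.le,
            ← Real.rpow_mul hL'0.le, mul_comm]
        rw [e1]
        exact mul_le_mul_of_nonneg_right (le_abs_self A) (by positivity)
      have h7 := Real.rpow_le_rpow (hsum0 p0 hp0n l) (h5.trans h6)
        (show 0 ≤ 1 / s by positivity)
      refine h7.trans (le_of_eq ?_)
      rw [Real.mul_rpow (abs_nonneg A) (by positivity), ← Real.rpow_mul (by positivity),
        mul_one_div, div_self hs0.ne', Real.rpow_one]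
  obtain ⟨A, hA⟩ := hfin
  have h3 : rd p0 ≤ ENNReal.ofReal L' := by
    rw [hrd _ (by omega)]
    exact limsup_of_bd (A := A) hL'0 fun l => ENNReal.ofReal_le_ofReal (hA l)
  rw [ENNReal.ofReal_coe_nnreal] at h3
  exact absurd hL4 (not_lt.2 h3)

end Pool.Agent.T2h12
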