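import Pool.Agent.T2h12.OM.J
import Pool.Agent.T2h12.OM.Defs

/-!
The degrees of correspondences as intersection numbers.
-/

set_option autoImplicit false
set_option linter.overlappingInstances false
set_option linter.unusedSectionVars false

open FF Module IntermediateField Pool.Agent.N110 Pool.Agent.R887 Pool.Agent.Y172
open Pool.Agent.W602.GT Pool.Agent.W603.LV Pool.Agent.Y191
open scoped ENNReal

namespace Pool.Agent.T2h12.OM

section

variable {K Ω : Type} [Field K] [Field Ω] [Algebra ℂ K] [Algebra ℂ Ω] [Algebra K Ω]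
  [IsScalarTower ℂ K Ω] {N n : ℕ} {y : Fin (N + 1) → K}

theorem corrField_fg [Algebra.EssFiniteType ℂ K] (g : Ω ≃ₐ[ℂ] Ω) : (corrField K g).FG :=
  fg_sup KO_fg (fg_map KO_fg g)

theorem corrField_adm [Algebra.EssFiniteType ℂ K] (g : Ω ≃ₐ[ℂ] Ω) : Adm K (corrField K g) :=
  ⟨le_sup_left, corrField_fg g⟩

variable [Algebra.IsAlgebraic K Ω]

/-- one of the functions is replaced -/
theorem repl_O (hy : NormalModel y) (hn : Algebra.trdeg ℂ K = n) (V : OCl Ω) {f₀ f₁ : Ω}
    (h0 : f₀ ≠ 0) (hf₀ : f₀ ∈ V.V) (hf₁ : f₁ ∈ V.V) {W : Multiset Ω} (hW : W.card + 1 = n) :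
    ∃ z ∈ V.V, dO K ((f₁ / f₀) ::ₘ W) ≤ dO K (z ::ₘ W) := by
  classical
  have hess := hy.ess
  obtain ⟨M, hM, hMV, hMt⟩ := exists_adm (K := K) {V} W.toFinset
  have hV : InM M V := hMV V (by simp)
  obtain ⟨W', hW'⟩ : ∃ W' : Multiset M, W'.map M.val = W := by
    have key : ∀ W : Multiset Ω, (∀ z ∈ W, z ∈ M) → ∃ W' : Multiset M, W'.map M.val = W := by
      intro W
      induction W using Multiset.induction_on with
      | empty => exact fun _ => ⟨0, rfl⟩
      | cons x W ih =>
        intro h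
        obtain ⟨W', h1⟩ := ih fun z hz => h z (Multiset.mem_cons_of_mem hz)
        refine ⟨⟨x, h x (Multiset.mem_cons_self _ _)⟩ ::ₘ W', ?_⟩
        rw [Multiset.map_cons, h1]
        rfl
    exact key W fun z hz => hMt z (Multiset.mem_toFinset.2 hz)
  have hn' := trdeg_M hn hM
  obtain ⟨S, hS⟩ : ∃ S : Set M, S = {z : M | (z : Ω) ∈ V.V} := ⟨_, rfl⟩
  have hbnd : ∀ f : M, (f : Ω) ∈ V.V → DBnd n ℂ S 1 f := by
    intro f hf P _
    by_cases hf0 : f = 0
    · refine ⟨1, by rw [hS]; exact V.one, one_ne_zero, ?_⟩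
      rw [hf0, P.ord_zero, P.ord_one]
      simp
    · exact ⟨f, by rw [hS]; exact hf, hf0, by simp⟩
  have := ess_M hM
  obtain ⟨v, hv, hle⟩ := repl_inf hn' (S := S) (by rw [hS]; exact V.one) (B := 1)
    (f₀ := (⟨f₀, hV _ hf₀⟩ : M)) (f₁ := (⟨f₁, hV _ hf₁⟩ : M)) (fun h => h0 (by
      have := congrArg (fun x : M => (x : Ω)) h
      exact this)) (hbnd _ hf₀) (hbnd _ hf₁) (W := W') (by
      rw [← hW', Multiset.card_map] at hW
      exact hW)
  have hvV : (v : Ω) ∈ V.V := by
    have h1 : Submodule.span ℂ S ≤ V.V.comap M.val.toLinearMap := by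
      rw [Submodule.span_le, hS]
      intro z hz
      exact hz
    exact h1 hv
  refine ⟨v, hvV, ?_⟩
  have e1 : (f₁ / f₀) ::ₘ W = (((⟨f₁, hV _ hf₁⟩ : M) / (⟨f₀, hV _ hf₀⟩ : M)) ::ₘ W').map M.val := by
    rw [Multiset.map_cons, hW']
    rfl
  have e2 : (v : Ω) ::ₘ W = (v ::ₘ W').map M.val := by
    rw [Multiset.map_cons, hW']
    rfl
  rw [e1, e2, dO_M hM, dO_M hM]
  refine div_le_div_of_nonneg_right ?_ (Nat.cast_nonneg _)
  rw [one_mul] at hle
  exact_mod_cast hle

/-- several functions are replaced -/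
theorem repl_Os (hy : NormalModel y) (hn : Algebra.trdeg ℂ K = n) (V : OCl Ω) (U : Multiset Ω) :
    ∀ W : Multiset Ω, (U + W).card = n →
    (∀ u ∈ U, ∃ f₀ ∈ V.V, ∃ f₁ ∈ V.V, f₀ ≠ 0 ∧ u = f₁ / f₀) →
    ∃ U' : Multiset Ω, SelO U' (Multiset.replicate U.card V) ∧
      dO K (U + W) ≤ dO K (U' + W) := by
  induction U using Multiset.induction_on with
  | empty => exact fun W _ _ => ⟨0, Multiset.Rel.zero, le_rfl⟩
  | cons u U ih =>
    intro W hW hu
    rw [Multiset.cons_add, Multiset.card_cons] at hW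
    obtain ⟨f₀, hf₀, f₁, hf₁, h0, hu1⟩ := hu u (Multiset.mem_cons_self _ _)
    obtain ⟨z, hz, hle⟩ := repl_O hy hn V h0 hf₀ hf₁ hW
    obtain ⟨U', hU', hle'⟩ := ih (z ::ₘ W) (by
      rw [Multiset.add_cons, Multiset.card_cons]
      exact hW) fun u hu' => hu u (Multiset.mem_cons_of_mem hu')
    refine ⟨z ::ₘ U', ?_, ?_⟩
    · rw [Multiset.card_cons, Multiset.replicate_succ]
      exact selO_cons hz hU'
    · rw [Multiset.cons_add, Multiset.cons_add, hu1]
      rw [Multiset.add_cons, Multiset.add_cons] at hle'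
      exact hle.trans hle'

/-- the intersection number is attained -/
theorem exists_sel (hy : NormalModel y) (hn : Algebra.trdeg ℂ K = n) {s : Multiset (OCl Ω)}
    (hs : s.card = n) : ∃ W, SelO W s ∧ dO K W = tO K s := by
  have hess := hy.ess
  obtain ⟨i, hi⟩ := hy.ne
  obtain ⟨M, hM, hMs, -⟩ := exists_adm (K := K) s ∅
  obtain ⟨W, hW, e⟩ := exists_max (ctx_M hy hn hi hM) (s := s.map (clM hy hi hM))
    (by rw [Multiset.card_map, hs])
  refine ⟨W.map M.val, sel_up hy hi hM hMs hW, ?_⟩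
  rw [tO_eq hy hn hi hM hs hMs, dO_M hM, e]

theorem toM_eq_gen {a b : ℕ} (u : Fin a → Ω) (v : Fin b → Ω) :
    gen ℂ (Pool.Agent.N110.toM u + Pool.Agent.N110.toM v) =
      IntermediateField.adjoin ℂ (Set.range u ∪ Set.range v) := by
  unfold gen
  congr 1
  ext x
  change x ∈ Pool.Agent.N110.toM u + Pool.Agent.N110.toM v ↔ _
  rw [Multiset.mem_add, mem_toM, mem_toM]
  rfl

/-- **The degrees of correspondences as intersection numbers.** -/
theorem corrDegree_eq (hy : NormalModel y) (hn : Algebra.trdeg ℂ K = n) {i : Fin (N + 1)}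
    (hi : y i ≠ 0) (g : Ω ≃ₐ[ℂ] Ω) {p : ℕ} (hp : p ≤ n) :
    corrDegree g y n p = ENNReal.ofReal (tO K (Multiset.replicate p (actO g (HO Ω hy hi)) +
      Multiset.replicate (n - p) (HO Ω hy hi))) := by
  classical
  have hess := hy.ess
  have hcard : (Multiset.replicate p (actO g (HO Ω hy hi)) +
      Multiset.replicate (n - p) (HO Ω hy hi)).card = n := by
    rw [Multiset.card_add, Multiset.card_replicate, Multiset.card_replicate]
    omega
  have hadm := corrField_adm (K := K) g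
  have hpos : (0 : ℝ) < relfinrank (KO K Ω) (corrField K g) := by
    exact_mod_cast KO_rel hadm.le hadm.fg
  have key : ∀ (u : Fin p → K) (v : Fin (n - p) → K),
      ((relfinrank (IntermediateField.adjoin ℂ ((Set.range fun a => g (ιO K Ω (u a))) ∪
        Set.range fun b => ιO K Ω (v b))) (corrField K g) : ℝ≥0∞) /
          (relfinrank (KO K Ω) (corrField K g) : ℝ≥0∞)) =
      ENNReal.ofReal (dO K (Pool.Agent.N110.toM (fun a => g (ιO K Ω (u a))) +
        Pool.Agent.N110.toM fun b => ιO K Ω (v b))) := by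
    intro u v
    rw [dO_eq _ hadm.le hadm.fg, ENNReal.ofReal_div_of_pos hpos, ENNReal.ofReal_natCast,
      ENNReal.ofReal_natCast, toM_eq_gen]
    rw [toM_eq_gen, IntermediateField.adjoin_le_iff]
    rintro _ (⟨a, rfl⟩ | ⟨b, rfl⟩)
    · exact (le_sup_right : (KO K Ω).map (g : Ω →ₐ[ℂ] Ω) ≤ corrField K g)
        ⟨ιO K Ω (u a), ⟨u a, rfl⟩, rfl⟩
    · exact (le_sup_left : KO K Ω ≤ corrField K g) ⟨v b, rfl⟩
  refine le_antisymm ?_ ?_
  · unfold corrDegree
    refine iSup_le fun u => iSup_le fun hu => iSup_le fun v => iSup_le fun hv => ?_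
    rw [key]
    refine ENNReal.ofReal_le_ofReal ?_
    obtain ⟨U', hU', h1⟩ := repl_Os hy hn (actO g (HO Ω hy hi))
      (Pool.Agent.N110.toM fun a => g (ιO K Ω (u a))) (Pool.Agent.N110.toM fun b => ιO K Ω (v b))
      (by rw [Multiset.card_add, toM_card, toM_card]; omega) (fun z hz => by
        obtain ⟨a, rfl⟩ := mem_toM.1 hz
        obtain ⟨f₀, hf₀, f₁, hf₁, h0, hu1⟩ := pencil_ratio hi (hu a)
        have hmem : ∀ f ∈ Submodule.span ℂ (affS y i), g (ιO K Ω f) ∈ (actO g (HO Ω hy hi)).V := by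
          intro f hf
          refine mem_actO.2 ⟨ιO K Ω f, ?_, rfl⟩
          have h3 := Submodule.mem_map_of_mem (f := (ιO K Ω).toLinearMap) hf
          rw [Submodule.map_span] at h3
          exact h3
        refine ⟨_, hmem _ hf₀, _, hmem _ hf₁, ?_, ?_⟩
        · rwa [Ne, map_eq_zero, map_eq_zero]
        · rw [hu1, map_div₀, map_div₀])
    rw [toM_card] at hU'
    obtain ⟨V', hV', h2⟩ := repl_Os hy hn (HO Ω hy hi)
      (Pool.Agent.N110.toM fun b => ιO K Ω (v b)) U'
      (by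
        rw [Multiset.card_add, toM_card, selO_card hU', Multiset.card_replicate]
        omega) (fun z hz => by
        obtain ⟨a, rfl⟩ := mem_toM.1 hz
        obtain ⟨f₀, hf₀, f₁, hf₁, h0, hu1⟩ := pencil_ratio hi (hv a)
        have hmem : ∀ f ∈ Submodule.span ℂ (affS y i), ιO K Ω f ∈ (HO Ω hy hi).V := by
          intro f hf
          have h3 := Submodule.mem_map_of_mem (f := (ιO K Ω).toLinearMap) hf
          rw [Submodule.map_span] at h3
          exact h3
        refine ⟨_, hmem _ hf₀, _, hmem _ hf₁, ?_, ?_⟩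
        · rwa [Ne, map_eq_zero]
        · rw [hu1, map_div₀])
    rw [toM_card] at hV'
    rw [add_comm (Pool.Agent.N110.toM fun b => ιO K Ω (v b)) U', add_comm V' U'] at h2
    exact h1.trans (h2.trans (le_tO hy hn hcard (selO_add hU' hV')))
  · obtain ⟨W, hW, e⟩ := exists_sel (K := K) hy hn hcard
    unfold SelO at hW
    rw [Multiset.rel_add_right] at hW
    obtain ⟨W1, W2, h1, h2, rfl⟩ := hW
    have h1' := selO_rep.1 h1
    have h2' := selO_rep.1 h2
    have hl1 : ∀ W : Multiset Ω, (∀ x ∈ W, x ∈ (actO g (HO Ω hy hi)).V) → ∃ U : Multiset K,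
        U.map (fun a => g (ιO K Ω a)) = W ∧ ∀ u ∈ U, u ∈ Submodule.span ℂ (affS y i) := by
      intro W
      induction W using Multiset.induction_on with
      | empty => exact fun _ => ⟨0, rfl, by simp⟩
      | cons x W ih =>
        intro h
        obtain ⟨U, h1, h2⟩ := ih fun z hz => h z (Multiset.mem_cons_of_mem hz)
        obtain ⟨w, hw, hwx⟩ := mem_actO.1 (h x (Multiset.mem_cons_self _ _))
        have h5 : w ∈ Submodule.span ℂ (ιO K Ω '' affS y i) := hw
        have h6 : w ∈ (Submodule.span ℂ (affS y i)).map (ιO K Ω).toLinearMap := by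
          rw [Submodule.map_span]
          exact h5
        obtain ⟨v, hv, hvx⟩ := h6
        refine ⟨v ::ₘ U, ?_, fun u hu => ?_⟩
        · rw [Multiset.map_cons, h1, ← hwx, ← hvx]
          rfl
        · rcases Multiset.mem_cons.1 hu with rfl | hu
          · exact hv
          · exact h2 u hu
    have hl2 : ∀ W : Multiset Ω, (∀ x ∈ W, x ∈ (HO Ω hy hi).V) → ∃ U : Multiset K,
        U.map (ιO K Ω) = W ∧ ∀ u ∈ U, u ∈ Submodule.span ℂ (affS y i) := by
      intro W
      induction W using Multiset.induction_on with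
      | empty => exact fun _ => ⟨0, rfl, by simp⟩
      | cons x W ih =>
        intro h
        obtain ⟨U, h1, h2⟩ := ih fun z hz => h z (Multiset.mem_cons_of_mem hz)
        have h5 : x ∈ Submodule.span ℂ (ιO K Ω '' affS y i) := h x (Multiset.mem_cons_self _ _)
        have h6 : x ∈ (Submodule.span ℂ (affS y i)).map (ιO K Ω).toLinearMap := by
          rw [Submodule.map_span]
          exact h5
        obtain ⟨v, hv, hvx⟩ := h6
        refine ⟨v ::ₘ U, ?_, fun u hu => ?_⟩
        · rw [Multiset.map_cons, h1, ← hvx]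
          rfl
        · rcases Multiset.mem_cons.1 hu with rfl | hu
          · exact hv
          · exact h2 u hu
    obtain ⟨U, hU, hUm⟩ := hl1 W1 h1'.2
    obtain ⟨V, hV, hVm⟩ := hl2 W2 h2'.2
    have hUc : U.card = p := by rw [← h1'.1, ← hU, Multiset.card_map]
    have hVc : V.card = n - p := by rw [← h2'.1, ← hV, Multiset.card_map]
    obtain ⟨u, hu⟩ : ∃ u : Fin p → K, Pool.Agent.N110.toM u = U := by
      obtain ⟨l, rfl⟩ : ∃ l : List K, (l : Multiset K) = U := ⟨U.toList, U.coe_toList⟩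
      have hl : l.length = p := hUc
      subst hl
      refine ⟨fun j => l.get j, ?_⟩
      unfold Pool.Agent.N110.toM
      rw [Fin.univ_val_map, List.ofFn_get]
    obtain ⟨v, hv⟩ : ∃ v : Fin (n - p) → K, Pool.Agent.N110.toM v = V := by
      obtain ⟨l, rfl⟩ : ∃ l : List K, (l : Multiset K) = V := ⟨V.toList, V.coe_toList⟩
      have hl : l.length = n - p := hVc
      rw [← hl]
      refine ⟨fun j => l.get j, ?_⟩
      unfold Pool.Agent.N110.toM
      rw [Fin.univ_val_map, List.ofFn_get]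
    have e1 : W1 + W2 = Pool.Agent.N110.toM (fun a => g (ιO K Ω (u a))) +
        Pool.Agent.N110.toM fun b => ιO K Ω (v b) := by
      rw [← hU, ← hV, ← hu, ← hv]
      unfold Pool.Agent.N110.toM
      rw [Multiset.map_map, Multiset.map_map]
      rfl
    rw [← e, e1, ← key]
    unfold corrDegree
    refine le_iSup_of_le u (le_iSup_of_le (fun a => pencil_span hi (hUm _ ?_))
      (le_iSup_of_le v (le_iSup_of_le (fun b => pencil_span hi (hVm _ ?_)) le_rfl)))
    · rw [← hu]
      exact mem_toM.2 ⟨a, rfl⟩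
    · rw [← hv]
      exact mem_toM.2 ⟨b, rfl⟩

end

end Pool.Agent.T2h12.OM
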