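import Pool.Agent.T2h12.OM.QA
import Pool.Agent.T2h12.OM.QB

/-!
The plateau theorem for random products of correspondences.
-/

set_option autoImplicit false
set_option linter.overlappingInstances false
set_option linter.unusedSectionVars false

open Filter FF Module IntermediateField Pool.Agent.N110 Pool.Agent.R887 Pool.Agent.Y172
open Pool.Agent.W602.GT Pool.Agent.W603.LV Pool.Agent.Y191
open Pool.Agent.T2H06.DYL (IsDivisor IsSec NumLt)
open scoped ENNReal

namespace Pool.Agent.T2h12.OM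

section

variable {K Ω : Type} [Field K] [Field Ω] [Algebra ℂ K] [Algebra ℂ Ω] [Algebra K Ω]
  [IsScalarTower ℂ K Ω] {N n : ℕ} {y : Fin (N + 1) → K} [Algebra.IsAlgebraic K Ω]

/-- the word -/
noncomputable def xw {d : ℕ} (x : Fin d → GG Ω) {l : ℕ} (v : Fin l → Fin d) : GG Ω :=
  (List.ofFn fun i => x (v i)).prod

theorem xw_append {d : ℕ} (x : Fin d → GG Ω) {l k : ℕ} (u : Fin l → Fin d)
    (v : Fin k → Fin d) : xw x (Fin.append u v) = xw x u * xw x v := by
  unfold xw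
  rw [← List.prod_append, ← List.ofFn_fin_append]
  congr 2
  funext i
  refine Fin.addCases (fun i => ?_) (fun i => ?_) i
  · rw [Fin.append_left, Fin.append_left]
  · rw [Fin.append_right, Fin.append_right]

/-- the normalised degree, divided by the power of the factor -/
noncomputable def degX (x : GG Ω) (y : Fin (N + 1) → K) (n p : ℕ) : ℝ :=
  (corrDegree x.1 y n p).toReal / ((x.2 : ℚ) : ℝ) ^ p

theorem degX_eq (hy : NormalModel y) (hn : Algebra.trdeg ℂ K = n) {i : Fin (N + 1)}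
    (hi : y i ≠ 0) (x : GG Ω) {p : ℕ} (hp : p ≤ n) :
    degX x y n p = tS K (Multiset.replicate p (act x ((HO Ω hy hi, 1) : SC Ω)) +
      Multiset.replicate (n - p) ((HO Ω hy hi, 1) : SC Ω)) := by
  have hcard : (Multiset.replicate p (actO x.1 (HO Ω hy hi)) +
      Multiset.replicate (n - p) (HO Ω hy hi)).card = n := by
    rw [Multiset.card_add, Multiset.card_replicate, Multiset.card_replicate]
    omega
  unfold degX tS
  rw [corrDegree_eq hy hn hi x.1 hp, ENNReal.toReal_ofReal (tO_pos hy hn hcard).le,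
    Multiset.map_add, Multiset.map_add, Multiset.map_replicate, Multiset.map_replicate,
    Multiset.map_replicate, Multiset.map_replicate, Multiset.prod_add, Multiset.prod_replicate,
    Multiset.prod_replicate, wt_act, wt_one', one_mul, one_pow, mul_one, div_eq_mul_inv, inv_pow]
  rfl

/-- **The plateau theorem.** -/
theorem word_plateau (hy : NormalModel y) (hn : Algebra.trdeg ℂ K = n) (hn0 : 0 < n)
    {D : Place ℂ K → ℚ} (hD : IsDivisor y D) {d : ℕ} {x : Fin d → GG Ω}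
    (hx : ∀ i, OPull y D (x i) ∧ OPull y D (x i)⁻¹) {w : Fin d → ℝ}
    (hw : ∀ i, 0 ≤ w i) (hw1 : ∑ i, w i = 1) {s : ℝ} (hs : 0 ≤ s) {ν : ℕ} (hν : ν ≤ n)
    (hnum : ¬ NumLt y n D ν) {md : ℕ → ℕ → ℝ} {rd : ℕ → ℝ≥0∞}
    (hmd : ∀ p, p ≤ n → ∀ l, md p l = if s = 0 then ∏ v : Fin l → Fin d,
        (degX (xw x v) y n p) ^ (∏ i, w (v i))
      else (∑ v : Fin l → Fin d, (∏ i, w (v i)) * (degX (xw x v) y n p) ^ s) ^ (1 / s))
    (hrd : ∀ p, p ≤ n → rd p = Filter.limsup (fun l : ℕ => ENNReal.ofReal (md p l) ^ (1 / (l : ℝ)))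
      Filter.atTop) :
    ∃ j, j + ν ≤ n ∧ ∀ a ≤ ν, ∀ p ≤ n, rd p ≤ rd (j + a) := by
  classical
  obtain ⟨i, hi⟩ := hy.ne
  obtain ⟨ν', hν'd⟩ : ∃ ν', ν' = Nat.findGreatest (fun j => ¬ NumLt y n D j) n := ⟨_, rfl⟩
  have hνν' : ν ≤ ν' := by rw [hν'd]; exact Nat.le_findGreatest hν hnum
  have hν' : ν' ≤ n := by rw [hν'd]; exact Nat.findGreatest_le n
  have hnum1 : ¬ NumLt y n D ν' := by
    rw [hν'd]
    exact Nat.findGreatest_spec (P := fun j => ¬ NumLt y n D j) hν hnum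
  have hnum2 : ν' + 1 ≤ n → NumLt y n D (ν' + 1) := by
    intro h
    have h1 := Nat.findGreatest_is_greatest (P := fun j => ¬ NumLt y n D j) (n := n)
      (k := ν' + 1) (by omega) h
    exact not_not.1 h1
  obtain ⟨C₁, hC₁⟩ : ∃ C₁ : ℝ, C₁ = ∑ j, tS K (act (x j) ((HO Ω hy hi, 1) : SC Ω) ::ₘ
      Multiset.replicate (n - 1) ((HO Ω hy hi, 1) : SC Ω)) := ⟨_, rfl⟩
  have hle : ∀ z ∈ Set.range x, tS K (act z ((HO Ω hy hi, 1) : SC Ω) ::ₘ
      Multiset.replicate (n - 1) ((HO Ω hy hi, 1) : SC Ω)) ≤ C₁ := by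
    rintro _ ⟨j, rfl⟩
    rw [hC₁]
    exact Finset.single_le_sum (f := fun j => tS K (act (x j) ((HO Ω hy hi, 1) : SC Ω) ::ₘ
      Multiset.replicate (n - 1) ((HO Ω hy hi, 1) : SC Ω))) (fun j _ => (tS_pos hy hn (by
        rw [Multiset.card_cons, Multiset.card_replicate]
        omega)).le) (Finset.mem_univ j)
  obtain ⟨𝒜, h𝒜, m, M, c, ε, hB⟩ := exists_bsys (K := K) (Ω := Ω) hy hn hn0 hi hD
    (S := Set.range x) (by
      rintro _ ⟨j, rfl⟩
      exact hx j) hle hν' hnum1 hnum2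
  have data := hB.sysC hy hn hi
  refine data.plateau h𝒜 hνν' hw hw1 hs (Fw := fun l v => act (xw x v)) ?_ ?_ (md := md) ?_ hrd
  · intro l v
    refine ⟨List.ofFn fun i => x (v i), List.length_ofFn, fun φ hφ => ?_, rfl⟩
    obtain ⟨i, rfl⟩ := List.mem_ofFn.1 hφ
    exact ⟨v i, rfl⟩
  · intro l k u v
    funext z
    change act (xw x (Fin.append u v)) z = act (xw x u) (act (xw x v) z)
    rw [xw_append, act_mul]
  · intro p hp l
    rw [hmd p hp l]
    simp only [degX_eq hy hn hi _ hp]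

theorem xw_one {d : ℕ} (g : Fin d → (Ω ≃ₐ[ℂ] Ω)) {l : ℕ} (v : Fin l → Fin d) :
    xw (fun i => ((g i, 1) : GG Ω)) v = (corrWord g v, 1) := by
  unfold xw corrWord
  have key : ∀ L : List (Fin d), (L.map fun i => ((g i, 1) : GG Ω)).prod =
      (((L.map g).prod, 1) : GG Ω) := by
    intro L
    induction L with
    | nil => rfl
    | cons a L ih =>
      rw [List.map_cons, List.prod_cons, ih, List.map_cons, List.prod_cons]
      refine Prod.ext rfl ?_
      exact mul_one (1 : PQ)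
  have h1 := key (List.ofFn v)
  rw [List.map_ofFn, List.map_ofFn] at h1
  exact h1

theorem degX_one (g : Ω ≃ₐ[ℂ] Ω) (p : ℕ) :
    degX ((g, 1) : GG Ω) y n p = (corrDegree g y n p).toReal := by
  unfold degX
  change _ / (((1 : ℚ)) : ℝ) ^ p = _
  rw [Rat.cast_one, one_pow, div_one]

/-- **The plateau theorem for random products of crepant correspondences.** -/
theorem corr_plateau (hy : NormalModel y) (hn : Algebra.trdeg ℂ K = n) (hn0 : 0 < n)
    {D : Place ℂ K → ℚ} (hD : IsDivisor y D) {d : ℕ} {g : Fin d → (Ω ≃ₐ[ℂ] Ω)}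
    (hg : ∀ i, OPull y D ((g i, 1) : GG Ω) ∧ OPull y D ((g i, 1) : GG Ω)⁻¹) {w : Fin d → ℝ}
    (hw : ∀ i, 0 ≤ w i) (hw1 : ∑ i, w i = 1) {s : ℝ} (hs : 0 ≤ s) {ν : ℕ} (hν : ν ≤ n)
    (hnum : ¬ NumLt y n D ν) :
    ∃ j, j + ν ≤ n ∧ ∀ a ≤ ν, ∀ p ≤ n, corrRandom g w y n s p ≤ corrRandom g w y n s (j + a) := by
  refine word_plateau hy hn hn0 hD (x := fun i => ((g i, 1) : GG Ω)) hg hw hw1 hs hν hnum
    (md := fun p l => corrMean g w y n s p l) (fun p _ l => ?_) (fun p _ => rfl)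
  unfold corrMean
  simp only [xw_one, degX_one]

end

end Pool.Agent.T2h12.OM
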