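import Pool.Agent.T2h12.OM.QC
import Pool.Agent.T2h12.OM.P

/-!
The plateau theorem for the log canonical divisor and crepant correspondences.
-/

set_option autoImplicit false
set_option linter.overlappingInstances false
set_option linter.unusedSectionVars false

open Filter FF Module IntermediateField Pool.Agent.N110 Pool.Agent.R887 Pool.Agent.Y172
open Pool.Agent.W602.GT Pool.Agent.W603.LV Pool.Agent.Y191
open Pool.Agent.T2H06.DYL (IsDivisor IsSec NumLt)
open scoped ENNReal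

namespace Pool.Agent.T2h12.OM

section

variable {K Ω : Type} [Field K] [Field Ω] [Algebra ℂ K] [Algebra ℂ Ω] [Algebra K Ω]
  [IsScalarTower ℂ K Ω] {N n : ℕ} {y : Fin (N + 1) → K} [Algebra.IsAlgebraic K Ω]

/-- the comparison of sections for an automorphism of `Ω`, from the two comparisons on the
correspondence -/
theorem opull_auto (hy : NormalModel y) (hn : Algebra.trdeg ℂ K = n)
    {D : Place ℂ K → ℚ} (hD : IsDivisor y D) (g : Ω ≃ₐ[ℂ] Ω)
    (h₁ : CPull y D (pr₁ K g) (pr₂ K g) 1 1) (h₂ : CPull y D (pr₂ K g) (pr₁ K g) 1 1) :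
    OPull y D ((g, 1) : GG Ω) ∧ OPull y D ((g, 1) : GG Ω)⁻¹ := by
  have hess := hy.ess
  have hadm := corrField_adm (K := K) g
  have hess' := ess_M hadm
  have hn' := trdeg_M hn hadm
  have e1 : ∀ x : GG Ω, x.2 = 1 → (x.2 : ℚ).num.toNat = 1 ∧ (x.2 : ℚ).den = 1 := by
    intro x hx
    rw [hx]
    exact ⟨rfl, rfl⟩
  constructor
  · refine opull_of_cpull hy hn hD hess' hn' (pr₁ K g) (pr₂ K g) (corrField K g).val
      (fun a => rfl) _ (fun a => rfl) ?_
    rw [(e1 _ rfl).1, (e1 _ rfl).2]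
    exact h₁
  · refine opull_of_cpull hy hn hD hess' hn' (pr₂ K g) (pr₁ K g)
      (((g⁻¹ : Ω ≃ₐ[ℂ] Ω) : Ω →ₐ[ℂ] Ω).comp (corrField K g).val) (fun a => ?_) _ (fun a => ?_) ?_
    · change g⁻¹ (g (ιO K Ω a)) = ιO K Ω a
      exact g.symm_apply_apply _
    · rfl
    · have e2 : (((g, 1) : GG Ω)⁻¹).2 = 1 := inv_one (G := PQ)
      rw [(e1 _ e2).1, (e1 _ e2).2]
      exact h₂

/-- the condition for varieties with canonical singularities -/
theorem corrLe_canonical {L : Type} [Field L] [Algebra ℂ L] (hy : NormalModel y)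
    (hn : Algebra.trdeg ℂ K = n) (hess' : Algebra.EssFiniteType ℂ L)
    (hn' : Algebra.trdeg ℂ L = n) (hcan : Canonical y n) {p : K →ₐ[ℂ] L} (hp : Unram y p)
    (q : K →ₐ[ℂ] L) : CorrLe y n 0 p q := by
  have hess := hy.ess
  intro P hP Q e hQ P' e' hQ'
  have he := hp P hP Q e hQ
  have hQd : Divisorial n Q := by
    let _ : Algebra K L := p.toRingHom.toAlgebra
    have hst : IsScalarTower ℂ K L :=
      IsScalarTower.of_algebraMap_eq fun c => (p.commutes c).symm
    have hfd : FiniteDimensional K L := finite_map hn hn'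
    have hov : Over Q P e := hQ
    exact divisorial_up hov (hP.divisorial hy hn)
  have hP'd : Divisorial n P' := by
    let _ : Algebra K L := q.toRingHom.toAlgebra
    have hst : IsScalarTower ℂ K L :=
      IsScalarTower.of_algebraMap_eq fun c => (q.commutes c).symm
    have hfd : FiniteDimensional K L := finite_map hn hn'
    have hov : Over Q P' e' := hQ'
    exact divisorial_down hov hQd
  obtain ⟨r, hr, η, hη, h1, h2⟩ := hcan P' hP'd
  refine ⟨1, Or.inr ⟨r, hr, η, hη, fun P1 hP1 hT => ?_, ?_⟩, ?_⟩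
  · have h3 := h1 P1 hP1 hT
    rwa [Pi.zero_apply, mul_zero, neg_zero]
  · rwa [sub_self, mul_zero]
  · rw [he, Pi.zero_apply]
    have h3 : (1 : ℚ) ≤ e' := by exact_mod_cast hQ'.1
    push_cast
    linarith

/-- the numerical dimension in terms of rational functions -/
theorem numDimLt_of_numLt {E : Fin n → Derivation ℂ K K} (hfr : IsFrame E) {Δ : Place ℂ K → ℚ}
    {c : Place ℂ K → ℤ} (hc : IsDisc y E c) {ν : ℕ}
    (h : NumLt y n (fun P => c P + Δ P) ν) : NumDimLt y n Δ ν := by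
  intro A hA ε hε
  obtain ⟨t, ht, m₀, hm⟩ := h A hA ε hε
  refine ⟨t, ht, m₀, fun m b hm0 hb u hu ω E' hω h0 => ?_⟩
  have h1 : ∀ i, IsSec y (m • (fun P => c P + Δ P) + b • A) (ω i E) := by
    intro i P hP
    have h2 := (isSection_iff hc (hω i).1).1 (hω i) P hP
    refine h2.imp_right fun h3 => ?_
    rw [Pi.add_apply, Pi.smul_apply, Pi.smul_apply, nsmul_eq_mul, nsmul_eq_mul] at h3 ⊢
    linarith
  have h2 : ∀ i, ω 0 E ≠ 0 ∧ ω i E' / ω 0 E' = ω i E / ω 0 E := fun i =>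
    Pool.Agent.N110.ratio_frame hfr (hω 0).1 (hω i).1 h0
  have h3 := hm m b hm0 hb u hu (fun i => ω i E) h1 (h2 0).1
  have e1 : (fun i : Fin ν => ω i.succ E' / ω 0 E') = fun i : Fin ν => ω i.succ E / ω 0 E :=
    funext fun i => (h2 i.succ).2
  rw [e1]
  exact h3

/-- **The plateau theorem for the log canonical divisor.** -/
theorem can_plateau (hy : NormalModel y) (hn : Algebra.trdeg ℂ K = n) (hn0 : 0 < n)
    {Δ : Place ℂ K → ℚ} (hΔ : IsDivisor y Δ) {d : ℕ} {g : Fin d → (Ω ≃ₐ[ℂ] Ω)}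
    (hg : ∀ i, CorrLe y n Δ (pr₁ K (g i)) (pr₂ K (g i)) ∧
      CorrLe y n Δ (pr₂ K (g i)) (pr₁ K (g i))) {w : Fin d → ℝ}
    (hw : ∀ i, 0 ≤ w i) (hw1 : ∑ i, w i = 1) {s : ℝ} (hs : 0 ≤ s) {ν : ℕ} (hν : ν ≤ n)
    (hnum : ¬ NumDimLt y n Δ ν) :
    ∃ j, j + ν ≤ n ∧ ∀ a ≤ ν, ∀ p ≤ n, corrRandom g w y n s p ≤ corrRandom g w y n s (j + a) := by
  have hess := hy.ess
  obtain ⟨x, E, hx, hE⟩ := exists_crd hn (k := ℂ) (K := K)
  have hfr : IsFrame E := fun F => ⟨fun j => F (x j),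
    (Pool.Agent.W73.PG.PULL.expand x hx E hE F).symm⟩
  obtain ⟨c, hcfin, hc⟩ := exists_ordc hy hn hx hE
  have hD : IsDivisor y (fun P => (c P : ℚ) + Δ P) := by
    refine (hcfin.union hΔ).subset ?_
    rintro P ⟨hP, h0⟩
    by_cases h1 : c P = 0
    · right
      refine ⟨hP, fun h2 => h0 ?_⟩
      simp only []
      rw [h1, h2, Int.cast_zero, add_zero]
    · exact Or.inl ⟨hP, h1⟩
  refine corr_plateau hy hn hn0 hD (fun i => ?_) hw hw1 hs hν
    (fun h => hnum (numDimLt_of_numLt hfr hc h))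
  have hadm := corrField_adm (K := K) (g i)
  exact opull_auto hy hn hD (g i)
    (cpull_can hy (ess_M hadm) hn (trdeg_M hn hadm) (hg i).1 hx hE hfr hc)
    (cpull_can hy (ess_M hadm) hn (trdeg_M hn hadm) (hg i).2 hx hE hfr hc)

end

end Pool.Agent.T2h12.OM
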