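import Pool.Agent.T2h12.OM.QC
import Pool.Agent.T2h12.GrowC

/-!
The plateau theorem for the joint dynamical degrees of sets of correspondences.
-/

set_option autoImplicit false
set_option linter.overlappingInstances false
set_option linter.unusedSectionVars false

open Filter FF Module IntermediateField Pool.Agent.N110 Pool.Agent.R887 Pool.Agent.Y172
open Pool.Agent.W602.GT Pool.Agent.W603.LV Pool.Agent.Y191
open Pool.Agent.T2H06.DYL (IsDivisor IsSec NumLt)
open scoped ENNReal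

namespace Pool.Agent.T2h12

open Multiset in
/-- **The plateau theorem for the maxima.** -/
theorem SysC.joint {α 𝒜 : Type*} {n : ℕ} {t : Multiset α → ℝ} {W : ℕ → Set (α → α)} {H : α}
    {m : ℕ → ℝ} {M : 𝒜 → ℕ → α} {D : α → ℕ → α} {ν ν' : ℕ} {c ε C₁ : ℝ}
    (data : SysC n t W H m M D ν' c ε C₁) (h𝒜 : Nonempty 𝒜) (hνν' : ν ≤ ν')
    {dd : ℕ → ℕ → ℝ≥0∞} {rd : ℕ → ℝ≥0∞}
    (hdd : ∀ p, p ≤ n → ∀ l, dd p l = ⨆ (F : α → α) (_ : F ∈ W l),
      ENNReal.ofReal (t (replicate p (F H) + replicate (n - p) H)))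
    (hrd : ∀ p, p ≤ n → rd p = Filter.limsup (fun l : ℕ => dd p l ^ (1 / (l : ℝ)))
      Filter.atTop) :
    ∃ j, j + ν ≤ n ∧ ∀ a ≤ ν, ∀ p ≤ n, rd p ≤ rd (j + a) := by
  classical
  by_contra hcon
  push Not at hcon
  obtain ⟨p0, hp0, hmax⟩ := Finset.exists_max_image (Finset.range (n + 1))
    (fun p => rd p) ⟨0, by simp⟩
  rw [Finset.mem_range] at hp0
  have hcon' : ∀ j, j + ν ≤ n → ∃ a ≤ ν, rd (j + a) < rd p0 := by
    intro j hj
    obtain ⟨a, ha, p, hp, hlt⟩ := hcon j hj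
    exact ⟨a, ha, hlt.trans_le (hmax p (Finset.mem_range.2 (by omega)))⟩
  have hν'n := data.hν
  choose a ha halt using hcon'
  obtain ⟨B, hB⟩ : ∃ B : ℝ≥0∞, B = (Finset.range (n + 1)).sup fun j =>
      if hj : j + ν ≤ n then rd (j + a j hj) else 0 := ⟨_, rfl⟩
  have hBlt : B < rd p0 := by
    rw [hB, Finset.sup_lt_iff]
    · intro j _
      split_ifs with hj
      · exact halt j hj
      · exact zero_le.trans_lt (halt 0 (by omega))
    · exact zero_le.trans_lt (halt 0 (by omega))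
  obtain ⟨L, hL1, hL2⟩ := ENNReal.lt_iff_exists_nnreal_btwn.1 hBlt
  obtain ⟨L', hL3, hL4⟩ := ENNReal.lt_iff_exists_nnreal_btwn.1 hL2
  have hL0 : (0 : ℝ) < L := by
    have : (0 : ℝ≥0∞) < L := zero_le.trans_lt hL1
    exact_mod_cast this
  have hLL' : (L : ℝ) < L' := by exact_mod_cast hL3
  obtain ⟨A, hA⟩ := data.growth' h𝒜 hL0 hLL' (by
    intro j hj
    have hj' : j + ν ≤ n := by omega
    have hja : j + a j hj' ≤ n := by
      have := ha j hj'
      omega
    have h3 : rd (j + a j hj') < ENNReal.ofReal L := by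
      rw [ENNReal.ofReal_coe_nnreal]
      refine lt_of_le_of_lt ?_ hL1
      rw [hB]
      have h4 := Finset.le_sup (s := Finset.range (n + 1))
        (f := fun j => if hj : j + ν ≤ n then rd (j + a j hj) else 0)
        (Finset.mem_range.2 (by omega : j < n + 1))
      simp only [dif_pos hj'] at h4
      exact h4
    rw [hrd _ hja] at h3
    obtain ⟨l0, hl0⟩ := ev_of_limsup hL0 h3
    refine ⟨a j hj', (ha j hj').trans hνν', 1, l0, fun l hl F hF => ?_⟩
    have h4 := hl0 l hl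
    have h5 : ENNReal.ofReal (t (replicate (j + a j hj') (F H) +
        replicate (n - (j + a j hj')) H)) ≤ dd (j + a j hj') l := by
      rw [hdd _ hja]
      exact le_iSup_of_le F (le_iSup_of_le hF le_rfl)
    have h6 := h5.trans h4
    rw [one_mul]
    exact (ENNReal.ofReal_le_ofReal_iff (by positivity)).1 h6)
  have h3 : rd p0 ≤ ENNReal.ofReal L' := by
    rw [hrd p0 (by omega)]
    refine limsup_of_bd (A := A) (hL0.trans hLL') fun l => ?_
    rw [hdd p0 (by omega)]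
    refine iSup_le fun F => iSup_le fun hF => ?_
    exact ENNReal.ofReal_le_ofReal (hA l F hF p0 (by omega))
  rw [ENNReal.ofReal_coe_nnreal] at h3
  exact absurd hL4 (not_lt.2 h3)

namespace OM

section

variable {K Ω : Type} [Field K] [Field Ω] [Algebra ℂ K] [Algebra ℂ Ω] [Algebra K Ω]
  [IsScalarTower ℂ K Ω] {N n : ℕ} {y : Fin (N + 1) → K}

/-- The `p`-th joint dynamical degree of a set `S` of branches of correspondences: the upper limit,
for `l → ∞`, of the `l`-th root of the greatest of the normalised degrees of the compositions of `l`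
branches in `S`. -/
noncomputable def corrJoint (S : Set (Ω ≃ₐ[ℂ] Ω)) (y : Fin (N + 1) → K) (n p : ℕ) : ℝ≥0∞ :=
  Filter.limsup (fun l : ℕ => (⨆ (w : List (Ω ≃ₐ[ℂ] Ω)) (_ : w.length = l) (_ : ∀ g ∈ w, g ∈ S),
    corrDegree w.prod y n p) ^ (1 / (l : ℝ))) Filter.atTop

variable [Algebra.IsAlgebraic K Ω]

/-- **The plateau theorem for the joint dynamical degrees.** -/
theorem joint_plateau (hy : NormalModel y) (hn : Algebra.trdeg ℂ K = n) (hn0 : 0 < n)
    {D : Place ℂ K → ℚ} (hD : IsDivisor y D) {S : Set (Ω ≃ₐ[ℂ] Ω)}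
    (hg : ∀ g ∈ S, OPull y D ((g, 1) : GG Ω) ∧ OPull y D ((g, 1) : GG Ω)⁻¹) {C : ℕ}
    (hC : ∀ g ∈ S, corrDegree g y n 1 ≤ C) {ν : ℕ} (hν : ν ≤ n) (hnum : ¬ NumLt y n D ν) :
    ∃ j, j + ν ≤ n ∧ ∀ a ≤ ν, ∀ p ≤ n, corrJoint S y n p ≤ corrJoint S y n (j + a) := by
  classical
  obtain ⟨i, hi⟩ := hy.ne
  obtain ⟨ν', hν'd⟩ : ∃ ν', ν' = Nat.findGreatest (fun j => ¬ NumLt y n D j) n := ⟨_, rfl⟩
  have hνν' : ν ≤ ν' := by rw [hν'd]; exact Nat.le_findGreatest hν hnum
  have hν' : ν' ≤ n := by rw [hν'd]; exact Nat.findGreatest_le n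
  have hnum1 : ¬ NumLt y n D ν' := by
    rw [hν'd]
    exact Nat.findGreatest_spec (P := fun j => ¬ NumLt y n D j) hν hnum
  have hnum2 : ν' + 1 ≤ n → NumLt y n D (ν' + 1) := by
    intro h
    have h1 := Nat.findGreatest_is_greatest (P := fun j => ¬ NumLt y n D j) (n := n)
      (k := ν' + 1) (by omega) h
    exact not_not.1 h1
  have hone : ∀ (g : Ω ≃ₐ[ℂ] Ω) (p : ℕ), p ≤ n → ENNReal.ofReal (tS K (Multiset.replicate p
      (act ((g, 1) : GG Ω) ((HO Ω hy hi, 1) : SC Ω)) +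
        Multiset.replicate (n - p) ((HO Ω hy hi, 1) : SC Ω))) = corrDegree g y n p := by
    intro g p hp
    rw [← degX_eq hy hn hi _ hp, degX_one, corrDegree_eq hy hn hi g hp, ENNReal.toReal_ofReal]
    exact (tO_pos hy hn (by
      rw [Multiset.card_add, Multiset.card_replicate, Multiset.card_replicate]
      omega)).le
  obtain ⟨𝒜, h𝒜, m, M, c, ε, hB⟩ := exists_bsys (K := K) (Ω := Ω) hy hn hn0 hi hD
    (S := (fun g => ((g, 1) : GG Ω)) '' S) (C₁ := (C : ℝ)) (by
      rintro _ ⟨g, hgS, rfl⟩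
      exact hg g hgS) (by
      rintro _ ⟨g, hgS, rfl⟩
      have h1 := hC g hgS
      rw [← hone g 1 (by omega), Multiset.replicate_one, Multiset.singleton_add,
        ← ENNReal.ofReal_natCast] at h1
      exact (ENNReal.ofReal_le_ofReal_iff (Nat.cast_nonneg _)).1 h1) hν' hnum1 hnum2
  have data := hB.sysC hy hn hi
  refine data.joint h𝒜 hνν' (dd := fun p l => ⨆ (w : List (Ω ≃ₐ[ℂ] Ω)) (_ : w.length = l)
    (_ : ∀ g ∈ w, g ∈ S), corrDegree w.prod y n p) (fun p hp l => ?_) (fun p _ => rfl)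
  have hprod : ∀ w : List (Ω ≃ₐ[ℂ] Ω), (w.map fun g => ((g, 1) : GG Ω)).prod =
      ((w.prod, 1) : GG Ω) := by
    intro w
    induction w with
    | nil => rfl
    | cons a w ih =>
      rw [List.map_cons, List.prod_cons, ih, List.prod_cons]
      exact Prod.ext rfl (mul_one (1 : PQ))
  refine le_antisymm ?_ ?_
  · refine iSup_le fun w => iSup_le fun hw => iSup_le fun hwS => ?_
    refine le_iSup_of_le (act ((w.prod, 1) : GG Ω)) (le_iSup_of_le
      ⟨w.map fun g => ((g, 1) : GG Ω), by rw [List.length_map, hw], ?_, by rw [hprod]⟩ ?_)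
    · intro x hx
      obtain ⟨g, hgw, rfl⟩ := List.mem_map.1 hx
      exact ⟨g, hwS g hgw, rfl⟩
    · rw [hone _ p hp]
  · refine iSup_le fun F => iSup_le ?_
    rintro ⟨w, hw, hwS, rfl⟩
    have hlift : ∀ w : List (GG Ω), (∀ x ∈ w, x ∈ (fun g => ((g, 1) : GG Ω)) '' S) →
        ∃ w' : List (Ω ≃ₐ[ℂ] Ω), (w'.map fun g => ((g, 1) : GG Ω)) = w ∧ ∀ g ∈ w', g ∈ S := by
      intro w
      induction w with
      | nil => exact fun _ => ⟨[], rfl, by simp⟩
      | cons a w ih =>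
        intro h
        obtain ⟨w', h1, h2⟩ := ih fun x hx => h x (List.mem_cons_of_mem _ hx)
        obtain ⟨g, hgS, hga⟩ := h a List.mem_cons_self
        refine ⟨g :: w', ?_, ?_⟩
        · rw [List.map_cons, h1]
          exact congrArg (fun z => z :: w) hga
        · intro z hz
          rcases List.mem_cons.1 hz with rfl | hz
          · exact hgS
          · exact h2 z hz
    obtain ⟨w', h1, h2⟩ := hlift w hwS
    rw [← h1, hprod, hone _ p hp]
    refine le_iSup_of_le w' (le_iSup_of_le ?_ (le_iSup_of_le h2 le_rfl))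
    rw [← hw, ← h1, List.length_map]

end

end OM

end Pool.Agent.T2h12
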