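import Pool.Agent.T2h12.OM.QD
import Pool.Agent.T2h12.OM.QJ

/-!
The plateau theorem for the joint dynamical degrees of sets of crepant correspondences.
-/

set_option autoImplicit false
set_option linter.overlappingInstances false
set_option linter.unusedSectionVars false

open Filter FF Module IntermediateField Pool.Agent.N110 Pool.Agent.R887 Pool.Agent.Y172
open Pool.Agent.W602.GT Pool.Agent.W603.LV Pool.Agent.Y191
open Pool.Agent.T2H06.DYL (IsDivisor IsSec NumLt)
open scoped ENNReal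

namespace Pool.Agent.T2h12.OM

section

variable {K Ω : Type} [Field K] [Field Ω] [Algebra ℂ K] [Algebra ℂ Ω] [Algebra K Ω]
  [IsScalarTower ℂ K Ω] {N n : ℕ} {y : Fin (N + 1) → K} [Algebra.IsAlgebraic K Ω]

/-- **The plateau theorem for the log canonical divisor**, joint dynamical degrees. -/
theorem can_joint (hy : NormalModel y) (hn : Algebra.trdeg ℂ K = n) (hn0 : 0 < n)
    {Δ : Place ℂ K → ℚ} (hΔ : IsDivisor y Δ) {S : Set (Ω ≃ₐ[ℂ] Ω)}
    (hg : ∀ g ∈ S, CorrLe y n Δ (pr₁ K g) (pr₂ K g) ∧ CorrLe y n Δ (pr₂ K g) (pr₁ K g)) {C : ℕ}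
    (hC : ∀ g ∈ S, corrDegree g y n 1 ≤ C) {ν : ℕ} (hν : ν ≤ n)
    (hnum : ¬ NumDimLt y n Δ ν) :
    ∃ j, j + ν ≤ n ∧ ∀ a ≤ ν, ∀ p ≤ n, corrJoint S y n p ≤ corrJoint S y n (j + a) := by
  have hess := hy.ess
  obtain ⟨x, E, hx, hE⟩ := exists_crd hn (k := ℂ) (K := K)
  have hfr : IsFrame E := fun F => ⟨fun j => F (x j),
    (Pool.Agent.W73.PG.PULL.expand x hx E hE F).symm⟩
  obtain ⟨c, hcfin, hc⟩ := exists_ordc hy hn hx hE
  have hD : IsDivisor y (fun P => (c P : ℚ) + Δ P) := by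
    refine (hcfin.union hΔ).subset ?_
    rintro P ⟨hP, h0⟩
    by_cases h1 : c P = 0
    · right
      refine ⟨hP, fun h2 => h0 ?_⟩
      simp only []
      rw [h1, h2, Int.cast_zero, add_zero]
    · exact Or.inl ⟨hP, h1⟩
  refine joint_plateau hy hn hn0 hD (fun g hgS => ?_) hC hν
    (fun h => hnum (numDimLt_of_numLt hfr hc h))
  have hadm := corrField_adm (K := K) g
  exact opull_auto hy hn hD g
    (cpull_can hy (ess_M hadm) hn (trdeg_M hn hadm) (hg g hgS).1 hx hE hfr hc)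
    (cpull_can hy (ess_M hadm) hn (trdeg_M hn hadm) (hg g hgS).2 hx hE hfr hc)

end

end Pool.Agent.T2h12.OM
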