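import Pool.Agent.T2h12.OM.RDef
import Pool.Agent.T2h12.OM.QD

/-!
The plateau theorem for Cartier divisors which are multiplied by rational numbers by
correspondences.
-/

set_option autoImplicit false
set_option linter.overlappingInstances false
set_option linter.unusedSectionVars false

open Filter FF Module IntermediateField Pool.Agent.N110 Pool.Agent.R887 Pool.Agent.Y172
open Pool.Agent.W602.GT Pool.Agent.W603.LV Pool.Agent.Y191
open Pool.Agent.T2H06.DYL (IsDivisor IsSec NumLt LocalEquation Cartier)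
open scoped ENNReal

namespace Pool.Agent.T2h12.OM

section

variable {K L : Type} [Field K] [Algebra ℂ K] [Field L] [Algebra ℂ L] {N n : ℕ}
  {y : Fin (N + 1) → K}

/-- a function with high orders along an effective divisor -/
theorem exists_high' {A : Place ℂ K → ℚ} (hA : Effective y A) (j : Fin (N + 1)) :
    ∃ s : K, s ≠ 0 ∧ ∀ P, IsPrimeDivisor y P → Centred y j P → A P ≤ (P.ord s : ℚ) := by
  classical
  obtain ⟨s, hs, hs0, hsP⟩ := exists_high (y := y) (j := j)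
    (S := {P | IsPrimeDivisor y P ∧ Centred y j P ∧ A P ≠ 0})
    (hA.2.subset (by
      rintro P ⟨h1, -, h2⟩
      exact ⟨h1, h2⟩)) (fun P hP => hP.2.1) (fun P hP => hP.1) (fun P => ⌈A P⌉₊)
  refine ⟨s, hs0, fun P hP hPc => ?_⟩
  by_cases hAP : A P = 0
  · rw [hAP]
    have := (P.reg_iff hs0).1 (hPc.reg s hs)
    exact_mod_cast this
  · have h6 := hsP P ⟨hP, hPc, hAP⟩
    have h7 : A P ≤ (⌈A P⌉₊ : ℚ) := Nat.le_ceil _
    exact h7.trans (by exact_mod_cast h6)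

/-- the order of a section at a place with a local equation -/
theorem sec_loc (hy : NormalModel y) {D A : Place ℂ K → ℚ} {j : Fin (N + 1)} {s : K}
    (hs0 : s ≠ 0) (hs : ∀ P, IsPrimeDivisor y P → Centred y j P → A P ≤ (P.ord s : ℚ))
    {Q : Place ℂ K} (hQ : Centred y j Q) {r : ℕ} (hr : 1 ≤ r) {g : K}
    (hg : LocalEquation y (r • D) Q g) {m b : ℕ}
    {v : K} (hv0 : v ≠ 0) (hv : v ∈ Lsp y 0 m (m • D + b • A)) :
    -((m : ℤ) * Q.ord g + r * b * Q.ord s) ≤ r * Q.ord v := by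
  have h1 := reg_of_through hy (Q := Q) (f := v ^ r * g ^ m * s ^ (r * b))
    (mul_ne_zero (mul_ne_zero (pow_ne_zero _ hv0) (pow_ne_zero _ hg.1)) (pow_ne_zero _ hs0)) (by
    intro P hP ht
    have h2 := (hv P hP).resolve_left hv0
    have h3 := hg.2 P hP ht
    have h4 := hs P hP (ht.centred hQ)
    rw [Pi.add_apply, Pi.smul_apply, Pi.smul_apply, nsmul_eq_mul, nsmul_eq_mul, Pi.zero_apply,
      Int.cast_zero, mul_zero, zero_add] at h2
    rw [Pi.smul_apply, nsmul_eq_mul] at h3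
    rw [P.ord_mul (mul_ne_zero (pow_ne_zero _ hv0) (pow_ne_zero _ hg.1)) (pow_ne_zero _ hs0),
      P.ord_mul (pow_ne_zero _ hv0) (pow_ne_zero _ hg.1), P.ord_pow, P.ord_pow, P.ord_pow]
    have hr0 : (0 : ℚ) ≤ r := Nat.cast_nonneg _
    have h5 := mul_le_mul_of_nonneg_left h2 hr0
    have h6 := mul_le_mul_of_nonneg_left h4 (show (0 : ℚ) ≤ r * b by positivity)
    have h7 : (0 : ℚ) ≤ r * P.ord v + m * P.ord g + r * b * P.ord s := by
      rw [h3]
      linarith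
    have h8 : (0 : ℤ) ≤ r * P.ord v + m * P.ord g + r * b * P.ord s := by exact_mod_cast h7
    push_cast
    exact h8)
  rw [Q.ord_mul (mul_ne_zero (pow_ne_zero _ hv0) (pow_ne_zero _ hg.1)) (pow_ne_zero _ hs0),
    Q.ord_mul (pow_ne_zero _ hv0) (pow_ne_zero _ hg.1), Q.ord_pow, Q.ord_pow, Q.ord_pow] at h1
  push_cast at h1
  linarith

/-- **The comparison of the sections of `m D`**, for a Cartier divisor `D`. -/
theorem cpull_eigen (hy : NormalModel y) (hess' : Algebra.EssFiniteType ℂ L)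
    (hn : Algebra.trdeg ℂ K = n) (hn' : Algebra.trdeg ℂ L = n) {D : Place ℂ K → ℚ}
    (hcar : Cartier y n D) {p q : K →ₐ[ℂ] L} {lam : PQ} (hpq : CorrPullLe y D p q lam) :
    CPull y D p q (lam : ℚ).num.toNat (lam : ℚ).den := by
  classical
  have hess := hy.ess
  obtain ⟨i, hi⟩ := hy.ne
  obtain ⟨Hy, hHy, hHP⟩ := exists_hyp hy hi
  obtain ⟨num, hnum⟩ : ∃ num, num = (lam : ℚ).num.toNat := ⟨_, rfl⟩
  obtain ⟨den, hden⟩ : ∃ den, den = (lam : ℚ).den := ⟨_, rfl⟩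
  have hden0 : 0 < den := by rw [hden]; exact (lam : ℚ).den_pos
  have hnum0 : 0 < (lam : ℚ).num := Rat.num_pos.2 lam.2
  have hlam : (lam : ℚ) * den = num := by
    have h1 : ((num : ℤ) : ℚ) = (lam : ℚ).num := by
      rw [hnum, Int.toNat_of_nonneg hnum0.le]
    have h2 : (num : ℚ) = (lam : ℚ).num := by exact_mod_cast h1
    rw [h2, hden]
    exact Rat.mul_den_eq_num _
  rw [← hnum, ← hden]
  intro A hA
  choose s hs0 hs using fun j => exists_high' (y := y) hA j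
  obtain ⟨A1, hA1, -, hA1b⟩ := pole_eff hy hess' hn hn' p (fun j => q (s j))
    (fun j => by rw [Ne, map_eq_zero]; exact hs0 j)
  refine ⟨fun P => ((⌈(den : ℚ) * (Hy P + A1 P)⌉ : ℤ) : ℚ), ⟨fun P hP => ?_, ?_⟩,
    fun P => ⟨_, rfl⟩, fun k hk => ?_⟩
  · have h1 := hHy.1 P hP
    have h2 := hA1.1 P hP
    have h3 : (0 : ℤ) ≤ ⌈(den : ℚ) * (Hy P + A1 P)⌉ := Int.ceil_nonneg (by positivity)
    change (0 : ℚ) ≤ ((⌈(den : ℚ) * (Hy P + A1 P)⌉ : ℤ) : ℚ)
    exact_mod_cast h3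
  · refine (hHy.2.union hA1.2).subset ?_
    rintro P ⟨hP, h0⟩
    by_cases h1 : Hy P = 0
    · right
      refine ⟨hP, fun h2 => h0 ?_⟩
      simp only []
      rw [h1, h2]
      simp
    · exact Or.inl ⟨hP, h1⟩
  obtain ⟨a, ha, w, hw, hmain⟩ := hpq i hi k hk
  refine ⟨a * k, w ^ den, 1, Nat.mul_pos ha hk, pow_ne_zero _ hw, one_ne_zero,
    fun m b hm hmb v hv hv0 P hP Q e hQ => ?_⟩
  have hQd : Divisorial n Q := by
    let _ : Algebra K L := p.toRingHom.toAlgebra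
    have hst : IsScalarTower ℂ K L :=
      IsScalarTower.of_algebraMap_eq fun c => (p.commutes c).symm
    have hfd : FiniteDimensional K L := finite_map hn hn'
    have hov : Over Q P e := hQ
    exact divisorial_up hov (hP.divisorial hy hn)
  obtain ⟨P', e', hQ', hP'd⟩ : ∃ (P' : Place ℂ K) (e' : ℕ), LiesOver q Q P' e' ∧
      Divisorial n P' := by
    let _ : Algebra K L := q.toRingHom.toAlgebra
    have hst : IsScalarTower ℂ K L :=
      IsScalarTower.of_algebraMap_eq fun c => (q.commutes c).symm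
    have hfd : FiniteDimensional K L := finite_map hn hn'
    exact ⟨bel K Q, ram K Q, over_bel K Q, divisorial_down (over_bel K Q) hQd⟩
  obtain ⟨g, hg⟩ := hcar P' hP'd
  obtain ⟨l, hl⟩ := exists_centred hy P
  obtain ⟨j, hj⟩ := exists_centred hy P'
  have h1 := sec_loc hy (hs0 j) (hs j) hj (le_refl 1) (g := g) (by rwa [one_smul]) hv0 hv
  have h2 := hmain P hP Q e hQ P' e' hQ' l g hl hg
  have h3 := hA1b P hP Q e hQ j
  have h4 : Q.ord (p (y i / y l)) = e * P.ord (y i / y l) := hQ.2 _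
  have h5 : Q.ord (q (s j)) = e' * P'.ord (s j) := hQ'.2 _
  have h6 : Q.ord (q g) = e' * P'.ord g := hQ'.2 _
  have h7 : Q.ord (q v) = e' * P'.ord v := hQ'.2 _
  have h8 := hHP P l hP hl
  rw [h6, h4] at h2
  rw [h5] at h3
  rw [h7, Q.ord_pow, Q.ord_one]
  have he' : (0 : ℚ) ≤ e' := Nat.cast_nonneg _
  have he : (0 : ℚ) ≤ e := Nat.cast_nonneg _
  have hm0 : (0 : ℚ) ≤ m := Nat.cast_nonneg _
  have hb0 : (0 : ℚ) ≤ b := Nat.cast_nonneg _
  have ha0 : (0 : ℚ) ≤ a := Nat.cast_nonneg _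
  have hk0 : (0 : ℚ) ≤ k := Nat.cast_nonneg _
  have hd0 : (0 : ℚ) ≤ den := Nat.cast_nonneg _
  have h1' : -((m : ℚ) * P'.ord g + b * P'.ord (s j)) ≤ P'.ord v := by
    have : -((m : ℤ) * P'.ord g + b * P'.ord (s j)) ≤ P'.ord v := by
      have := h1
      push_cast at this
      linarith
    exact_mod_cast this
  have h9 : ((⌈(den : ℚ) * (Hy P + A1 P)⌉ : ℤ) : ℚ) ≥ (den : ℚ) * (Hy P + A1 P) := Int.le_ceil _
  have hH0 : (0 : ℚ) ≤ Hy P := hHy.1 P hP
  have hmb' : (m : ℚ) ≤ k * b := by exact_mod_cast hmb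
  push_cast at h2
  rw [← h8] at h2
  -- the products
  have g1 := mul_le_mul_of_nonneg_left h1' (show (0 : ℚ) ≤ a * k * den * e' by positivity)
  have g2 := mul_le_mul_of_nonneg_left h2 (show (0 : ℚ) ≤ m * den by positivity)
  have g3 := mul_le_mul_of_nonneg_left h3 (show (0 : ℚ) ≤ b * a * k * den by positivity)
  have g4 := mul_le_mul_of_nonneg_left h9.le (show (0 : ℚ) ≤ e * a * k * b by positivity)
  have g5 := mul_le_mul_of_nonneg_right hmb' (show (0 : ℚ) ≤ a * den * e * Hy P by positivity)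
  push_cast at g2 g3 ⊢
  have e1 : (m : ℚ) * den * (a * (k * ((lam : ℚ) * (e * D P)) + e * Hy P) + Q.ord w) =
      m * a * k * num * (e * D P) + m * den * a * e * Hy P + m * den * Q.ord w := by
    rw [← hlam]
    ring
  rw [e1] at g2
  linarith

end

section

variable {K Ω : Type} [Field K] [Field Ω] [Algebra ℂ K] [Algebra ℂ Ω] [Algebra K Ω]
  [IsScalarTower ℂ K Ω] {N n : ℕ} {y : Fin (N + 1) → K} [Algebra.IsAlgebraic K Ω]

/-- the comparison of sections for an automorphism of `Ω`, from the two comparisons on the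
correspondence -/
theorem opull_autoL (hy : NormalModel y) (hn : Algebra.trdeg ℂ K = n)
    {D : Place ℂ K → ℚ} (hD : IsDivisor y D) (g : Ω ≃ₐ[ℂ] Ω) (lam : PQ)
    (h₁ : CPull y D (pr₁ K g) (pr₂ K g) (lam : ℚ).num.toNat (lam : ℚ).den)
    (h₂ : CPull y D (pr₂ K g) (pr₁ K g) ((lam⁻¹ : PQ) : ℚ).num.toNat ((lam⁻¹ : PQ) : ℚ).den) :
    OPull y D ((g, lam) : GG Ω) ∧ OPull y D ((g, lam) : GG Ω)⁻¹ := by
  have hess := hy.ess
  have hadm := corrField_adm (K := K) g
  have hess' := ess_M hadm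
  have hn' := trdeg_M hn hadm
  constructor
  · exact opull_of_cpull hy hn hD hess' hn' (pr₁ K g) (pr₂ K g) (corrField K g).val
      (fun a => rfl) _ (fun a => rfl) h₁
  · refine opull_of_cpull hy hn hD hess' hn' (pr₂ K g) (pr₁ K g)
      (((g⁻¹ : Ω ≃ₐ[ℂ] Ω) : Ω →ₐ[ℂ] Ω).comp (corrField K g).val) (fun a => ?_) _ (fun a => ?_) h₂
    · change g⁻¹ (g (ιO K Ω a)) = ιO K Ω a
      exact g.symm_apply_apply _
    · rfl

theorem xw_L {d : ℕ} (g : Fin d → (Ω ≃ₐ[ℂ] Ω)) (lam : Fin d → PQ) {l : ℕ} (v : Fin l → Fin d) :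
    (xw (fun i => ((g i, lam i) : GG Ω)) v).1 = corrWord g v ∧
      (((xw (fun i => ((g i, lam i) : GG Ω)) v).2 : ℚ) : ℝ) = ∏ i, (((lam (v i) : ℚ)) : ℝ) := by
  unfold xw corrWord
  have key : ∀ L : List (Fin d), ((L.map fun i => ((g i, lam i) : GG Ω)).prod).1 =
      (L.map g).prod ∧ (((L.map fun i => ((g i, lam i) : GG Ω)).prod.2 : ℚ) : ℝ) =
        (L.map fun i => (((lam i : ℚ)) : ℝ)).prod := by
    intro L
    induction L with
    | nil => exact ⟨rfl, by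
        change (((1 : ℚ)) : ℝ) = 1
        norm_num⟩
    | cons a L ih =>
      rw [List.map_cons, List.prod_cons, List.map_cons, List.prod_cons, List.map_cons,
        List.prod_cons, Prod.fst_mul, Prod.snd_mul, ih.1, ← ih.2]
      refine ⟨rfl, ?_⟩
      change (((lam a : ℚ) * _ : ℚ) : ℝ) = _
      push_cast
      rfl
  have h1 := key (List.ofFn v)
  rw [List.map_ofFn, List.map_ofFn, List.map_ofFn] at h1
  refine ⟨h1.1, h1.2.trans ?_⟩
  rw [List.prod_ofFn]
  rfl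

/-- **The plateau theorem for eigen-divisors of correspondences.** -/
theorem eigen_plateau (hy : NormalModel y) (hn : Algebra.trdeg ℂ K = n) (hn0 : 0 < n)
    {D : Place ℂ K → ℚ} (hD : IsDivisor y D) (hcar : Cartier y n D) {d : ℕ}
    {g : Fin d → (Ω ≃ₐ[ℂ] Ω)} {lam : Fin d → ℚ} (hlam : ∀ i, 0 < lam i)
    (hg : ∀ i, CorrPullLe y D (pr₁ K (g i)) (pr₂ K (g i)) (lam i) ∧
      CorrPullLe y D (pr₂ K (g i)) (pr₁ K (g i)) (lam i)⁻¹) {w : Fin d → ℝ}
    (hw : ∀ i, 0 ≤ w i) (hw1 : ∑ i, w i = 1) {s : ℝ} (hs : 0 ≤ s) {ν : ℕ} (hν : ν ≤ n)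
    (hnum : ¬ NumLt y n D ν) :
    ∃ j, j + ν ≤ n ∧ ∀ a ≤ ν, ∀ p ≤ n,
      corrRandomL g lam w y n s p ≤ corrRandomL g lam w y n s (j + a) := by
  have hess := hy.ess
  obtain ⟨μ, hμ⟩ : ∃ μ : Fin d → PQ, μ = fun i => ⟨lam i, hlam i⟩ := ⟨_, rfl⟩
  have hμ' : ∀ i, ((μ i : PQ) : ℚ) = lam i := fun i => by rw [hμ]
  refine word_plateau hy hn hn0 hD (x := fun i => ((g i, μ i) : GG Ω)) (fun i => ?_) hw hw1 hs hν
    hnum (md := fun p l => corrMeanL g lam w y n s p l) (fun p _ l => ?_) (fun p _ => rfl)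
  · have hadm := corrField_adm (K := K) (g i)
    refine opull_autoL hy hn hD (g i) (μ i)
      (cpull_eigen hy (ess_M hadm) hn (trdeg_M hn hadm) hcar (by rw [hμ']; exact (hg i).1))
      (cpull_eigen hy (ess_M hadm) hn (trdeg_M hn hadm) hcar ?_)
    have h1 : ((μ i)⁻¹ : PQ).1 = (lam i)⁻¹ := by rw [hμ]; rfl
    rw [h1]
    exact (hg i).2
  · have e1 : ∀ v : Fin l → Fin d, degX (xw (fun i => ((g i, μ i) : GG Ω)) v) y n p =
        (corrDegree (corrWord g v) y n p).toReal / (∏ i, (lam (v i) : ℝ)) ^ p := by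
      intro v
      unfold degX
      obtain ⟨h1, h2⟩ := xw_L g μ v
      rw [h1, h2]
      simp only [hμ']
    unfold corrMeanL
    simp only [e1]

end

end Pool.Agent.T2h12.OM
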