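import Pool.Agent.T2h12.OM.RA
import Pool.Agent.N110.NV.Fin
import Pool.Agent.N110.QNef

/-!
Nonvanishing for divisors of numerical dimension zero on varieties of irregularity zero.
-/

set_option autoImplicit false
set_option linter.overlappingInstances false
set_option linter.unusedSectionVars false

open Filter FF Module IntermediateField Pool.Agent.N110 Pool.Agent.R887 Pool.Agent.Y172
open Pool.Agent.W602.GT Pool.Agent.W603.LV Pool.Agent.Y191
open Pool.Agent.T2H06.DYL (IsDivisor IsSec NumLt LocalEquation Cartier Nef)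
open scoped ENNReal

namespace Pool.Agent.T2h12.OM

section

variable {K : Type} [Field K] [Algebra ℂ K] {N n : ℕ} {y : Fin (N + 1) → K}

/-- The divisor `D` is pseudo-effective: for all `q ≥ 1` some multiple `m (q D + H)`, `m ≥ 1`, `H`
being the hyperplane section `y i = 0`, has a section `g ≠ 0`. -/
def DivPsef (y : Fin (N + 1) → K) (D : Place ℂ K → ℚ) : Prop :=
  ∀ i, y i ≠ 0 → ∀ q : ℕ, 1 ≤ q → ∃ m : ℕ, 1 ≤ m ∧ ∃ g : K, g ≠ 0 ∧
    ∀ P l, IsPrimeDivisor y P → Centred y l P →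
      -(m * (q * D P + P.ord (y i / y l)) : ℚ) ≤ P.ord g

theorem psef_of_nefD (hy : NormalModel y) (hn : Algebra.trdeg ℂ K = n) {D : Place ℂ K → ℚ}
    (hn0 : 0 < n) (h : Nef y n D) : DivPsef y D := by
  intro i hi q hq
  obtain ⟨m, hm, hQ⟩ := h i hi q hq
  obtain ⟨Q, hQd⟩ := Pool.Agent.N110.exists_divisorial hy hn hn0
  obtain ⟨g, hg0, hg, -⟩ := hQ Q hQd
  exact ⟨m, hm, g, hg0, hg⟩

/-- **Nonvanishing** -/
theorem nv_div (hy : NormalModel y) (hn : Algebra.trdeg ℂ K = n) (hn0 : 0 < n)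
    {D : Place ℂ K → ℚ} (hD : IsDivisor y D) (hpsef : DivPsef y D) (hnum : NumLt y n D 1)
    (hq : IrregularityZero y) : ∃ m : ℕ, 1 ≤ m ∧ ∃ g : K, g ≠ 0 ∧ IsSec y (m • D) g := by
  have hess := hy.ess
  obtain ⟨x, E, hx, hE⟩ := exists_crd hn (k := ℂ) (K := K)
  have hfr : IsFrame E := fun F => ⟨fun j => F (x j),
    (Pool.Agent.W73.PG.PULL.expand x hx E hE F).symm⟩
  obtain ⟨c, hcfin, hc⟩ := exists_ordc hy hn hx hE
  obtain ⟨Δ, hΔ⟩ : ∃ Δ : Place ℂ K → ℚ, Δ = fun P => D P - c P := ⟨_, rfl⟩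
  have e1 : (fun P => (c P : ℚ) + Δ P) = D := by
    rw [hΔ]
    funext P
    ring
  have hΔf : {P | IsPrimeDivisor y P ∧ Δ P ≠ 0}.Finite := by
    refine (hcfin.union hD).subset ?_
    rintro P ⟨hP, h0⟩
    by_cases h1 : c P = 0
    · right
      refine ⟨hP, fun h2 => h0 ?_⟩
      rw [hΔ]
      simp only []
      rw [h1, h2, Int.cast_zero, sub_zero]
    · exact Or.inl ⟨hP, h1⟩
  have h1 : LogPsef y n Δ := by
    intro i hi q hq
    obtain ⟨m, hm, g, hg0, hg⟩ := hpsef i hi q hq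
    refine ⟨m, hm, frm x (m * q) g, fun h0 => hg0 ?_, frm_pluri x (m * q) g,
      fun P l hP hl => ?_⟩
    · rw [← frm_self hE (m * q) g, h0]
      rfl
    · have h2 := hg P l hP hl
      refine (hc P hP _ _ (frm_pluri x (m * q) g) _).2 (Or.inr ?_)
      rw [frm_self hE, hΔ]
      push_cast
      linarith
  have h2 : NumDimLt y n Δ 1 := by
    refine numDimLt_of_numLt hfr hc ?_
    rw [e1]
    exact hnum
  obtain ⟨m, hm, ω, hω0, hω⟩ := NV.nonvanishing hy hn hn0 hΔf h1 h2 hq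
  refine ⟨m, hm, ω E, fun h0 => hω0 (pluri_zero hfr hω.1 h0), fun P hP => ?_⟩
  have h3 := (isSection_iff hc hω.1).1 hω P hP
  refine h3.imp_right fun h4 => ?_
  rw [Pi.smul_apply, nsmul_eq_mul] at h4 ⊢
  rw [hΔ] at h4
  simp only [] at h4
  linarith

end

end Pool.Agent.T2h12.OM
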