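import Pool.Agent.T2h12.OM.Defs
import Pool.Agent.T2H06.DYL.Defs

/-!
Definitions: divisors which are multiplied by a rational number by correspondences, and the
dynamical degrees of random products of correspondences, normalised by these numbers.
-/

set_option autoImplicit false

open FF IntermediateField Pool.Agent.W602.GT Pool.Agent.Y172 Pool.Agent.R887 Pool.Agent.N110
open Pool.Agent.T2H06.DYL (LocalEquation)

namespace Pool.Agent.T2h12.OM

section

variable {K L : Type} [Field K] [Algebra ℂ K] [Field L] [Algebra ℂ L] {N : ℕ}

/-- Let `p` and `q` be the pull backs of functions by the two projections of a correspondence `Γ`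
with the function field `L`, and `D` a Cartier divisor on `X`. The class of the divisor
`lam p^* D - q^* D` is pseudo-effective, along the divisors which are mapped onto prime divisors of
`X` by the first projection: for all `k ≥ 1` the divisor `k (lam p^* D - q^* D) + p^* H`, `H` being
the hyperplane section `y i = 0`, is `ℚ`-linearly equivalent to an effective divisor, that is, for
some `a ≥ 1` and some `w ≠ 0` the divisor `a (k (lam p^* D - q^* D) + p^* H) + div w` has
multiplicities `≥ 0` along all these divisors `Q`. If `Q` lies over the prime divisor `P` of `X` for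
the first projection, with ramification index `e`, and over the divisor `Q'` over `X` for the second
projection, then `p^* D` has the multiplicity `e D P` along `Q`, and `q^* D` has the multiplicity
`Q.ord (q g)`, `g` being a local equation of `D` at the centre of `Q'`. -/
def CorrPullLe (y : Fin (N + 1) → K) (D : Place ℂ K → ℚ) (p q : K →ₐ[ℂ] L) (lam : ℚ) : Prop :=
  ∀ i, y i ≠ 0 → ∀ k : ℕ, 1 ≤ k → ∃ a : ℕ, 1 ≤ a ∧ ∃ w : L, w ≠ 0 ∧
    ∀ P, IsPrimeDivisor y P → ∀ (Q : Place ℂ L) (e : ℕ), LiesOver p Q P e →
      ∀ (Q' : Place ℂ K) (e' : ℕ), LiesOver q Q Q' e' → ∀ (l : Fin (N + 1)) (g : K),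
        Centred y l P → LocalEquation y D Q' g →
          (a : ℚ) * (k * Q.ord (q g)) ≤
            a * (k * (lam * (e * D P)) + Q.ord (p (y i / y l))) + Q.ord w

end

section

variable {K Ω : Type} [Field K] [Field Ω] [Algebra ℂ K] [Algebra ℂ Ω] [Algebra K Ω]
  [IsScalarTower ℂ K Ω] {N : ℕ}

/-- The mean of exponent `s ≥ 0` (the geometric mean if `s = 0`, the arithmetic mean if `s = 1`) of
the quotient of the normalised degree of the composition of `l` branches by the `p`-th power of the
product of the numbers `lam i`. The branches are chosen independently at random; the `i`-th branch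
is chosen with probability `w i`. -/
noncomputable def corrMeanL {d : ℕ} (g : Fin d → (Ω ≃ₐ[ℂ] Ω)) (lam : Fin d → ℚ) (w : Fin d → ℝ)
    (y : Fin (N + 1) → K) (n : ℕ) (s : ℝ) (p l : ℕ) : ℝ :=
  if s = 0 then ∏ v : Fin l → Fin d,
    ((corrDegree (corrWord g v) y n p).toReal / (∏ i, (lam (v i) : ℝ)) ^ p) ^ (∏ i, w (v i))
  else (∑ v : Fin l → Fin d, (∏ i, w (v i)) *
    ((corrDegree (corrWord g v) y n p).toReal / (∏ i, (lam (v i) : ℝ)) ^ p) ^ s) ^ (1 / s)

open scoped ENNReal in
/-- The `p`-th dynamical degree of exponent `s` of the random products of the branches `g i`,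
normalised by the numbers `lam i`: the upper limit, for `l → ∞`, of the `l`-th root of the mean of
exponent `s` of the quotients of the normalised degrees of the compositions of `l` branches by the
`p`-th powers of the products of the numbers `lam i`. For one branch and `lam = λ` it is
`δ p / λ ^ p`, where `δ p` is the `p`-th dynamical degree. -/
noncomputable def corrRandomL {d : ℕ} (g : Fin d → (Ω ≃ₐ[ℂ] Ω)) (lam : Fin d → ℚ)
    (w : Fin d → ℝ) (y : Fin (N + 1) → K) (n : ℕ) (s : ℝ) (p : ℕ) : ℝ≥0∞ :=
  Filter.limsup (fun l : ℕ => ENNReal.ofReal (corrMeanL g lam w y n s p l) ^ (1 / (l : ℝ)))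
    Filter.atTop

end

end Pool.Agent.T2h12.OM
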