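import Pool.Agent.T2h12.OM.QC
import Pool.Agent.N110.SE.Fin

/-!
The system of commuting automorphisms of `Ω`, and the rank theorem.
-/

set_option autoImplicit false
set_option linter.overlappingInstances false
set_option linter.unusedSectionVars false

open Filter FF Module IntermediateField Pool.Agent.N110 Pool.Agent.R887 Pool.Agent.Y172
open Pool.Agent.W602.GT Pool.Agent.W603.LV Pool.Agent.Y191 Pool.Agent.N110.RK
open Pool.Agent.N110.SE (ps ng ESys)
open Pool.Agent.T2H06.DYL (IsDivisor IsSec NumLt)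
open scoped ENNReal

namespace Pool.Agent.T2h12.OM

section

variable {K Ω : Type} [Field K] [Field Ω] [Algebra ℂ K] [Algebra ℂ Ω] [Algebra K Ω]
  [IsScalarTower ℂ K Ω] {N n : ℕ} {y : Fin (N + 1) → K} [Algebra.IsAlgebraic K Ω]

/-- products, the other inequality -/
theorem tO_mul_ge (hy : NormalModel y) (hn : Algebra.trdeg ℂ K = n) {D V V' : OCl Ω}
    (h : V.V * V'.V ≤ D.V) {s : Multiset (OCl Ω)} (hs : s.card + 1 = n) :
    tO K (V ::ₘ s) + tO K (V' ::ₘ s) ≤ tO K (D ::ₘ s) := by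
  have hess := hy.ess
  obtain ⟨i, hi⟩ := hy.ne
  obtain ⟨M, hM, hMs, -⟩ := exists_adm (K := K) (D ::ₘ V ::ₘ V' ::ₘ s) ∅
  have hD : InM M D := hMs D (by simp)
  have hV : InM M V := hMs V (by simp)
  have hV' : InM M V' := hMs V' (by simp)
  have hs' : ∀ U ∈ s, InM M U := fun U hU => hMs U (by simp [hU])
  have key : ∀ U, InM M U → tO K (U ::ₘ s) = (I (clM hy hi hM U ::ₘ s.map (clM hy hi hM)) : ℝ) /
      relfinrank (KO K Ω) M := by
    intro U hU
    rw [tO_eq hy hn hi hM (s := U ::ₘ s) (by rw [Multiset.card_cons]; exact hs) (fun U' hU' => by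
      rcases Multiset.mem_cons.1 hU' with rfl | hU'
      · exact hU
      · exact hs' U' hU'), Multiset.map_cons]
  rw [key D hD, key V hV, key V' hV', ← add_div]
  have h2 : (0 : ℝ) < relfinrank (KO K Ω) M := by exact_mod_cast KO_rel hM.le hM.fg
  refine div_le_div_of_nonneg_right ?_ h2.le
  have e1 : ∀ U, InM M U → ((clM hy hi hM U).V).map M.val.toLinearMap = U.V := by
    intro U hU
    apply le_antisymm
    · rintro _ ⟨x, hx, rfl⟩
      exact (clM_mem hy hi hM hU x).1 hx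
    · intro x hx
      exact ⟨⟨x, hU x hx⟩, (clM_mem hy hi hM hU _).2 hx, rfl⟩
  have h3 := I_mul_ge (ctx_M hy hn hi hM) (D := clM hy hi hM D) (V := clM hy hi hM V)
    (V' := clM hy hi hM V') (s := s.map (clM hy hi hM)) (fun v hv => by
      rw [clM_mem hy hi hM hD]
      refine h ?_
      rw [← e1 V hV, ← e1 V' hV', ← Submodule.map_mul]
      exact ⟨v, hv, rfl⟩) (by rw [Multiset.card_map]; exact hs)
  exact_mod_cast h3

theorem tO_mul (hy : NormalModel y) (hn : Algebra.trdeg ℂ K = n) (V V' : OCl Ω)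
    {s : Multiset (OCl Ω)} (hs : s.card + 1 = n) :
    tO K (mulO V V' ::ₘ s) = tO K (V ::ₘ s) + tO K (V' ::ₘ s) :=
  le_antisymm (tO_add hy hn le_rfl hs) (tO_mul_ge hy hn le_rfl hs)

theorem tO_pw (hy : NormalModel y) (hn : Algebra.trdeg ℂ K = n) (V : OCl Ω) {k : ℕ} (hk : 0 < k)
    {s : Multiset (OCl Ω)} (hs : s.card + 1 = n) :
    tO K (pwO V (k - 1) ::ₘ s) = k * tO K (V ::ₘ s) := by
  have h1 := tO_pw_le (K := K) hy hn V (k - 1) hs
  have h2 := tO_pw_ge (K := K) hy hn V (k - 1) hs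
  rw [show k - 1 + 1 = k by omega] at h1 h2
  exact le_antisymm h1 h2

/-- the sum of two multiples of spaces -/
noncomputable def mulS (z z' : SC Ω) : SC Ω :=
  (mulO (pwO z.1 ((z.2 : ℚ).num.toNat * (z'.2 : ℚ).den - 1))
    (pwO z'.1 ((z'.2 : ℚ).num.toNat * (z.2 : ℚ).den - 1)),
    invN ((z.2 : ℚ).den * (z'.2 : ℚ).den) (Nat.mul_pos (z.2 : ℚ).den_pos (z'.2 : ℚ).den_pos))

theorem tS_mul (hy : NormalModel y) (hn : Algebra.trdeg ℂ K = n) (z z' : SC Ω)
    {s : Multiset (SC Ω)} (hs : s.card + 1 = n) :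
    tS K (mulS z z' ::ₘ s) = tS K (z ::ₘ s) + tS K (z' ::ₘ s) := by
  rw [tS_cons, tS_cons, tS_cons]
  obtain ⟨h1, h1'⟩ := wt_eq z
  obtain ⟨h2, h2'⟩ := wt_eq z'
  obtain ⟨a, ha⟩ : ∃ a, a = (z.2 : ℚ).num.toNat := ⟨_, rfl⟩
  obtain ⟨b, hb⟩ : ∃ b, b = (z.2 : ℚ).den := ⟨_, rfl⟩
  obtain ⟨a', ha'⟩ : ∃ a', a' = (z'.2 : ℚ).num.toNat := ⟨_, rfl⟩
  obtain ⟨b', hb'⟩ : ∃ b', b' = (z'.2 : ℚ).den := ⟨_, rfl⟩
  have hb0 : 0 < b := by rw [hb]; exact (z.2 : ℚ).den_pos
  have hb0' : 0 < b' := by rw [hb']; exact (z'.2 : ℚ).den_pos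
  have hsc : (s.map Prod.fst).card + 1 = n := by rw [Multiset.card_map]; exact hs
  have e1 : wt (mulS z z') = 1 / ((b * b' : ℕ) : ℝ) := by
    rw [hb, hb']
    exact wt_inv _ _ _
  have e2 : (mulS z z').1 = mulO (pwO z.1 (a * b' - 1)) (pwO z'.1 (a' * b - 1)) := by
    rw [ha, hb, ha', hb']
    rfl
  rw [← ha] at h1 h1'
  rw [← hb] at h1'
  rw [← ha'] at h2 h2'
  rw [← hb'] at h2'
  rw [e1, e2, h1', h2', tO_mul hy hn _ _ hsc, tO_pw hy hn _ (Nat.mul_pos h1 hb0') hsc,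
    tO_pw hy hn _ (Nat.mul_pos h2 hb0) hsc]
  push_cast
  have hbr : (b : ℝ) ≠ 0 := by exact_mod_cast hb0.ne'
  have hbr' : (b' : ℝ) ≠ 0 := by exact_mod_cast hb0'.ne'
  field_simp

/-- the multiplier is multiplicative -/
theorem chiS_mul (hy : NormalModel y) (hn : Algebra.trdeg ℂ K = n) (x x' : GG Ω) :
    chiS K n (x * x') = chiS K n x * chiS K n x' := by
  have hess := hy.ess
  obtain ⟨i, hi⟩ := hy.ne
  obtain ⟨s, hs⟩ : ∃ s : Multiset (SC Ω), s = Multiset.replicate n ((HO Ω hy hi, 1) : SC Ω) :=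
    ⟨_, rfl⟩
  have hsc : s.card = n := by rw [hs, Multiset.card_replicate]
  have h1 := tS_map (K := K) (n := n) (x * x') hsc
  have e1 : s.map (act (x * x')) = (s.map (act x')).map (act x) := by
    rw [Multiset.map_map]
    refine Multiset.map_congr rfl fun z _ => ?_
    exact act_mul x x' z
  rw [e1, tS_map (n := n) x (by rw [Multiset.card_map]; exact hsc), tS_map (n := n) x' hsc,
    ← mul_assoc] at h1
  exact (mul_right_cancel₀ (tS_pos hy hn hsc).ne' h1).symm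

end

end Pool.Agent.T2h12.OM
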