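import Pool.Agent.T2h12.OM.S1

/-!
The rank theorem for commuting automorphisms of `Ω`.
-/

set_option autoImplicit false
set_option linter.overlappingInstances false
set_option linter.unusedSectionVars false

open Filter FF Module IntermediateField Pool.Agent.N110 Pool.Agent.R887 Pool.Agent.Y172
open Pool.Agent.W602.GT Pool.Agent.W603.LV Pool.Agent.Y191 Pool.Agent.N110.RK
open Pool.Agent.N110.SE (ps ng ESys semi_rank stmSJ)
open Pool.Agent.T2H06.DYL (IsDivisor IsSec NumLt)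
open scoped ENNReal

namespace Pool.Agent.T2h12.OM

section

variable {K Ω : Type} [Field K] [Field Ω] [Algebra ℂ K] [Algebra ℂ Ω] [Algebra K Ω]
  [IsScalarTower ℂ K Ω] {N n : ℕ} {y : Fin (N + 1) → K} [Algebra.IsAlgebraic K Ω]

theorem hom_zero {r : ℕ} {X : (Fin r → ℤ) → GG Ω} (hX : ∀ u v, X (u + v) = X u * X v) :
    X 0 = 1 := by
  have h1 := hX 0 0
  rw [add_zero] at h1
  exact (mul_eq_left (a := X 0) (b := X 0)).1 h1.symm

theorem hom_neg {r : ℕ} {X : (Fin r → ℤ) → GG Ω} (hX : ∀ u v, X (u + v) = X u * X v)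
    (u : Fin r → ℤ) : X (-u) = (X u)⁻¹ := by
  have h1 := hX u (-u)
  rw [add_neg_cancel, hom_zero hX] at h1
  exact (inv_eq_of_mul_eq_one_right h1.symm).symm

/-- all the elements of the group preserve the system -/
theorem pull_all (hy : NormalModel y) (_hn : Algebra.trdeg ℂ K = n) {i₀ : Fin (N + 1)}
    (hi : y i₀ ≠ 0) {𝒜 : Type} {r : ℕ} {X : (Fin r → ℤ) → GG Ω}
    (hX : ∀ u v, X (u + v) = X u * X v) {m : ℕ → ℝ} {M : 𝒜 → ℕ → SC Ω} {ν : ℕ} {c ε C₁ : ℝ}
    (h : BSys (K := K) hy hi (Set.range fun i => X (Pi.single i 1)) n m M ν c ε C₁)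
    (u : Fin r → ℤ) : ∀ a, ∃ a', ∀ q,
      Le n (fun s : Multiset (SC Ω) => tS K s) 1 (act (X u) (M a q)) (M a' q) := by
  have hess := hy.ess
  obtain ⟨P, hP⟩ : ∃ P : GG Ω → Prop, ∀ x, P x ↔ ∀ a, ∃ a', ∀ q,
      Le n (fun s : Multiset (SC Ω) => tS K s) 1 (act x (M a q)) (M a' q) :=
    ⟨_, fun _ => Iff.rfl⟩
  have h1 : P 1 := (hP 1).2 fun a => ⟨a, fun q => by rw [act_one]; exact Le.refl _⟩
  have hmul : ∀ x x', P x → P x' → P (x * x') := by
    intro x x' hx hx'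
    refine (hP _).2 fun a => ?_
    obtain ⟨a1, h2⟩ := (hP _).1 hx' a
    obtain ⟨a2, h3⟩ := (hP _).1 hx a1
    refine ⟨a2, fun q => ?_⟩
    rw [act_mul]
    exact le_trans1 (le_act x zero_le_one (h2 q)) (h3 q)
  obtain ⟨G, hG⟩ : ∃ G : AddSubgroup (Fin r → ℤ), ∀ u, u ∈ G ↔ P (X u) ∧ P (X u)⁻¹ :=
    ⟨{ carrier := {u | P (X u) ∧ P (X u)⁻¹}
       zero_mem' := by
         change P (X 0) ∧ P (X 0)⁻¹
         rw [hom_zero hX, inv_one]
         exact ⟨h1, h1⟩
       add_mem' := by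
         rintro a b ⟨ha, ha'⟩ ⟨hb, hb'⟩
         change P (X (a + b)) ∧ P (X (a + b))⁻¹
         rw [hX, mul_inv_rev]
         exact ⟨hmul _ _ ha hb, hmul _ _ hb' ha'⟩
       neg_mem' := by
         rintro a ⟨ha, ha'⟩
         change P (X (-a)) ∧ P (X (-a))⁻¹
         rw [hom_neg hX, inv_inv]
         exact ⟨ha', ha⟩ }, fun u => Iff.rfl⟩
  have hgen : ∀ i, Pi.single i (1 : ℤ) ∈ G := fun i =>
    (hG _).2 ⟨(hP _).2 (h.pull _ ⟨i, rfl⟩), (hP _).2 (h.push _ ⟨i, rfl⟩)⟩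
  have hu : u ∈ G := by
    rw [← Finset.univ_sum_single u]
    refine G.sum_mem fun i _ => ?_
    have e1 : (Pi.single i (u i) : Fin r → ℤ) = u i • Pi.single i (1 : ℤ) := by
      rw [← Pi.single_smul, smul_eq_mul, mul_one]
    rw [e1]
    exact G.zsmul_mem (hgen i) _
  exact (hP _).1 ((hG u).1 hu).1

theorem log_chi (hy : NormalModel y) (hn : Algebra.trdeg ℂ K = n) {r : ℕ}
    {X : (Fin r → ℤ) → GG Ω} (hX : ∀ u v, X (u + v) = X u * X v) (u : Fin r → ℤ) :
    chiS K n (X u) = Real.exp (∑ i, Real.log (chiS K n (X (Pi.single i 1))) * (u i : ℝ)) := by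
  have hess := hy.ess
  obtain ⟨f, hf⟩ : ∃ f : (Fin r → ℤ) →+ ℝ, ∀ u, f u = Real.log (chiS K n (X u)) :=
    ⟨{ toFun := fun u => Real.log (chiS K n (X u))
       map_zero' := by
         have h1 := chiS_mul (K := K) hy hn (1 : GG Ω) 1
         rw [mul_one] at h1
         have h2 := chiS_pos (K := K) (n := n) (1 : GG Ω)
         have h3 : chiS K n (1 : GG Ω) = 1 := by
           have h4 : chiS K n (1 : GG Ω) * 1 = chiS K n (1 : GG Ω) * chiS K n (1 : GG Ω) := by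
             rw [mul_one]
             exact h1
           exact (mul_left_cancel₀ h2.ne' h4).symm
         rw [hom_zero hX, h3, Real.log_one]
       map_add' := by
         intro a b
         have h1 := chiS_pos (K := K) (n := n) (X a)
         have h2 := chiS_pos (K := K) (n := n) (X b)
         rw [hX, chiS_mul hy hn, Real.log_mul h1.ne' h2.ne'] }, fun u => rfl⟩
  have h1 : Real.log (chiS K n (X u)) =
      ∑ i, Real.log (chiS K n (X (Pi.single i 1))) * (u i : ℝ) := by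
    rw [← hf]
    conv_lhs => rw [← Finset.univ_sum_single u]
    rw [map_sum]
    refine Finset.sum_congr rfl fun i _ => ?_
    have e1 : (Pi.single i (u i) : Fin r → ℤ) = u i • Pi.single i (1 : ℤ) := by
      rw [← Pi.single_smul, smul_eq_mul, mul_one]
    rw [e1, map_zsmul, hf, zsmul_eq_mul, mul_comm]
  rw [← h1, Real.exp_log (chiS_pos _)]

/-- the order on the index set -/
@[reducible] def ordA {𝒜 : Type} (K : Type) [Field K] [Algebra ℂ K] [Algebra K Ω]
    [IsScalarTower ℂ K Ω] (n : ℕ) (M : 𝒜 → ℕ → SC Ω) : Preorder 𝒜 where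
  le a a' := ∀ q, Le n (fun s : Multiset (SC Ω) => tS K s) 1 (M a q) (M a' q)
  le_refl a q := Le.refl _
  le_trans a b d hab hbd q := le_trans1 (hab q) (hbd q)

/-- **The system.** -/
theorem BSys.esys (hy : NormalModel y) (hn : Algebra.trdeg ℂ K = n) {i₀ : Fin (N + 1)}
    (hi : y i₀ ≠ 0) {𝒜 : Type} {r : ℕ} {X : (Fin r → ℤ) → GG Ω}
    (hX : ∀ u v, X (u + v) = X u * X v) {m : ℕ → ℝ} {M : 𝒜 → ℕ → SC Ω} {ν : ℕ} {c ε C₁ : ℝ}
    (h : BSys (K := K) hy hi (Set.range fun i => X (Pi.single i 1)) n m M ν c ε C₁)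
    (hχ : ∀ i, 1 ≤ chiS K n (X (Pi.single i 1))) :
    letI := ordA K n M
    ESys n r (fun s : Multiset (SC Ω) => tS K s)
      (fun u : Fin r → ℕ => act (X fun i => (u i : ℤ)))
      (fun i => Real.log (chiS K n (X (Pi.single i 1)))) mulS ((HO Ω hy hi, 1) : SC Ω)
      m M ν c ε := by
  let _ := ordA K n M
  have hess := hy.ess
  refine ⟨fun s hs => tS_pos hy hn hs, tS_exch hy hn, h.hn0, h.hν, h.hc, h.hε, ?_, ?_, ?_, ?_,
    ?_, h.m_pos, ?_, ?_, ?_, ?_⟩
  · funext z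
    change act (X fun i : Fin r => (((0 : Fin r → ℕ) i : ℕ) : ℤ)) z = z
    have e1 : (fun i : Fin r => (((0 : Fin r → ℕ) i : ℕ) : ℤ)) = 0 := by
      funext i
      simp
    rw [e1, hom_zero hX, act_one]
  · intro u v
    funext z
    change act (X fun i : Fin r => (((u + v) i : ℕ) : ℤ)) z =
      act (X fun i => (u i : ℤ)) (act (X fun i => (v i : ℤ)) z)
    have e1 : (fun i : Fin r => (((u + v) i : ℕ) : ℤ)) =
        (fun i => (u i : ℤ)) + fun i => (v i : ℤ) := by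
      funext i
      simp
    rw [e1, hX, act_mul]
  · intro i
    exact Real.log_nonneg (hχ i)
  · intro u s hs
    have h1 := tS_map (K := K) (n := n) (X fun i => (u i : ℤ)) hs
    have h2 := log_chi (K := K) hy hn hX fun i => (u i : ℤ)
    push_cast at h2
    rw [h2] at h1
    exact h1
  · intro a b s hs
    exact tS_mul hy hn a b hs
  · intro a a' haa w q
    exact le_act _ zero_le_one (haa q)
  · intro u a
    obtain ⟨a', ha'⟩ := pull_all hy hn hi hX h (fun i => (u i : ℤ)) a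
    exact ⟨a', fun w q => le_act _ zero_le_one (ha' q)⟩
  · exact h.M_le
  · intro u
    obtain ⟨a0, ha0⟩ := h.eps
    obtain ⟨a', ha'⟩ := pull_all hy hn hi hX h (-fun i => (u i : ℤ)) a0
    refine ⟨a', ?_⟩
    filter_upwards [ha0] with q hq
    have h1 : Le n (fun s : Multiset (SC Ω) => tS K s) 1 (M a0 q)
        (act (X fun i => (u i : ℤ)) (M a' q)) := by
      have h2 := le_act (K := K) (X fun i => (u i : ℤ)) zero_le_one (ha' q)
      rwa [← act_mul, hom_neg hX, mul_inv_cancel, act_one] at h2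
    have h2 := h1.rep zero_le_one ν (Multiset.replicate (n - ν) ((HO Ω hy hi, 1) : SC Ω))
      (by have := h.hν; rw [Multiset.card_replicate]; omega)
    rw [one_pow, one_mul] at h2
    exact hq.trans h2

/-- the rank theorem, if the multipliers of the generators are at least `1` -/
theorem comm_aux (hy : NormalModel y) (hn : Algebra.trdeg ℂ K = n) (hn0 : 0 < n)
    {D : Place ℂ K → ℚ} (hD : IsDivisor y D) {r : ℕ} {X : (Fin r → ℤ) → GG Ω}
    (hX : ∀ u v, X (u + v) = X u * X v)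
    (hO : ∀ i, OPull y D (X (Pi.single i 1)) ∧ OPull y D (X (Pi.single i 1))⁻¹)
    (hχ : ∀ i, 1 ≤ chiS K n (X (Pi.single i 1))) {ν : ℕ} (hν : ν ≤ n) (hnum : ¬ NumLt y n D ν) :
    ∃ W : Submodule ℝ (Fin r → ℝ), r + ν ≤ finrank ℝ W + n ∧ ∀ w ∈ W, ∀ δ : ℝ, 0 < δ →
      ∃ B : ℝ, ∀ (l : ℕ) (v : Fin r → ℤ), (∀ i, |(v i : ℝ) - l * w i| < 1) →
        degX (X v) y n 1 ≤ B * Real.exp (δ * l) := by
  classical
  have hess := hy.ess
  obtain ⟨i₀, hi⟩ := hy.ne
  obtain ⟨ν', hν'd⟩ : ∃ ν', ν' = Nat.findGreatest (fun j => ¬ NumLt y n D j) n := ⟨_, rfl⟩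
  have hνν' : ν ≤ ν' := by rw [hν'd]; exact Nat.le_findGreatest hν hnum
  have hν' : ν' ≤ n := by rw [hν'd]; exact Nat.findGreatest_le n
  have hnum1 : ¬ NumLt y n D ν' := by
    rw [hν'd]
    exact Nat.findGreatest_spec (P := fun j => ¬ NumLt y n D j) hν hnum
  have hnum2 : ν' + 1 ≤ n → NumLt y n D (ν' + 1) := by
    intro h
    have h1 := Nat.findGreatest_is_greatest (P := fun j => ¬ NumLt y n D j) (n := n)
      (k := ν' + 1) (by omega) h
    exact not_not.1 h1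
  obtain ⟨C₁, hC₁⟩ : ∃ C₁ : ℝ, C₁ = ∑ j, tS K (act (X (Pi.single j 1))
      ((HO Ω hy hi, 1) : SC Ω) ::ₘ Multiset.replicate (n - 1) ((HO Ω hy hi, 1) : SC Ω)) :=
    ⟨_, rfl⟩
  have hle : ∀ z ∈ Set.range (fun i => X (Pi.single i 1)), tS K (act z
      ((HO Ω hy hi, 1) : SC Ω) ::ₘ Multiset.replicate (n - 1) ((HO Ω hy hi, 1) : SC Ω)) ≤ C₁ := by
    rintro _ ⟨j, rfl⟩
    rw [hC₁]
    exact Finset.single_le_sum (f := fun j => tS K (act (X (Pi.single j 1))
      ((HO Ω hy hi, 1) : SC Ω) ::ₘ Multiset.replicate (n - 1) ((HO Ω hy hi, 1) : SC Ω)))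
      (fun j _ => (tS_pos hy hn (by
        rw [Multiset.card_cons, Multiset.card_replicate]
        omega)).le) (Finset.mem_univ j)
  obtain ⟨𝒜, h𝒜, m, M, c, ε, hB⟩ := exists_bsys (K := K) (Ω := Ω) hy hn hn0 hi hD
    (S := Set.range fun i => X (Pi.single i 1)) (by
      rintro _ ⟨j, rfl⟩
      exact hO j) hle hν' hnum1 hnum2
  let _ := ordA K n M
  have hdir : IsDirected 𝒜 (· ≤ ·) := ⟨fun a b => by
    obtain ⟨d, hd⟩ := hB.dir a b
    exact ⟨d, fun q => (hd q).1, fun q => (hd q).2⟩⟩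
  obtain ⟨W, hW1, hW2⟩ := semi_rank stmSJ (hB.esys hy hn hi hX hχ)
  refine ⟨W, by omega, fun w hw δ hδ => ?_⟩
  obtain ⟨B, hB'⟩ := hW2 w hw δ hδ
  refine ⟨B, fun l v hv => ?_⟩
  refine le_trans (le_of_eq ?_) (hB' l v hv)
  rw [degX_eq hy hn hi _ (by omega : 1 ≤ n), Multiset.replicate_one, Multiset.singleton_add]
  obtain ⟨X', hX'⟩ : ∃ X', X' = X fun i => (ng v i : ℤ) := ⟨_, rfl⟩
  have e1 : (X fun i => (ps v i : ℤ)) = X' * X v := by
    rw [hX', ← hX]
    congr 1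
    funext i
    change ((v i).toNat : ℤ) = ((-v i).toNat : ℤ) + v i
    omega
  have e2 : (act (X fun i => (ps v i : ℤ)) ((HO Ω hy hi, 1) : SC Ω) ::ₘ
      Multiset.replicate (n - 1) (act (X fun i => (ng v i : ℤ)) ((HO Ω hy hi, 1) : SC Ω))) =
      (act (X v) ((HO Ω hy hi, 1) : SC Ω) ::ₘ
        Multiset.replicate (n - 1) ((HO Ω hy hi, 1) : SC Ω)).map (act X') := by
    rw [Multiset.map_cons, Multiset.map_replicate, ← act_mul, ← e1, hX']
  have h3 := log_chi (K := K) hy hn hX fun i => (ng v i : ℤ)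
  push_cast at h3
  rw [e2, tS_map (n := n) X' (by rw [Multiset.card_cons, Multiset.card_replicate]; omega), hX',
    h3, ← mul_assoc, ← Real.exp_add, neg_add_cancel, Real.exp_zero, one_mul]

end

end Pool.Agent.T2h12.OM
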