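import Pool.Agent.T2h12.OM.S2

/-!
The rank theorem for commuting automorphisms of `Ω`, without conditions on the multipliers.
-/

set_option autoImplicit false
set_option linter.overlappingInstances false
set_option linter.unusedSectionVars false

open Filter FF Module IntermediateField Pool.Agent.N110 Pool.Agent.R887 Pool.Agent.Y172
open Pool.Agent.W602.GT Pool.Agent.W603.LV Pool.Agent.Y191 Pool.Agent.N110.RK
open Pool.Agent.T2H06.DYL (IsDivisor IsSec NumLt)
open scoped ENNReal

namespace Pool.Agent.T2h12.OM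

section

variable {K Ω : Type} [Field K] [Field Ω] [Algebra ℂ K] [Algebra ℂ Ω] [Algebra K Ω]
  [IsScalarTower ℂ K Ω] {N n : ℕ} {y : Fin (N + 1) → K} [Algebra.IsAlgebraic K Ω]

/-- The function `D` on `ℤ ^ r` grows subexponentially along the ray through the vector `w` of
`ℝ ^ r`: for all `ε > 0` it is at most `B exp (ε l)` at the lattice points `v` near `l w`, for all
`l ≥ 0`. -/
def SubexpAlong {r : ℕ} (D : (Fin r → ℤ) → ℝ) (w : Fin r → ℝ) : Prop :=
  ∀ ε : ℝ, 0 < ε → ∃ B : ℝ, ∀ (l : ℕ) (v : Fin r → ℤ), (∀ i, |(v i : ℝ) - l * w i| < 1) →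
    D v ≤ B * Real.exp (ε * l)

/-- The growth rank of the function `D` on `ℤ ^ r` is at least `s`: every linear subspace `W` of
`ℝ ^ r` such that `D` grows subexponentially along all vectors in `W` has codimension at least
`s`. -/
def GrowthRankGe {r : ℕ} (D : (Fin r → ℤ) → ℝ) (s : ℕ) : Prop :=
  ∀ W : Submodule ℝ (Fin r → ℝ), (∀ w ∈ W, SubexpAlong D w) → finrank ℝ W + s ≤ r

/-- **The rank theorem.** -/
theorem comm_space (hy : NormalModel y) (hn : Algebra.trdeg ℂ K = n) (hn0 : 0 < n)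
    {D : Place ℂ K → ℚ} (hD : IsDivisor y D) {r : ℕ} {X : (Fin r → ℤ) → GG Ω}
    (hX : ∀ u v, X (u + v) = X u * X v)
    (hO : ∀ i, OPull y D (X (Pi.single i 1)) ∧ OPull y D (X (Pi.single i 1))⁻¹)
    {ν : ℕ} (hν : ν ≤ n) (hnum : ¬ NumLt y n D ν) :
    ∃ W : Submodule ℝ (Fin r → ℝ), r + ν ≤ finrank ℝ W + n ∧ ∀ w ∈ W,
      SubexpAlong (fun v => degX (X v) y n 1) w := by
  classical
  have hess := hy.ess
  obtain ⟨σ, hσ⟩ : ∃ σ : Fin r → ℤ, ∀ i, σ i =
      if 1 ≤ chiS K n (X (Pi.single i 1)) then 1 else -1 := ⟨_, fun _ => rfl⟩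
  have hσ2 : ∀ i, σ i * σ i = 1 := by
    intro i
    rw [hσ]
    split_ifs <;> norm_num
  have hσσ : ∀ v : Fin r → ℤ, σ * (σ * v) = v := by
    intro v
    funext i
    rw [Pi.mul_apply, Pi.mul_apply, ← mul_assoc, hσ2, one_mul]
  obtain ⟨Y, hY⟩ : ∃ Y : (Fin r → ℤ) → GG Ω, ∀ u, Y u = X (σ * u) := ⟨_, fun _ => rfl⟩
  have hYX : ∀ u v, Y (u + v) = Y u * Y v := by
    intro u v
    rw [hY, hY, hY, mul_add, hX]
  have hYe : ∀ i, (1 ≤ chiS K n (X (Pi.single i 1)) ∧ Y (Pi.single i 1) = X (Pi.single i 1)) ∨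
      (¬ 1 ≤ chiS K n (X (Pi.single i 1)) ∧ Y (Pi.single i 1) = (X (Pi.single i 1))⁻¹) := by
    intro i
    have e1 : σ * Pi.single i (1 : ℤ) = Pi.single i (σ i) := by
      funext j
      by_cases hj : j = i
      · subst hj
        simp
      · simp [hj]
    by_cases h1 : 1 ≤ chiS K n (X (Pi.single i 1))
    · left
      refine ⟨h1, ?_⟩
      rw [hY, e1, hσ, if_pos h1]
    · right
      refine ⟨h1, ?_⟩
      rw [hY, e1, hσ, if_neg h1, Pi.single_neg, hom_neg hX]
  have hYO : ∀ i, OPull y D (Y (Pi.single i 1)) ∧ OPull y D (Y (Pi.single i 1))⁻¹ := by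
    intro i
    rcases hYe i with ⟨-, h⟩ | ⟨-, h⟩
    · rw [h]
      exact hO i
    · rw [h, inv_inv]
      exact ⟨(hO i).2, (hO i).1⟩
  have hYχ : ∀ i, 1 ≤ chiS K n (Y (Pi.single i 1)) := by
    intro i
    rcases hYe i with ⟨h1, h⟩ | ⟨h1, h⟩
    · rw [h]
      exact h1
    · rw [h]
      push Not at h1
      have h2 := chiS_mul (K := K) hy hn (X (Pi.single i 1)) (X (Pi.single i 1))⁻¹
      have h3 := chiS_pos (K := K) (n := n) (X (Pi.single i 1))
      have h4 := chiS_pos (K := K) (n := n) (X (Pi.single i 1))⁻¹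
      have h5 : chiS K n (1 : GG Ω) = 1 := by
        have h6 := chiS_mul (K := K) hy hn (1 : GG Ω) 1
        rw [mul_one] at h6
        have h7 := chiS_pos (K := K) (n := n) (1 : GG Ω)
        have h8 : chiS K n (1 : GG Ω) * 1 = chiS K n (1 : GG Ω) * chiS K n (1 : GG Ω) := by
          rw [mul_one]
          exact h6
        exact (mul_left_cancel₀ h7.ne' h8).symm
      rw [mul_inv_cancel, h5] at h2
      nlinarith
  obtain ⟨W, hW1, hW2⟩ := comm_aux hy hn hn0 hD hYX hYO hYχ hν hnum
  obtain ⟨τ, hτ⟩ : ∃ τ : (Fin r → ℝ) ≃ₗ[ℝ] (Fin r → ℝ), ∀ w i, τ w i = (σ i : ℝ) * w i := by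
    have h2 : ∀ i, (σ i : ℝ) * (σ i : ℝ) = 1 := fun i => by exact_mod_cast hσ2 i
    refine ⟨{ toFun := fun w i => (σ i : ℝ) * w i
              map_add' := fun a b => by
                funext i
                simp only [Pi.add_apply]
                ring
              map_smul' := fun c a => by
                funext i
                simp only [Pi.smul_apply, smul_eq_mul, RingHom.id_apply]
                ring
              invFun := fun w i => (σ i : ℝ) * w i
              left_inv := fun w => by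
                funext i
                simp only []
                rw [← mul_assoc, h2, one_mul]
              right_inv := fun w => by
                funext i
                simp only []
                rw [← mul_assoc, h2, one_mul] }, fun w i => rfl⟩
  refine ⟨W.map (τ : (Fin r → ℝ) →ₗ[ℝ] (Fin r → ℝ)), ?_, ?_⟩
  · rw [LinearEquiv.finrank_map_eq]
    exact hW1
  · rintro _ ⟨w, hw, rfl⟩ δ hδ
    obtain ⟨B, hB⟩ := hW2 w hw δ hδ
    refine ⟨B, fun l v hv => ?_⟩
    have h1 := hB l (σ * v) fun i => ?_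
    · rw [hY, hσσ] at h1
      exact h1
    · have h3 := hv i
      have h4 : (τ : (Fin r → ℝ) →ₗ[ℝ] (Fin r → ℝ)) w i = (σ i : ℝ) * w i := hτ w i
      rw [h4] at h3
      rw [Pi.mul_apply]
      push_cast
      have h5 : ((σ i : ℝ) = 1) ∨ ((σ i : ℝ) = -1) := by
        rw [hσ]
        split_ifs
        · left; norm_num
        · right; norm_num
      rcases h5 with h5 | h5
      · rw [h5] at h3 ⊢
        rw [one_mul]
        rwa [one_mul] at h3
      · rw [h5] at h3 ⊢
        rw [← abs_neg]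
        convert h3 using 2
        ring

/-- the rank theorem, in terms of the growth rank -/
theorem comm_rank (hy : NormalModel y) (hn : Algebra.trdeg ℂ K = n) (hn0 : 0 < n)
    {D : Place ℂ K → ℚ} (hD : IsDivisor y D) {r : ℕ} {X : (Fin r → ℤ) → GG Ω}
    (hX : ∀ u v, X (u + v) = X u * X v)
    (hO : ∀ i, OPull y D (X (Pi.single i 1)) ∧ OPull y D (X (Pi.single i 1))⁻¹)
    {s : ℕ} (hs : GrowthRankGe (fun v => degX (X v) y n 1) s) {ν : ℕ} (hν : ν ≤ n)
    (hνs : n < s + ν) : NumLt y n D ν := by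
  by_contra hnum
  obtain ⟨W, hW1, hW2⟩ := comm_space hy hn hn0 hD hX hO hν hnum
  have := hs W hW2
  omega

end

end Pool.Agent.T2h12.OM
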